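import Pool.Agent.Lib.MP_7e122f_an.Shells

open MeasureTheory Complex

namespace MP7e122f

noncomputable def cc (A B C : ℝ) (k : ℤ × ℤ) : ℝ :=
  Real.exp (-(A * k.1 ^ 2 + B * k.2 ^ 2 + C * (k.1 + k.2) ^ 2))

noncomputable def Dk (A B C y : ℝ) (k : ℤ × ℤ) : ℝ :=
  cc A B C k + cc B C A k + cc C A B k - 3 * cc y y y k

noncomputable def D1 (A B C y : ℝ) : ℝ :=
  Real.exp (-(A + C)) + Real.exp (-(B + A)) + Real.exp (-(C + B)) - 3 * Real.exp (-(2 * y))

noncomputable def D3 (A B C y : ℝ) : ℝ :=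
  Real.exp (-(A + B + 4 * C)) + Real.exp (-(B + C + 4 * A)) + Real.exp (-(C + A + 4 * B))
    - 3 * Real.exp (-(6 * y))

noncomputable def D4 (A B C y : ℝ) : ℝ :=
  Real.exp (-(4 * (A + C))) + Real.exp (-(4 * (B + A))) + Real.exp (-(4 * (C + B)))
    - 3 * Real.exp (-(8 * y))

lemma cc_hex (y : ℝ) (k : ℤ × ℤ) : cc y y y k = Real.exp (-(2 * y) * Nf k) := by
  unfold cc Nf
  congr 1
  push_cast
  ring

lemma Dk_zero (A B C y : ℝ) : Dk A B C y (0, 0) = 0 := by
  unfold Dk cc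
  norm_num

lemma Dk_S1 (A B C y : ℝ) : ∀ k ∈ S1, Dk A B C y k = D1 A B C y := by
  intro k hk
  unfold Dk D1 cc
  simp only [S1, Finset.mem_insert, Finset.mem_singleton] at hk
  rcases hk with rfl | rfl | rfl | rfl | rfl | rfl <;> norm_num <;> ring_nf

lemma Dk_S3 (A B C y : ℝ) : ∀ k ∈ S3, Dk A B C y k = D3 A B C y := by
  intro k hk
  unfold Dk D3 cc
  simp only [S3, Finset.mem_insert, Finset.mem_singleton] at hk
  rcases hk with rfl | rfl | rfl | rfl | rfl | rfl <;> norm_num <;> ring_nf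

lemma Dk_S4 (A B C y : ℝ) : ∀ k ∈ S4, Dk A B C y k = D4 A B C y := by
  intro k hk
  unfold Dk D4 cc
  simp only [S4, Finset.mem_insert, Finset.mem_singleton] at hk
  rcases hk with rfl | rfl | rfl | rfl | rfl | rfl <;> norm_num <;> ring_nf

lemma hex_S1 (y : ℝ) : ∀ k ∈ S1, cc y y y k = Real.exp (-(2 * y)) := by
  intro k hk
  rw [cc_hex]
  simp only [S1, Finset.mem_insert, Finset.mem_singleton] at hk
  rcases hk with rfl | rfl | rfl | rfl | rfl | rfl <;> norm_num [Nf]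

lemma hex_S3 (y : ℝ) : ∀ k ∈ S3, cc y y y k = Real.exp (-(2 * y)) ^ 3 := by
  intro k hk
  rw [cc_hex, ← Real.exp_nat_mul]
  simp only [S3, Finset.mem_insert, Finset.mem_singleton] at hk
  rcases hk with rfl | rfl | rfl | rfl | rfl | rfl <;> norm_num [Nf] <;> ring_nf

lemma hex_S4 (y : ℝ) : ∀ k ∈ S4, cc y y y k = Real.exp (-(2 * y)) ^ 4 := by
  intro k hk
  rw [cc_hex, ← Real.exp_nat_mul]
  simp only [S4, Finset.mem_insert, Finset.mem_singleton] at hk
  rcases hk with rfl | rfl | rfl | rfl | rfl | rfl <;> norm_num [Nf] <;> ring_nf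

def R0 : Matrix (Fin 2) (Fin 2) ℤ := !![1, 0; 0, 1]
def R3 : Matrix (Fin 2) (Fin 2) ℤ := !![-1, -1; 1, 0]
def R32 : Matrix (Fin 2) (Fin 2) ℤ := !![0, 1; -1, -1]

def e3 : ℤ × ℤ ≃ ℤ × ℤ where
  toFun k := (-k.1 - k.2, k.1)
  invFun k := (k.2, -k.1 - k.2)
  left_inv k := by ext <;> simp
  right_inv k := by ext <;> (simp; try ring)

lemma det_R3 : R3.det = 1 := by simp [R3, Matrix.det_fin_two]
lemma det_R32 : R32.det = 1 := by simp [R32, Matrix.det_fin_two]

lemma actZ_R3 (k : ℤ × ℤ) : actZ R3 k = e3 k := by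
  unfold actZ R3 e3
  ext <;> simp; ring

lemma actZ_R32 (k : ℤ × ℤ) : actZ R32 k = e3.symm k := by
  unfold actZ R32 e3
  ext <;> simp; ring

lemma summable_cc (A B C : ℝ) (M : Mat) (hM : 0 < M.det) (hw : ∀ k, wt M k = cc A B C k) :
    Summable (cc A B C) := (summable_wt M hM.ne').congr hw

lemma cc_e3 (A B C : ℝ) (k : ℤ × ℤ) : cc A B C (e3 k) = cc B C A k := by
  unfold cc e3
  congr 1
  simp only [Equiv.coe_fn_mk]
  push_cast
  ring

lemma cc_e3_symm (A B C : ℝ) (k : ℤ × ℤ) : cc A B C (e3.symm k) = cc C A B k := by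
  unfold cc e3
  congr 1
  simp only [Equiv.coe_fn_symm_mk]
  push_cast
  ring

section

variable {M H : Mat} {A B C y : ℝ}

lemma summable_Dk (hM : 0 < M.det) (hH : 0 < H.det)
    (hwM : ∀ k, wt M k = cc A B C k) (hwH : ∀ k, wt H k = cc y y y k) :
    Summable (Dk A B C y) := by
  have s1 := summable_cc A B C M hM hwM
  have s2 : Summable (cc B C A) := by
    have := (Equiv.summable_iff e3).2 s1
    exact this.congr fun k => cc_e3 A B C k
  have s3 : Summable (cc C A B) := by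
    have := (Equiv.summable_iff e3.symm).2 s1
    exact this.congr fun k => cc_e3_symm A B C k
  have s4 := summable_cc y y y H hH hwH
  exact ((s1.add s2).add s3).sub (s4.mul_left 3)

lemma summable_mul_bdd {g w : ℤ × ℤ → ℝ} (hg : Summable g) (hw : ∀ k, |w k| ≤ 1) :
    Summable fun k => g k * w k := by
  refine Summable.of_norm_bounded (g := fun k => ‖g k‖) hg.norm fun k => ?_
  rw [norm_mul]
  exact mul_le_of_le_one_right (norm_nonneg _) (hw k)

/-- averaging inequality -/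
theorem cyc_bound (hM : 0 < M.det) (hH : H.det = M.det)
    (hwM : ∀ k, wt M k = cc A B C k) (hwH : ∀ k, wt H k = cc y y y k) (f : L2) (hf : ‖f‖ = 1) :
    3 * aval M - 3 * TS H f ≤ ∑' k, Dk A B C y k * st H f k ∧
    ∑' k, Dk A B C y k * st H f k ≤ 3 * bval M - 3 * TS H f := by
  have hH0 : 0 < H.det := hH ▸ hM
  set w := st H f with hw
  have hw1 := abs_st_le H f hf
  have s1 := summable_cc A B C M hM hwM
  have s2 : Summable (cc B C A) := by
    have := (Equiv.summable_iff e3).2 s1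
    exact this.congr fun k => cc_e3 A B C k
  have s3 : Summable (cc C A B) := by
    have := (Equiv.summable_iff e3.symm).2 s1
    exact this.congr fun k => cc_e3_symm A B C k
  have s4 := summable_cc y y y H hH0 hwH
  have t1 := transfer_val H M hH0 hH.symm f hf
  have t2 := transfer_rot H M hH0 hH.symm R3 det_R3 f hf
  have t3 := transfer_rot H M hH0 hH.symm R32 det_R32 f hf
  have q1 : ∑' k, wt M k * st H f k = ∑' k, cc A B C k * w k := by
    congr 1; funext k; rw [hwM]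
  have q2 : ∑' k, wt M k * st H f (actZ R3 k) = ∑' k, cc C A B k * w k := by
    rw [← e3.tsum_eq (fun k => cc C A B k * w k)]
    congr 1; funext k
    rw [hwM, actZ_R3, ← cc_e3_symm A B C (e3 k), Equiv.symm_apply_apply]
  have q3 : ∑' k, wt M k * st H f (actZ R32 k) = ∑' k, cc B C A k * w k := by
    rw [← e3.symm.tsum_eq (fun k => cc B C A k * w k)]
    congr 1; funext k
    rw [hwM, actZ_R32, ← cc_e3 A B C (e3.symm k), Equiv.apply_symm_apply]
  rw [q1] at t1
  rw [q2] at t2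
  rw [q3] at t3
  have u1 := summable_mul_bdd s1 hw1
  have u2 := summable_mul_bdd s2 hw1
  have u3 := summable_mul_bdd s3 hw1
  have u4 := summable_mul_bdd s4 hw1
  have hT : TS H f = ∑' k, cc y y y k * w k := by
    unfold TS; congr 1; funext k; rw [hwH]
  have hsum : ∑' k, Dk A B C y k * w k = ∑' k, cc A B C k * w k + ∑' k, cc B C A k * w k
      + ∑' k, cc C A B k * w k - 3 * ∑' k, cc y y y k * w k := by
    rw [← u1.tsum_add u2, ← (u1.add u2).tsum_add u3, ← tsum_mul_left,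
      ← ((u1.add u2).add u3).tsum_sub (u4.mul_left 3)]
    congr 1; funext k
    unfold Dk; ring
  rw [hsum, hT]
  constructor <;> linarith [t1.1, t1.2, t2.1, t2.2, t3.1, t3.2]

lemma sum_card_bound (s : Finset (ℤ × ℤ)) (hs : s.card = 6) (w : ℤ × ℤ → ℝ)
    (hw : ∀ k, |w k| ≤ 1) : |∑ k ∈ s, w k| ≤ 6 := by
  calc |∑ k ∈ s, w k| ≤ ∑ k ∈ s, |w k| := Finset.abs_sum_le_sum_abs _ _
    _ ≤ ∑ _k ∈ s, (1 : ℝ) := Finset.sum_le_sum fun k _ => hw k
    _ = 6 := by rw [Finset.sum_const, hs]; norm_num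

/-- expansion of the hexagonal sum -/
lemma hex_expand (hH : 0 < H.det) (hwH : ∀ k, wt H k = cc y y y k) (hy : 1 / 12 ≤ y)
    (f : L2) (hf : ‖f‖ = 1) (h : ℝ) (hh : h = Real.exp (-(2 * y))) :
    |TS H f - (1 + h * ∑ k ∈ S1, st H f k)| ≤ 6 * h ^ 3 + 6 * h ^ 4 + 229.4 * h ^ 7 := by
  have hw1 := abs_st_le H f hf
  have s4 := summable_cc y y y H hH hwH
  have u4 := summable_mul_bdd s4 hw1
  have hT : TS H f = ∑' k, cc y y y k * st H f k := by
    unfold TS; congr 1; funext k; rw [hwH]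
  have h0 : 0 < h := hh ▸ Real.exp_pos _
  have htail := tail_bound (fun k => cc y y y k * st H f k) u4 1 (2 * y) zero_le_one
    (by linarith) (fun k _ => by
      rw [abs_mul, cc_hex, abs_of_pos (Real.exp_pos _)]
      have := hw1 k
      have h2 := Real.exp_pos (-(2 * y) * (Nf k : ℝ))
      nlinarith)
  rw [← hT, sum_F19] at htail
  have e0 : cc y y y (0, 0) * st H f (0, 0) = 1 := by
    rw [st_zero H f hf]; simp [cc]
  have e1 : ∑ k ∈ S1, cc y y y k * st H f k = h * ∑ k ∈ S1, st H f k := by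
    rw [Finset.mul_sum]
    exact Finset.sum_congr rfl fun k hk => by rw [hex_S1 y k hk, hh]
  have e3 : ∑ k ∈ S3, cc y y y k * st H f k = h ^ 3 * ∑ k ∈ S3, st H f k := by
    rw [Finset.mul_sum]
    exact Finset.sum_congr rfl fun k hk => by rw [hex_S3 y k hk, hh]
  have e4 : ∑ k ∈ S4, cc y y y k * st H f k = h ^ 4 * ∑ k ∈ S4, st H f k := by
    rw [Finset.mul_sum]
    exact Finset.sum_congr rfl fun k hk => by rw [hex_S4 y k hk, hh]
  rw [e0, e1, e3, e4] at htail
  have e7 : Real.exp (-(7 * (2 * y))) = h ^ 7 := by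
    rw [hh, ← Real.exp_nat_mul]; congr 1; push_cast; ring
  rw [e7, one_mul] at htail
  have b3 := abs_le.1 (sum_card_bound S3 (by decide) (st H f) hw1)
  have b4 := abs_le.1 (sum_card_bound S4 (by decide) (st H f) hw1)
  have t := abs_le.1 htail
  have h3 : 0 < h ^ 3 := by positivity
  have h4 : 0 < h ^ 4 := by positivity
  rw [abs_le]
  constructor <;> nlinarith [b3.1, b3.2, b4.1, b4.2, t.1, t.2]

lemma hex_line (hH : 0 < H.det) (hwH : ∀ k, wt H k = cc y y y k) (hy : 0 < y)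
    (h : ℝ) (hh : h = Real.exp (-(2 * y))) :
    aval H ≤ 1 - 2 * h + 2 * h ^ 4 / (1 - h) ∧ 1 + 2 * h ≤ bval H := by
  have hQ : Real.pi / 2 * Qf H (1, 0) = 2 * y := by
    have := hwH (1, 0)
    rw [cc_hex] at this
    unfold wt at this
    have h2 := Real.exp_injective this
    simp [Nf] at h2
    linarith
  constructor
  · have h1 := (line_test H hH Real.pi).1
    rw [hQ] at h1
    exact h1.trans (F1_pi_upper (2 * y) (by linarith) h hh)
  · have h1 := (line_test H hH 0).2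
    rw [hQ] at h1
    refine le_trans ?_ h1
    rw [hh]
    exact F1_zero_lower (2 * y) (by linarith)

end

lemma num_h (y : ℝ) (hy : 1.8136 ≤ y) : Real.exp (-(2 * y)) ≤ 0.0266 := by
  have h1 : Real.exp (-(2 * y)) ≤ Real.exp (-3.6272) := by
    rw [Real.exp_le_exp]; linarith
  refine h1.trans ?_
  rw [Real.exp_neg, inv_le_comm₀ (Real.exp_pos _) (by norm_num)]
  have h2 : (3.6272 : ℝ) = (16 : ℕ) * 0.2267 := by norm_num
  rw [h2, Real.exp_nat_mul]
  have h3 : (1 + 0.2267 + 0.2267 ^ 2 / 2 + 0.2267 ^ 3 / 6 + 0.2267 ^ 4 / 24 : ℝ)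
      ≤ Real.exp 0.2267 := by
    have := Real.sum_le_exp_of_nonneg (x := 0.2267) (by norm_num) 5
    simp only [Finset.sum_range_succ, Finset.sum_range_zero] at this
    norm_num [Nat.factorial] at this ⊢
    linarith
  calc (0.0266 : ℝ)⁻¹ ≤ (1 + 0.2267 + 0.2267 ^ 2 / 2 + 0.2267 ^ 3 / 6 + 0.2267 ^ 4 / 24 : ℝ) ^ 16 := by
        norm_num
    _ ≤ Real.exp 0.2267 ^ 16 := by gcongr

end MP7e122f
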