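import Pool.Agent.Lib.MP_7e122f_an.Compare

open MeasureTheory Complex

namespace MP7e122f

variable {M H : Mat} {A B C y : ℝ}

lemma small_h (h : ℝ) (h0 : 0 < h) (h1 : h ≤ 0.0266) :
    6 * h ^ 3 + 6 * h ^ 4 + 229.4 * h ^ 7 ≤ 0.0044 * h := by
  have h2 : h ^ 2 ≤ 0.0266 ^ 2 := by gcongr
  have h3 : h ^ 3 ≤ 0.0266 ^ 3 := by gcongr
  have h6 : h ^ 6 ≤ 0.0266 ^ 6 := by gcongr
  have : 6 * h ^ 2 + 6 * h ^ 3 + 229.4 * h ^ 6 ≤ 0.0044 := by
    norm_num at h2 h3 h6; linarith
  calc 6 * h ^ 3 + 6 * h ^ 4 + 229.4 * h ^ 7 = (6 * h ^ 2 + 6 * h ^ 3 + 229.4 * h ^ 6) * h := by ring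
    _ ≤ 0.0044 * h := by gcongr

theorem near_compare (hM : 0 < M.det) (hH : H.det = M.det)
    (hwM : ∀ k, wt M k = cc A B C k) (hwH : ∀ k, wt H k = cc y y y k) (hy : 1.8136 ≤ y)
    (K ρ : ℝ) (hK0 : 0 ≤ K) (hρ : 1 / 6 ≤ ρ)
    (hK : ∀ k ∉ F19, |Dk A B C y k| ≤ K * Real.exp (-ρ * Nf k))
    (core : 6 * |D3 A B C y| + 6 * |D4 A B C y| + K * Real.exp (-(7 * ρ)) * 229.4
      < 1.994 * D1 A B C y) :
    aval M < aval H ∧ bval H < bval M := by
  have hH0 : 0 < H.det := hH ▸ hM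
  obtain ⟨h, hh⟩ : ∃ h, h = Real.exp (-(2 * y)) := ⟨_, rfl⟩
  have h0 : 0 < h := hh ▸ Real.exp_pos _
  have h1 : h ≤ 0.0266 := hh ▸ num_h y hy
  have hsm := small_h h h0 h1
  have hline := hex_line hH0 hwH (by linarith) h hh
  have hs := summable_Dk (y := y) hM hH0 hwM hwH
  set T := K * Real.exp (-(7 * ρ)) * 229.4 with hT
  have hT0 : 0 ≤ T := by positivity
  have hD1 : 0 < D1 A B C y := by
    have := abs_nonneg (D3 A B C y)
    have := abs_nonneg (D4 A B C y)
    nlinarith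
  set s0 := 1.994 * D1 A B C y - (6 * |D3 A B C y| + 6 * |D4 A B C y| + T) with hs0
  have hs0pos : 0 < s0 := by linarith
  -- expansion of the difference sum
  have hexp : ∀ f : L2, ‖f‖ = 1 → |∑' k, Dk A B C y k * st H f k
      - D1 A B C y * ∑ k ∈ S1, st H f k| ≤ 6 * |D3 A B C y| + 6 * |D4 A B C y| + T := by
    intro f hf
    have hw1 := abs_st_le H f hf
    have ht := tail_bound (fun k => Dk A B C y k * st H f k) (summable_mul_bdd hs hw1) K ρ hK0 hρ
      (fun k hk => by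
        rw [abs_mul]
        calc |Dk A B C y k| * |st H f k| ≤ |Dk A B C y k| * 1 := by
              gcongr; exact hw1 k
          _ ≤ _ := by rw [mul_one]; exact hK k hk)
    rw [sum_F19, ← hT] at ht
    have e1 : ∑ k ∈ S1, Dk A B C y k * st H f k = D1 A B C y * ∑ k ∈ S1, st H f k := by
      rw [Finset.mul_sum]
      exact Finset.sum_congr rfl fun k hk => by rw [Dk_S1 A B C y k hk]
    have e3 : ∑ k ∈ S3, Dk A B C y k * st H f k = D3 A B C y * ∑ k ∈ S3, st H f k := by
      rw [Finset.mul_sum]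
      exact Finset.sum_congr rfl fun k hk => by rw [Dk_S3 A B C y k hk]
    have e4 : ∑ k ∈ S4, Dk A B C y k * st H f k = D4 A B C y * ∑ k ∈ S4, st H f k := by
      rw [Finset.mul_sum]
      exact Finset.sum_congr rfl fun k hk => by rw [Dk_S4 A B C y k hk]
    rw [e1, e3, e4, Dk_zero, zero_mul, zero_add] at ht
    have b3 : |D3 A B C y * ∑ k ∈ S3, st H f k| ≤ 6 * |D3 A B C y| := by
      rw [abs_mul, mul_comm]
      gcongr
      exact sum_card_bound S3 (by decide) _ hw1
    have b4 : |D4 A B C y * ∑ k ∈ S4, st H f k| ≤ 6 * |D4 A B C y| := by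
      rw [abs_mul, mul_comm]
      gcongr
      exact sum_card_bound S4 (by decide) _ hw1
    have a3 := abs_le.1 b3
    have a4 := abs_le.1 b4
    have at' := abs_le.1 ht
    rw [abs_le]
    constructor <;> linarith [a3.1, a3.2, a4.1, a4.2, at'.1, at'.2]
  set ε := min (0.0015 * h) (s0 / 6) with hε
  have hεpos : 0 < ε := by positivity
  have hε1 : ε ≤ 0.0015 * h := min_le_left _ _
  have hε2 : ε ≤ s0 / 6 := min_le_right _ _
  constructor
  · obtain ⟨f, hf, hfn⟩ := exists_near_aval H ε hεpos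
    have hx := abs_le.1 (hex_expand hH0 hwH (by linarith) f hf h hh)
    have hx2 := hline.1
    have h4 : 2 * h ^ 4 / (1 - h) ≤ 0.0001 * h := by
      rw [div_le_iff₀ (by linarith)]
      have h3 : h ^ 3 ≤ 0.0266 ^ 3 := by gcongr
      have : 2 * h ^ 3 ≤ 0.0001 * (1 - h) := by norm_num at h3; linarith
      calc 2 * h ^ 4 = (2 * h ^ 3) * h := by ring
        _ ≤ 0.0001 * (1 - h) * h := by gcongr
        _ = _ := by ring
    have hW : ∑ k ∈ S1, st H f k ≤ -1.994 := by
      have : h * ∑ k ∈ S1, st H f k ≤ h * (-1.994) := by linarith [hx.1, hx.2]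
      exact le_of_mul_le_mul_left this h0
    have h5 := abs_le.1 (hexp f hf)
    have h6 := (cyc_bound hM hH hwM hwH f hf).1
    have h7 : D1 A B C y * ∑ k ∈ S1, st H f k ≤ D1 A B C y * (-1.994) := by gcongr
    linarith [h5.1, h5.2]
  · obtain ⟨f, hf, hfn⟩ := exists_near_bval H ε hεpos
    have hx := abs_le.1 (hex_expand hH0 hwH (by linarith) f hf h hh)
    have hx2 := hline.2
    have hW : 1.994 ≤ ∑ k ∈ S1, st H f k := by
      have : h * 1.994 ≤ h * ∑ k ∈ S1, st H f k := by linarith [hx.1, hx.2]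
      exact le_of_mul_le_mul_left this h0
    have h5 := abs_le.1 (hexp f hf)
    have h6 := (cyc_bound hM hH hwM hwH f hf).2
    have h7 : D1 A B C y * 1.994 ≤ D1 A B C y * ∑ k ∈ S1, st H f k := by gcongr
    linarith [h5.1, h5.2]

lemma exists_scale (a : ℝ) (ha : 0 < a) (b : ℝ) (hb : 0 < b) :
    ∃ n : ℕ, b ≤ 4 ^ n * a ∧ (n = 0 ∨ 4 ^ n * a < 4 * b) := by
  have h : ∃ n : ℕ, b ≤ 4 ^ n * a := by
    obtain ⟨n, hn⟩ := pow_unbounded_of_one_lt (b / a) (by norm_num : (1 : ℝ) < 4)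
    exact ⟨n, by rw [div_lt_iff₀ ha] at hn; exact hn.le⟩
  classical
  refine ⟨Nat.find h, Nat.find_spec h, ?_⟩
  by_cases h0 : Nat.find h = 0
  · left; exact h0
  · right
    obtain ⟨m, hm⟩ := Nat.exists_eq_succ_of_ne_zero h0
    have := Nat.find_min h (m := m) (by omega)
    push Not at this
    rw [hm, pow_succ]
    linarith

lemma hex_crude (hH : 0 < H.det) (hwH : ∀ k, wt H k = cc y y y k) (hy : 1.8136 ≤ y)
    (h : ℝ) (hh : h = Real.exp (-(2 * y))) :
    1 - 6.0044 * h ≤ aval H ∧ bval H ≤ 1 + 6.0044 * h := by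
  have h0 : 0 < h := hh ▸ Real.exp_pos _
  have h1 : h ≤ 0.0266 := hh ▸ num_h y hy
  have hsm := small_h h h0 h1
  constructor
  · by_contra hlt
    push Not at hlt
    obtain ⟨f, hf, hfn⟩ := exists_near_aval H (1 - 6.0044 * h - aval H) (by linarith)
    have hx := abs_le.1 (hex_expand hH hwH (by linarith) f hf h hh)
    have hb := abs_le.1 (sum_card_bound S1 (by decide) (st H f) (abs_st_le H f hf))
    nlinarith [hx.1, hx.2, hb.1, hb.2]
  · by_contra hlt
    push Not at hlt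
    obtain ⟨f, hf, hfn⟩ := exists_near_bval H (bval H - (1 + 6.0044 * h)) (by linarith)
    have hx := abs_le.1 (hex_expand hH hwH (by linarith) f hf h hh)
    have hb := abs_le.1 (sum_card_bound S1 (by decide) (st H f) (abs_st_le H f hf))
    nlinarith [hx.1, hx.2, hb.1, hb.2]

lemma num_half : 0.6 ≤ Real.exp (-(1 / 2)) ∧ Real.exp (-(1 / 2)) ≤ 0.61 := by
  have h1 := Real.exp_one_gt_d9
  have h2 := Real.exp_one_lt_d9
  have h3 : Real.exp (-(1 / 2)) ^ 2 * Real.exp 1 = 1 := by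
    rw [← Real.exp_nat_mul, ← Real.exp_add]; norm_num
  have h4 := Real.exp_pos (-(1 / 2))
  constructor
  · by_contra h
    push Not at h
    have : Real.exp (-(1 / 2)) ^ 2 ≤ 0.6 ^ 2 := by gcongr
    nlinarith
  · by_contra h
    push Not at h
    have : (0.61 : ℝ) ^ 2 ≤ Real.exp (-(1 / 2)) ^ 2 := by gcongr
    nlinarith

theorem far_compare (hM : 0 < M.det) (hH : H.det = M.det)
    (hwM : ∀ k, wt M k = cc A B C k) (hwH : ∀ k, wt H k = cc y y y k) (hy : 1.8136 ≤ y)
    (hAC : 0 < A + C)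
    (hfar : 3.02 * Real.exp (-(2 * y)) ≤ Real.exp (-(A + C))) :
    aval M < aval H ∧ bval H < bval M := by
  have hH0 : 0 < H.det := hH ▸ hM
  obtain ⟨h, hh⟩ : ∃ h, h = Real.exp (-(2 * y)) := ⟨_, rfl⟩
  have h0 : 0 < h := hh ▸ Real.exp_pos _
  have h1 : h ≤ 0.0266 := hh ▸ num_h y hy
  have hcr := hex_crude hH0 hwH hy h hh
  rw [← hh] at hfar
  have hQ : Real.pi / 2 * Qf M (1, 0) = A + C := by
    have := hwM (1, 0)
    unfold wt cc at this
    have h2 := Real.exp_injective this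
    norm_num at h2
    linarith
  have hline : ∀ θ, aval M ≤ F1 (A + C) θ ∧ F1 (A + C) θ ≤ bval M := by
    intro θ
    have := line_test M hM θ
    rwa [hQ] at this
  constructor
  · refine lt_of_lt_of_le ?_ hcr.1
    obtain ⟨n, hn1, hn2⟩ := exists_scale (A + C) hAC (1 / 2) (by norm_num)
    obtain ⟨θ, hθ⟩ := exists_dup_pow n (A + C) hAC Real.pi
    have hb := F1_pi_upper (4 ^ n * (A + C)) (by positivity) _ rfl
    set X := Real.exp (-(4 ^ n * (A + C))) with hX
    have hX0 : 0 < X := Real.exp_pos _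
    have hX1 : X ≤ 0.61 := by
      refine le_trans ?_ num_half.2
      rw [hX, Real.exp_le_exp]; linarith
    have hXlow : 3.02 * h ≤ X := by
      rcases hn2 with rfl | hn2
      · rw [hX]; simpa using hfar
      · have : Real.exp (-(1 / 2)) ^ 4 ≤ X := by
          rw [hX, ← Real.exp_nat_mul, Real.exp_le_exp]; push_cast; linarith
        have h6 : (0.6 : ℝ) ^ 4 ≤ Real.exp (-(1 / 2)) ^ 4 := by
          gcongr; exact num_half.1
        norm_num at h6 h1 ⊢
        linarith
    have key : 6.0044 * h < 2 * X - 2 * X ^ 4 / (1 - X) := by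
      have e : 2 * X - 2 * X ^ 4 / (1 - X) = 2 * X * (1 - X ^ 3 / (1 - X)) := by
        have : 1 - X ≠ 0 := by linarith
        field_simp
      rw [e]
      by_cases c1 : X ≤ 0.13
      · have : X ^ 3 / (1 - X) ≤ 0.0026 := by
          rw [div_le_iff₀ (by linarith)]
          have : X ^ 3 ≤ 0.13 ^ 3 := by gcongr
          norm_num at this ⊢; linarith
        nlinarith
      · push Not at c1
        by_cases c2 : X ≤ 0.4
        · have : X ^ 3 / (1 - X) ≤ 0.11 := by
            rw [div_le_iff₀ (by linarith)]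
            have : X ^ 3 ≤ 0.4 ^ 3 := by gcongr
            norm_num at this ⊢; linarith
          nlinarith
        · push Not at c2
          have : X ^ 3 / (1 - X) ≤ 0.59 := by
            rw [div_le_iff₀ (by linarith)]
            have : X ^ 3 ≤ 0.61 ^ 3 := by gcongr
            norm_num at this ⊢; linarith
          nlinarith
    have := (hline θ).1
    linarith
  · refine lt_of_le_of_lt hcr.2 ?_
    have h2 := (hline 0).2
    have h3 := F1_zero_lower (A + C) hAC
    linarith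

end MP7e122f
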