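import Mathlib

namespace MP7e122f

/-- a configuration in the near regime, sorted -/
structure Cfg (y a b c : ℝ) : Prop where
  hy : 1.8136 ≤ y
  hc : 2 * y * (a + b + c) + (a * b + b * c + c * a) = 0
  hab : b ≤ a
  hbc : c ≤ b
  hcy : -y ≤ c
  near : Real.exp (-(b + c)) ≤ 3.02

lemma exp_lower (x : ℝ) (hx : 0 ≤ x) (n : ℕ) (hn : 0 < n) :
    (1 + x / n + (x / n) ^ 2 / 2 + (x / n) ^ 3 / 6 + (x / n) ^ 4 / 24) ^ n ≤ Real.exp x := by
  have hn' : (0 : ℝ) < n := by exact_mod_cast hn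
  have h1 := Real.sum_le_exp_of_nonneg (x := x / n) (by positivity) 5
  simp only [Finset.sum_range_succ, Finset.sum_range_zero] at h1
  norm_num [Nat.factorial] at h1
  have h2 : Real.exp x = Real.exp (x / n) ^ n := by
    rw [← Real.exp_nat_mul]; congr 1; field_simp
  rw [h2]
  gcongr

lemma exp_upper_neg (x q : ℝ) (hx : 0 ≤ x) (n : ℕ) (hn : 0 < n) (hq : 0 < q)
    (h : q⁻¹ ≤ (1 + x / n + (x / n) ^ 2 / 2 + (x / n) ^ 3 / 6 + (x / n) ^ 4 / 24) ^ n) :
    Real.exp (-x) ≤ q := by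
  rw [Real.exp_neg, inv_le_comm₀ (Real.exp_pos _) hq]
  exact h.trans (exp_lower x hx n hn)

namespace Cfg

variable {y a b c : ℝ}

lemma S_nonneg (C : Cfg y a b c) : 0 ≤ a + b + c := by
  by_contra h
  push Not at h
  have h1 := C.hc
  have h2 := C.hcy
  have h3 := C.hbc
  have h4 := C.hab
  have hy := C.hy
  have h5 : (a + b + c) ^ 2 + 4 * y * (a + b + c) = a ^ 2 + b ^ 2 + c ^ 2 := by nlinarith
  have h6 : 0 ≤ (a + b + c) * ((a + b + c) + 4 * y) := by nlinarith [sq_nonneg a, sq_nonneg b, sq_nonneg c]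
  nlinarith

lemma c_nonpos (C : Cfg y a b c) : c ≤ 0 := by
  by_contra h
  push Not at h
  have h1 := C.hc
  have hy := C.hy
  have hb : 0 < b := lt_of_lt_of_le h C.hbc
  have ha : 0 < a := lt_of_lt_of_le hb C.hab
  have : 0 < 2 * y * (a + b + c) := by positivity
  have : 0 < a * b + b * c + c * a := by positivity
  linarith

lemma bc_nonpos (C : Cfg y a b c) : b + c ≤ 0 := by
  by_contra h
  push Not at h
  have h1 := C.hc
  have hy := C.hy
  have hc0 := C.c_nonpos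
  have hcy := C.hcy
  have hb : 0 < b := by linarith
  have ha : 0 < a := lt_of_lt_of_le hb C.hab
  have h2 : 0 < a * (b + c) := by positivity
  have h3 : 2 * y * b ≤ 2 * y * a := by nlinarith [C.hab]
  have h4 : 0 < 2 * y * (b + c) := by positivity
  have h5 : -(b * c) ≤ b * y := by nlinarith
  nlinarith

lemma u_nonneg (C : Cfg y a b c) : 0 ≤ a + b := by
  linarith [C.S_nonneg, C.c_nonpos]

lemma idS (C : Cfg y a b c) :
    4 * (2 * y + (a + b)) * (a + b + c) = 3 * (a + b) ^ 2 + (a - b) ^ 2 := by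
  linear_combination 4 * C.hc

lemma idM (C : Cfg y a b c) :
    4 * (2 * y + (a + b)) * (-c - (a + b) / 2) = (a + b) * (4 * y - (a + b)) - (a - b) ^ 2 := by
  linear_combination (-4) * C.hc

lemma idE (C : Cfg y a b c) :
    (2 * y + (a + b)) * (4 * y + (a + b + c) + 3 * c) =
      8 * y ^ 2 - 2 * y * (a + b) + (a - b) ^ 2 := by
  linear_combination 4 * C.hc

lemma t_le (C : Cfg y a b c) : -(b + c) ≤ 1.106 := by
  by_contra h
  push Not at h
  have h1 : Real.exp 1.106 < Real.exp (-(b + c)) := Real.exp_lt_exp.2 h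
  have h2 := exp_lower 1.106 (by norm_num) 4 (by norm_num)
  have h3 : (3.02 : ℝ) < (1 + 1.106 / (4 : ℕ) + (1.106 / (4 : ℕ)) ^ 2 / 2 + (1.106 / (4 : ℕ)) ^ 3 / 6
    + (1.106 / (4 : ℕ)) ^ 4 / 24) ^ 4 := by norm_num
  linarith [C.near]

lemma D_le (C : Cfg y a b c) : a - b ≤ 2.03 := by
  have h1 := C.hc
  have hy := C.hy
  have ht1 := C.t_le
  have ht0 : 0 ≤ -(b + c) := by linarith [C.bc_nonpos]
  have hcy := C.hcy
  have hbc := C.hbc
  obtain ⟨t, ht⟩ : ∃ t, t = -(b + c) := ⟨_, rfl⟩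
  have hc : c = -t - b := by linarith
  subst hc
  rw [← ht] at ht1 ht0
  -- a (2y - t) = 2 y t + b² + t b
  have ha : a * (2 * y - t) = 2 * y * t + b ^ 2 + t * b := by nlinarith
  have hpos : 0 < 2 * y - t := by linarith
  have hD : (a - b) * (2 * y - t) ≤ 0.75 * t * (4 * y - t) := by
    have h2 : (b + t / 2) * (b + 3 / 2 * t - 2 * y) ≤ 0 := by
      apply mul_nonpos_of_nonneg_of_nonpos
      · linarith
      · linarith
    nlinarith
  have h3 : 0.75 * t * (4 * y - t) ≤ 2.03 * (2 * y - t) := by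
    nlinarith [mul_nonneg ht0 (sub_nonneg.2 hy), mul_nonneg ht0 (sub_nonneg.2 ht1)]
  by_contra h
  push Not at h
  nlinarith

end Cfg

end MP7e122f
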