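import Pool.Agent.Lib.MP_7e122f_an.Core

namespace MP7e122f

lemma two_cosh (x : ℝ) (hx : 0 ≤ x) : 2 + x ^ 2 ≤ Real.exp x + Real.exp (-x) := by
  have h1 : Real.exp x + Real.exp (-x) = 2 * Real.cosh x := by
    rw [Real.cosh_eq]; ring
  have h2 : Real.cosh x = Real.cosh (x / 2) ^ 2 + Real.sinh (x / 2) ^ 2 := by
    rw [← Real.cosh_two_mul]; congr 1; ring
  have h3 := Real.cosh_sq (x / 2)
  have h4 : x / 2 ≤ Real.sinh (x / 2) := Real.self_le_sinh_iff.2 (by positivity)
  rw [h1, h2, h3]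
  nlinarith

lemma exp_quad_pos (x : ℝ) (hx : 0 ≤ x) :
    Real.exp x - 1 - x ≤ x ^ 2 * (2 + Real.exp x) / 6 := by
  have hs : HasSum (fun n : ℕ => x ^ n / n.factorial) (Real.exp x) := by
    have := NormedSpace.expSeries_div_hasSum_exp x
    rwa [← Real.exp_eq_exp_ℝ] at this
  have h1 : HasSum (fun n : ℕ => x ^ (n + 2) / (n + 2).factorial) (Real.exp x - 1 - x) := by
    have := (hasSum_nat_add_iff' 2).2 hs
    simpa [Finset.sum_range_succ, sub_sub] using this
  have h2 : HasSum (fun n : ℕ => x ^ 2 / 6 * (x ^ n / n.factorial)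
      + if n = 0 then x ^ 2 / 3 else 0) (x ^ 2 / 6 * Real.exp x + x ^ 2 / 3) := by
    apply (hs.mul_left (x ^ 2 / 6)).add
    have := hasSum_ite_eq (0 : ℕ) (x ^ 2 / 3)
    exact this
  have h3 := hasSum_le (fun n => ?_) h1 h2
  · linarith
  · rcases Nat.eq_zero_or_pos n with rfl | hn
    · simp
      linarith
    · have hn0 : n ≠ 0 := by omega
      rw [if_neg hn0, add_zero]
      have hf : ((n + 2).factorial : ℝ) = (n + 2) * (n + 1) * n.factorial := by
        rw [Nat.factorial_succ, Nat.factorial_succ]; push_cast; ring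
      have hnf : (0 : ℝ) < n.factorial := by exact_mod_cast Nat.factorial_pos n
      have hn1 : (1 : ℝ) ≤ n := by exact_mod_cast hn
      have h6 : (6 : ℝ) * n.factorial ≤ (n + 2).factorial := by
        rw [hf]
        have : (6 : ℝ) ≤ (n + 2) * (n + 1) := by nlinarith
        gcongr
      calc x ^ (n + 2) / (n + 2).factorial ≤ x ^ (n + 2) / (6 * n.factorial) := by
            apply div_le_div_of_nonneg_left (by positivity) (by positivity) h6
        _ = x ^ 2 / 6 * (x ^ n / n.factorial) := by rw [pow_add]; field_simp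

lemma exp_quad (x E : ℝ) (hE1 : 1 ≤ E) (hE : Real.exp x ≤ E) :
    Real.exp x - 1 - x ≤ x ^ 2 * ((2 + E) / 6) := by
  rcases le_or_gt 0 x with hx | hx
  · have := exp_quad_pos x hx
    nlinarith [sq_nonneg x]
  · have h1 : 1 + (-x) + (-x) ^ 2 / 2 ≤ Real.exp (-x) := Real.quadratic_le_exp_of_nonneg (by linarith)
    have h2 : Real.exp x * Real.exp (-x) = 1 := by rw [← Real.exp_add]; simp
    have h3 := Real.exp_pos x
    have h4 : Real.exp x * (1 - x + x ^ 2 / 2) ≤ 1 := by nlinarith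
    have h5 : Real.exp x ≤ 1 + x + x ^ 2 / 2 := by
      by_contra h
      push Not at h
      have h6 : 0 < 1 - x + x ^ 2 / 2 := by nlinarith [sq_nonneg x]
      nlinarith [mul_lt_mul_of_pos_right h h6, sq_nonneg (x ^ 2)]
    nlinarith [sq_nonneg x]

lemma exp_neg_lower (z : ℝ) (h0 : 0 ≤ z) (h1 : z ≤ 1) :
    1 - z + z ^ 2 / 2 - z ^ 3 / 6 ≤ Real.exp (-z) := by
  have h := Real.exp_bound (x := -z) (by rw [abs_neg, abs_of_nonneg h0]; exact h1) (n := 5)
    (by norm_num)
  simp only [Finset.sum_range_succ, Finset.sum_range_zero] at h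
  rw [abs_neg, abs_of_nonneg h0] at h
  norm_num [Nat.factorial] at h
  have h2 := (abs_le.1 h).1
  have h3 : 0 ≤ z ^ 4 := by positivity
  have h4 : z ^ 5 ≤ z ^ 4 := pow_le_pow_of_le_one h0 h1 (by norm_num)
  nlinarith

namespace Cfg

variable {y a b c : ℝ}

noncomputable def G (a b c : ℝ) : ℝ :=
  Real.exp (-(b + c)) + Real.exp (-(a + c)) + Real.exp (-(a + b)) - 3

noncomputable def P3 (a b c : ℝ) : ℝ :=
  Real.exp (-((a + b + c) + 3 * a)) + Real.exp (-((a + b + c) + 3 * b))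
    + Real.exp (-((a + b + c) + 3 * c)) - 3

noncomputable def P4 (a b c : ℝ) : ℝ :=
  Real.exp (-(4 * (b + c))) + Real.exp (-(4 * (a + c))) + Real.exp (-(4 * (a + b))) - 3

lemma G_lower (C : Cfg y a b c) :
    2 * Real.exp ((a + b) * (4 * y - (a + b)) / (4 * (2 * y + (a + b)))) *
      (1 + 0.02 * (a - b) ^ 2) + Real.exp (-(a + b)) - 3 ≤ G a b c := by
  have hy := C.hy
  have hu := C.u_nonneg
  have hD0 : 0 ≤ a - b := by linarith [C.hab]
  have hD := C.D_le
  have hM := C.idM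
  set u := a + b with hudef
  set D := a - b with hDdef
  have hs : 3.6272 ≤ 2 * y + u := by linarith
  set s := 2 * y + u with hsdef
  have hspos : 0 < s := by linarith
  have hv : -c - u / 2 = u * (4 * y - u) / (4 * s) - D ^ 2 / (4 * s) := by
    rw [← sub_div, ← hM]
    field_simp
  have h1 : Real.exp (-(b + c)) + Real.exp (-(a + c)) =
      Real.exp (-c - u / 2) * (Real.exp (D / 2) + Real.exp (-(D / 2))) := by
    rw [mul_add, ← Real.exp_add, ← Real.exp_add, hudef, hDdef]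
    congr 2 <;> ring
  have h2 : Real.exp (-c - u / 2) = Real.exp (u * (4 * y - u) / (4 * s)) * Real.exp (-(D ^ 2 / (4 * s))) := by
    rw [← Real.exp_add, hv]; congr 1
  have h3 := two_cosh (D / 2) (by positivity)
  have h4 : 1 - D ^ 2 / (4 * s) ≤ Real.exp (-(D ^ 2 / (4 * s))) := by
    have := Real.add_one_le_exp (-(D ^ 2 / (4 * s)))
    linarith
  have hD2 : D ^ 2 ≤ 4.1209 := by nlinarith
  have hD2s : D ^ 2 / (4 * s) ≤ 0.29 := by
    rw [div_le_iff₀ (by positivity)]; nlinarith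
  have h5 : 2 * (1 + 0.02 * D ^ 2) ≤ (1 - D ^ 2 / (4 * s)) * (2 + (D / 2) ^ 2) := by
    have h6 : (1 - D ^ 2 / (4 * s)) * (2 + (D / 2) ^ 2) - 2 * (1 + 0.02 * D ^ 2)
        = D ^ 2 * (0.21 * (16 * s) - 8 - D ^ 2) / (16 * s) := by
      field_simp
      ring
    have h7 : 0 ≤ D ^ 2 * (0.21 * (16 * s) - 8 - D ^ 2) / (16 * s) := by
      apply div_nonneg _ (by positivity)
      apply mul_nonneg (sq_nonneg _)
      linarith
    linarith
  have h8 : 2 * (1 + 0.02 * D ^ 2) ≤
      Real.exp (-(D ^ 2 / (4 * s))) * (Real.exp (D / 2) + Real.exp (-(D / 2))) := by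
    refine h5.trans ?_
    apply mul_le_mul h4 h3 (by positivity) (Real.exp_pos _).le
  have h9 := Real.exp_pos (u * (4 * y - u) / (4 * s))
  unfold G
  rw [h1, h2]
  have h10 := mul_le_mul_of_nonneg_left h8 h9.le
  nlinarith

end Cfg

end MP7e122f
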