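import Pool.Agent.Lib.MP_7e122f_an.Core2

namespace MP7e122f

lemma exp_lower_at (x z : ℝ) (n : ℕ) (h : x = n * z) (h0 : 0 ≤ z) (h1 : z ≤ 1) :
    (1 - z + z ^ 2 / 2 - z ^ 3 / 6) ^ n ≤ Real.exp (-x) := by
  have h2 := exp_neg_lower z h0 h1
  have h3 : 0 ≤ 1 - z + z ^ 2 / 2 - z ^ 3 / 6 := by nlinarith [mul_nonneg h0 h0, pow_nonneg h0 3]
  have h4 : Real.exp (-x) = Real.exp (-z) ^ n := by
    rw [← Real.exp_nat_mul]; congr 1; rw [h]; ring
  rw [h4]
  gcongr

lemma num1 : 0.3 ≤ Real.exp (-1.2) := by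
  have := exp_lower_at 1.2 0.2 6 (by norm_num) (by norm_num) (by norm_num)
  norm_num at this ⊢; linarith
lemma num2 : 0.201 ≤ Real.exp (-1.6) := by
  have := exp_lower_at 1.6 0.2 8 (by norm_num) (by norm_num) (by norm_num)
  norm_num at this ⊢; linarith
lemma num3 : 0.122 ≤ Real.exp (-2.1) := by
  have := exp_lower_at 2.1 0.1 21 (by norm_num) (by norm_num) (by norm_num)
  norm_num at this ⊢; linarith
lemma num4 : 0.0704 ≤ Real.exp (-2.65) := by
  have := exp_lower_at 2.65 0.1325 20 (by norm_num) (by norm_num) (by norm_num)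
  norm_num at this ⊢; linarith
lemma num4' : Real.exp (-2.65) ≤ 0.0707 := by
  apply exp_upper_neg 2.65 0.0707 (by norm_num) 8 (by norm_num) (by norm_num)
  norm_num

lemma num5 : 1.4006 ≤ Real.exp 0.337 := by
  have := exp_lower 0.337 (by norm_num) 1 (by norm_num)
  norm_num at this ⊢; linarith
lemma num6 : 1.4563 ≤ Real.exp 0.376 := by
  have := exp_lower 0.376 (by norm_num) 1 (by norm_num)
  norm_num at this ⊢; linarith
lemma num7 : 1.5401 ≤ Real.exp 0.432 := by
  have := exp_lower 0.432 (by norm_num) 1 (by norm_num)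
  norm_num at this ⊢; linarith
lemma num8 : 1.5997 ≤ Real.exp 0.47 := by
  have := exp_lower 0.47 (by norm_num) 1 (by norm_num)
  norm_num at this ⊢; linarith

lemma num9 : Real.exp (-4.54) ≤ 0.0108 := by
  apply exp_upper_neg 4.54 0.0108 (by norm_num) 8 (by norm_num) (by norm_num)
  norm_num
lemma num10 : Real.exp (-3.92) ≤ 0.0199 := by
  apply exp_upper_neg 3.92 0.0199 (by norm_num) 8 (by norm_num) (by norm_num)
  norm_num
lemma num11 : Real.exp (-3.26) ≤ 0.0385 := by
  apply exp_upper_neg 3.26 0.0385 (by norm_num) 8 (by norm_num) (by norm_num)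
  norm_num
lemma num12 : Real.exp (-2.66) ≤ 0.07 := by
  apply exp_upper_neg 2.66 0.07 (by norm_num) 8 (by norm_num) (by norm_num)
  norm_num
lemma num13 : Real.exp (-4.9) ≤ 0.00746 := by
  apply exp_upper_neg 4.9 0.00746 (by norm_num) 16 (by norm_num) (by norm_num)
  norm_num
lemma num14 : Real.exp (-10.3375) ≤ 0.0000325 := by
  apply exp_upper_neg 10.3375 0.0000325 (by norm_num) 32 (by norm_num) (by norm_num)
  norm_num
lemma num15 : Real.exp (-13.2997) ≤ 0.00000169 := by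
  apply exp_upper_neg 13.2997 0.00000169 (by norm_num) 32 (by norm_num) (by norm_num)
  norm_num
lemma num16 : Real.exp 2 ≤ 7.39 := by
  have h : Real.exp 2 = Real.exp 1 ^ 2 := by rw [← Real.exp_nat_mul]; norm_num
  have h2 := Real.exp_one_lt_d9
  have h3 := Real.exp_pos 1
  rw [h]
  nlinarith

lemma num_h' (y : ℝ) (hy : 1.8136 ≤ y) : Real.exp (-(2 * y)) ≤ 0.0266 := by
  have h1 : Real.exp (-(2 * y)) ≤ Real.exp (-3.6272) := by
    rw [Real.exp_le_exp]; linarith
  refine h1.trans ?_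
  apply exp_upper_neg 3.6272 0.0266 (by norm_num) 16 (by norm_num) (by norm_num)
  norm_num

namespace Cfg

variable {y a b c : ℝ}

lemma E_id (y a b c : ℝ) : Real.exp (-(2 * y)) ^ 2 * Real.exp (-((a + b + c) + 3 * c))
    = Real.exp (-(4 * y + (a + b + c) + 3 * c)) := by
  rw [← Real.exp_nat_mul, ← Real.exp_add]; congr 1; push_cast; ring

lemma x1_pow (C : Cfg y a b c) : Real.exp (-(4 * (b + c))) ≤ 83.2 := by
  have h : Real.exp (-(4 * (b + c))) = Real.exp (-(b + c)) ^ 4 := by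
    rw [← Real.exp_nat_mul]; congr 1; push_cast; ring
  rw [h]
  calc Real.exp (-(b + c)) ^ 4 ≤ 3.02 ^ 4 := by
        have := C.near
        gcongr
    _ ≤ 83.2 := by norm_num

lemma x2_pow (C : Cfg y a b c) : Real.exp (-(4 * (a + c))) ≤ 83.2 := by
  refine le_trans ?_ C.x1_pow
  rw [Real.exp_le_exp]; linarith [C.hab]

lemma x3_pow (C : Cfg y a b c) : Real.exp (-(4 * (a + b))) ≤ 1 := by
  rw [Real.exp_le_one_iff]; linarith [C.u_nonneg]

lemma E_ge (C : Cfg y a b c) (e u₂ : ℝ) (he : 0 ≤ e) (hu : a + b ≤ u₂) (hu2 : u₂ ≤ 3) (he5 : e ≤ 5)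
    (h : e * (3.6272 + u₂) ≤ 8 * 1.8136 ^ 2 - 3.6272 * u₂) :
    e ≤ 4 * y + (a + b + c) + 3 * c := by
  have hid := C.idE
  have hy := C.hy
  have hu0 := C.u_nonneg
  have hs : 0 < 2 * y + (a + b) := by linarith
  have h1 : e * (2 * y + (a + b)) ≤ 8 * y ^ 2 - 2 * y * (a + b) := by
    have h2 : e * (2 * y + (a + b)) ≤ e * (2 * y + u₂) := by gcongr
    have h3 : 8 * y ^ 2 - 2 * y * u₂ ≤ 8 * y ^ 2 - 2 * y * (a + b) := by nlinarith
    nlinarith
  have h4 : (2 * y + (a + b)) * e ≤ (2 * y + (a + b)) * (4 * y + (a + b + c) + 3 * c) := by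
    rw [hid]; nlinarith [sq_nonneg (a - b)]
  exact le_of_mul_le_mul_left h4 hs

/-- the sum of the error terms in case II -/
lemma err_II (C : Cfg y a b c) (hu : 1 ≤ a + b) :
    6 * Real.exp (-(2 * y)) ^ 2 * |P3 a b c| + 6 * Real.exp (-(2 * y)) ^ 3 * |P4 a b c|
      + 688.2 * Real.exp (-(5.7 * y)) ≤
    6 * Real.exp (-(4 * y + (a + b + c) + 3 * c)) + 0.064 := by
  have hy := C.hy
  obtain ⟨h, hh⟩ : ∃ h, h = Real.exp (-(2 * y)) := ⟨_, rfl⟩
  have h0 : 0 < h := hh ▸ Real.exp_pos _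
  have h1 : h ≤ 0.0266 := hh ▸ num_h' y hy
  have hE := E_id y a b c
  rw [← hh] at hE ⊢
  have h2 : h ^ 2 ≤ 0.0266 ^ 2 := by gcongr
  have h3 : h ^ 3 ≤ 0.0266 ^ 3 := by gcongr
  have hD := C.D_le
  have hS := C.S_nonneg
  have q1 : Real.exp (-((a + b + c) + 3 * a)) ≤ 1 := by
    rw [Real.exp_le_one_iff]
    have : 0 ≤ a := by linarith [C.hab]
    linarith
  have q2 : Real.exp (-((a + b + c) + 3 * b)) ≤ 7.39 := by
    refine le_trans ?_ num16
    rw [Real.exp_le_exp]; linarith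
  have q3 := Real.exp_pos (-((a + b + c) + 3 * c))
  have q1' := Real.exp_pos (-((a + b + c) + 3 * a))
  have q2' := Real.exp_pos (-((a + b + c) + 3 * b))
  have hP3 : |P3 a b c| ≤ Real.exp (-((a + b + c) + 3 * c)) + 5.39 := by
    unfold P3
    rw [abs_le]; constructor <;> linarith
  have r1 := C.x1_pow
  have r2 := C.x2_pow
  have r3 := C.x3_pow
  have r1' := Real.exp_pos (-(4 * (b + c)))
  have r2' := Real.exp_pos (-(4 * (a + c)))
  have r3' := Real.exp_pos (-(4 * (a + b)))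
  have hP4 : |P4 a b c| ≤ 164.4 := by
    unfold P4
    rw [abs_le]; constructor <;> linarith
  have ht : Real.exp (-(5.7 * y)) ≤ 0.0000325 := by
    refine le_trans ?_ num14
    rw [Real.exp_le_exp]; linarith
  have e1 : 6 * h ^ 2 * |P3 a b c| ≤ 6 * Real.exp (-(4 * y + (a + b + c) + 3 * c)) + 6 * h ^ 2 * 5.39 := by
    rw [← hE]
    calc 6 * h ^ 2 * |P3 a b c| ≤ 6 * h ^ 2 * (Real.exp (-((a + b + c) + 3 * c)) + 5.39) := by gcongr
      _ = _ := by ring
  have e2 : 6 * h ^ 3 * |P4 a b c| ≤ 6 * h ^ 3 * 164.4 := by gcongr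
  norm_num at h2 h3
  linarith

lemma M_ge (C : Cfg y a b c) (m : ℝ)
    (h : 4 * m * (2 * y + (a + b)) ≤ (a + b) * (4 * y - (a + b))) :
    2 * Real.exp m + Real.exp (-(a + b)) - 3 ≤ G a b c := by
  have h1 := C.G_lower
  have hs : 0 < 2 * y + (a + b) := by linarith [C.hy, C.u_nonneg]
  have h2 : m ≤ (a + b) * (4 * y - (a + b)) / (4 * (2 * y + (a + b))) := by
    rw [le_div_iff₀ (by positivity)]; linarith
  have h3 := Real.exp_le_exp.2 h2
  have h4 := Real.exp_pos ((a + b) * (4 * y - (a + b)) / (4 * (2 * y + (a + b))))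
  nlinarith [sq_nonneg (a - b)]

lemma u_constraint (C : Cfg y a b c) :
    (a + b) ^ 2 + 4 * y * (a + b) - 8 * y ^ 2 ≤ 4.1209 := by
  have hM := C.idM
  have hcy := C.hcy
  have hD := C.D_le
  have hD0 : 0 ≤ a - b := by linarith [C.hab]
  have hs : 0 < 2 * y + (a + b) := by linarith [C.hy, C.u_nonneg]
  have h1 : 4 * (2 * y + (a + b)) * (-c - (a + b) / 2) ≤ 4 * (2 * y + (a + b)) * (y - (a + b) / 2) := by
    gcongr; linarith
  nlinarith

theorem core_II (C : Cfg y a b c) (hu : 1 ≤ a + b) :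
    6 * Real.exp (-(2 * y)) ^ 2 * |P3 a b c| + 6 * Real.exp (-(2 * y)) ^ 3 * |P4 a b c|
      + 688.2 * Real.exp (-(5.7 * y)) < 1.994 * G a b c := by
  have herr := C.err_II hu
  have hy := C.hy
  refine lt_of_le_of_lt herr ?_
  by_cases c1 : a + b ≤ 1.2
  · have hM := C.M_ge 0.337 (by nlinarith)
    have hE := C.E_ge 4.54 1.2 (by norm_num) c1 (by norm_num) (by norm_num) (by norm_num)
    have e1 : Real.exp (-(4 * y + (a + b + c) + 3 * c)) ≤ 0.0108 := by
      refine le_trans (Real.exp_le_exp.2 ?_) num9; linarith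
    have e2 : 0.3 ≤ Real.exp (-(a + b)) := le_trans num1 (Real.exp_le_exp.2 (by linarith))
    linarith [num5]
  push Not at c1
  by_cases c2 : a + b ≤ 1.6
  · have hM := C.M_ge 0.376 (by nlinarith)
    have hE := C.E_ge 3.92 1.6 (by norm_num) c2 (by norm_num) (by norm_num) (by norm_num)
    have e1 : Real.exp (-(4 * y + (a + b + c) + 3 * c)) ≤ 0.0199 := by
      refine le_trans (Real.exp_le_exp.2 ?_) num10; linarith
    have e2 : 0.201 ≤ Real.exp (-(a + b)) := le_trans num2 (Real.exp_le_exp.2 (by linarith))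
    linarith [num6]
  push Not at c2
  by_cases c3 : a + b ≤ 2.1
  · have hM := C.M_ge 0.432 (by nlinarith)
    have hE := C.E_ge 3.26 2.1 (by norm_num) c3 (by norm_num) (by norm_num) (by norm_num)
    have e1 : Real.exp (-(4 * y + (a + b + c) + 3 * c)) ≤ 0.0385 := by
      refine le_trans (Real.exp_le_exp.2 ?_) num11; linarith
    have e2 : 0.122 ≤ Real.exp (-(a + b)) := le_trans num3 (Real.exp_le_exp.2 (by linarith))
    linarith [num7]
  push Not at c3
  have hcon := C.u_constraint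
  have hM := C.M_ge 0.47 (by
    by_cases c4 : a + b ≤ 3
    · nlinarith
    · push Not at c4
      have h1 : 0.61 * (a + b) ≤ y := by
        by_contra hlt
        push Not at hlt
        nlinarith
      nlinarith)
  by_cases c4 : a + b ≤ 2.65
  · have hE := C.E_ge 2.66 2.65 (by norm_num) c4 (by norm_num) (by norm_num) (by norm_num)
    have e1 : Real.exp (-(4 * y + (a + b + c) + 3 * c)) ≤ 0.07 := by
      refine le_trans (Real.exp_le_exp.2 ?_) num12; linarith
    have e2 : 0.0704 ≤ Real.exp (-(a + b)) := le_trans num4 (Real.exp_le_exp.2 (by linarith))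
    linarith [num8]
  · push Not at c4
    have hcy := C.hcy
    have e1 : Real.exp (-(4 * y + (a + b + c) + 3 * c)) ≤ Real.exp (-(a + b)) := by
      rw [Real.exp_le_exp]; linarith
    have e2 : Real.exp (-(a + b)) ≤ 0.0707 := le_trans (Real.exp_le_exp.2 (by linarith)) num4'
    linarith [num8]

end Cfg

end MP7e122f
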