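import Pool.Agent.Lib.MP_7e122f_an.Core3

namespace MP7e122f

namespace Cfg

variable {y a b c : ℝ}

lemma SZ (C : Cfg y a b c) : (a + b + c) * ((a + b + c) + 2 * y) ≤
    (3 * (a + b) ^ 2 + (a - b) ^ 2) / 4 := by
  have h1 := C.idS
  have h2 := C.S_nonneg
  have h3 := C.c_nonpos
  nlinarith

lemma SZ' (C : Cfg y a b c) : 3.6272 * (a + b + c) ≤
    (3 * (a + b) ^ 2 + (a - b) ^ 2) / 4 := by
  have h1 := C.idS
  have h2 := C.S_nonneg
  have h3 := C.u_nonneg
  have hy := C.hy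
  nlinarith

lemma P3_bound (C : Cfg y a b c) : |P3 a b c| ≤
    3 * (3 + Real.exp (-((a + b + c) + 3 * c))) * ((3 * (a + b) ^ 2 + (a - b) ^ 2) / 4) := by
  have hZ := C.SZ
  have hZ' := C.SZ'
  have hS := C.S_nonneg
  set Z := (3 * (a + b) ^ 2 + (a - b) ^ 2) / 4 with hZdef
  have hZ0 : 0 ≤ Z := by positivity
  set X := Real.exp (-((a + b + c) + 3 * c)) with hX
  have hX0 : 0 < X := Real.exp_pos _
  have k1 : Real.exp (-((a + b + c) + 3 * a)) ≤ 1 + X := by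
    have : Real.exp (-((a + b + c) + 3 * a)) ≤ X := by
      rw [hX, Real.exp_le_exp]; linarith [C.hab, C.hbc]
    linarith
  have k2 : Real.exp (-((a + b + c) + 3 * b)) ≤ 1 + X := by
    have : Real.exp (-((a + b + c) + 3 * b)) ≤ X := by
      rw [hX, Real.exp_le_exp]; linarith [C.hab, C.hbc]
    linarith
  have k3 : Real.exp (-((a + b + c) + 3 * c)) ≤ 1 + X := by linarith
  have q1 := exp_quad _ (1 + X) (by linarith) k1
  have q2 := exp_quad _ (1 + X) (by linarith) k2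
  have q3 := exp_quad _ (1 + X) (by linarith) k3
  have p1 := Real.add_one_le_exp (-((a + b + c) + 3 * a))
  have p2 := Real.add_one_le_exp (-((a + b + c) + 3 * b))
  have p3 := Real.add_one_le_exp (-((a + b + c) + 3 * c))
  have hsq : (-((a + b + c) + 3 * a)) ^ 2 + (-((a + b + c) + 3 * b)) ^ 2
      + (-((a + b + c) + 3 * c)) ^ 2 = 18 * ((a + b + c) * ((a + b + c) + 2 * y)) := by
    linear_combination (-18) * C.hc
  have hup : P3 a b c ≤ 3 * (3 + X) * Z - 6 * (a + b + c) := by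
    have h1 : P3 a b c ≤ ((-((a + b + c) + 3 * a)) ^ 2 + (-((a + b + c) + 3 * b)) ^ 2
      + (-((a + b + c) + 3 * c)) ^ 2) * ((2 + (1 + X)) / 6) - 6 * (a + b + c) := by
      unfold P3; linarith
    rw [hsq] at h1
    have h2 : 18 * ((a + b + c) * ((a + b + c) + 2 * y)) * ((2 + (1 + X)) / 6) ≤
        18 * Z * ((2 + (1 + X)) / 6) := by gcongr
    linarith
  have hlow : -(6 * (a + b + c)) ≤ P3 a b c := by unfold P3; linarith
  rw [abs_le]
  constructor
  · nlinarith [mul_nonneg hX0.le hZ0]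
  · linarith

lemma P4_bound (C : Cfg y a b c) : |P4 a b c| ≤
    459.8 * ((3 * (a + b) ^ 2 + (a - b) ^ 2) / 4) := by
  have hZ := C.SZ
  have hZ' := C.SZ'
  have hS := C.S_nonneg
  set Z := (3 * (a + b) ^ 2 + (a - b) ^ 2) / 4 with hZdef
  have hZ0 : 0 ≤ Z := by positivity
  have q1 := exp_quad _ 83.2 (by norm_num) C.x1_pow
  have q2 := exp_quad _ 83.2 (by norm_num) C.x2_pow
  have q3 := exp_quad _ 83.2 (by norm_num) (C.x3_pow.trans (by norm_num))
  have p1 := Real.add_one_le_exp (-(4 * (b + c)))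
  have p2 := Real.add_one_le_exp (-(4 * (a + c)))
  have p3 := Real.add_one_le_exp (-(4 * (a + b)))
  have hsq : (-(4 * (b + c))) ^ 2 + (-(4 * (a + c))) ^ 2 + (-(4 * (a + b))) ^ 2
      = 32 * ((a + b + c) * ((a + b + c) + 2 * y)) := by
    linear_combination (-32) * C.hc
  have hup : P4 a b c ≤ 459.8 * Z - 8 * (a + b + c) := by
    have h1 : P4 a b c ≤ ((-(4 * (b + c))) ^ 2 + (-(4 * (a + c))) ^ 2 + (-(4 * (a + b))) ^ 2)
      * ((2 + 83.2) / 6) - 8 * (a + b + c) := by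
      unfold P4; linarith
    rw [hsq] at h1
    linarith
  have hlow : -(8 * (a + b + c)) ≤ P4 a b c := by unfold P4; linarith
  rw [abs_le]
  constructor <;> linarith

lemma G_lower_I (C : Cfg y a b c) (hu : a + b ≤ 1) :
    0.12 * (a + b) ^ 2 + 0.04 * (a - b) ^ 2 ≤ G a b c := by
  have hG := C.G_lower
  have hy := C.hy
  have hu0 := C.u_nonneg
  set u := a + b with hudef
  set M := u * (4 * y - u) / (4 * (2 * y + u)) with hM
  have hs : 0 < 2 * y + u := by linarith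
  have hM1 : 0.3379 * u ≤ M := by
    rw [hM, le_div_iff₀ (by positivity)]
    nlinarith
  have hM0 : 0 ≤ M := by nlinarith
  have h1 : 1 + M + M ^ 2 / 2 ≤ Real.exp M := Real.quadratic_le_exp_of_nonneg hM0
  have h2 := exp_neg_lower u hu0 hu
  have hM2 : u ^ 2 * (0.3379 ^ 2) ≤ M ^ 2 := by
    have : (0.3379 * u) ^ 2 ≤ M ^ 2 := by gcongr
    nlinarith
  have hMlin : u - u ^ 2 * (0.4137 - 0.089 * u) ≤ 2 * M := by
    have e : 2 * M = u - u ^ 2 * (1.5 / (2 * y + u)) := by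
      rw [hM]; field_simp; ring
    rw [e]
    have : 1.5 / (2 * y + u) ≤ 0.4137 - 0.089 * u := by
      rw [div_le_iff₀ hs]
      nlinarith
    nlinarith [sq_nonneg u]
  have h3 : 0.12 * u ^ 2 ≤ 2 * Real.exp M + Real.exp (-u) - 3 := by
    nlinarith [sq_nonneg u, pow_nonneg hu0 3]
  have h4 : 1 ≤ Real.exp M := by linarith [sq_nonneg M]
  nlinarith [sq_nonneg (a - b)]

theorem core_I (C : Cfg y a b c) (hu : a + b ≤ 1) (hne : 0 < 3 * (a + b) ^ 2 + (a - b) ^ 2) :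
    6 * Real.exp (-(2 * y)) ^ 2 * |P3 a b c| + 6 * Real.exp (-(2 * y)) ^ 3 * |P4 a b c|
      + 11240.6 * ((a + b + c) * ((a + b + c) + 2 * y)) * Real.exp (-(22 / 3 * y))
      < 1.994 * G a b c := by
  have hy := C.hy
  have hG := C.G_lower_I hu
  have hP3 := C.P3_bound
  have hP4 := C.P4_bound
  have hZ := C.SZ
  have hE := C.E_ge 4.9 1 (by norm_num) hu (by norm_num) (by norm_num) (by norm_num)
  have hE' := E_id y a b c
  obtain ⟨h, hh⟩ : ∃ h, h = Real.exp (-(2 * y)) := ⟨_, rfl⟩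
  have h0 : 0 < h := hh ▸ Real.exp_pos _
  have h1 : h ≤ 0.0266 := hh ▸ num_h' y hy
  rw [← hh] at hE' ⊢
  have e1 : Real.exp (-(4 * y + (a + b + c) + 3 * c)) ≤ 0.00746 := by
    refine le_trans (Real.exp_le_exp.2 ?_) num13; linarith
  have ht : Real.exp (-(22 / 3 * y)) ≤ 0.00000169 := by
    refine le_trans ?_ num15
    rw [Real.exp_le_exp]; linarith
  have h2 : h ^ 2 ≤ 0.0266 ^ 2 := by gcongr
  have h3 : h ^ 3 ≤ 0.0266 ^ 3 := by gcongr
  set Z := (3 * (a + b) ^ 2 + (a - b) ^ 2) / 4 with hZdef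
  have hZ0 : 0 < Z := by positivity
  have a1 : 6 * h ^ 2 * |P3 a b c| ≤ (54 * 0.0266 ^ 2 + 18 * 0.00746) * Z := by
    calc 6 * h ^ 2 * |P3 a b c| ≤ 6 * h ^ 2 * (3 * (3 + Real.exp (-((a + b + c) + 3 * c))) * Z) := by
          gcongr
      _ = (54 * h ^ 2 + 18 * (h ^ 2 * Real.exp (-((a + b + c) + 3 * c)))) * Z := by ring
      _ ≤ (54 * 0.0266 ^ 2 + 18 * 0.00746) * Z := by
          rw [hE']; gcongr
  have a2 : 6 * h ^ 3 * |P4 a b c| ≤ 6 * 0.0266 ^ 3 * 459.8 * Z := by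
    calc 6 * h ^ 3 * |P4 a b c| ≤ 6 * 0.0266 ^ 3 * (459.8 * Z) := by gcongr
      _ = _ := by ring
  have a3 : 11240.6 * ((a + b + c) * ((a + b + c) + 2 * y)) * Real.exp (-(22 / 3 * y)) ≤
      11240.6 * 0.00000169 * Z := by
    have h4 : (a + b + c) * ((a + b + c) + 2 * y) * Real.exp (-(22 / 3 * y)) ≤ Z * 0.00000169 := by
      apply mul_le_mul hZ ht (Real.exp_pos _).le hZ0.le
    linarith
  have h5 : (54 * 0.0266 ^ 2 + 18 * 0.00746) * Z + 6 * 0.0266 ^ 3 * 459.8 * Z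
      + 11240.6 * 0.00000169 * Z ≤ 0.2435 * Z := by nlinarith
  nlinarith

end Cfg

end MP7e122f
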