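import Mathlib

/-!
# Gaussian Gabor frame bounds: definitions used in the statement
-/

namespace MP7e122f

open MeasureTheory
open scoped ENNReal

/-- The Gaussian `g₀(t) = 2^{1/4} e^{-π t²}`. -/
noncomputable def gauss (t : ℝ) : ℂ :=
  (((2 : ℝ) ^ (1 / 4 : ℝ) * Real.exp (-Real.pi * t ^ 2) : ℝ) : ℂ)

/-- The time-frequency shift `π(z)g(t) = e^{2πiωt} g(t - x)`, `z = (x, ω)`. -/
noncomputable def tfShift (z : ℝ × ℝ) (g : ℝ → ℂ) (t : ℝ) : ℂ :=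
  Complex.exp (2 * Real.pi * Complex.I * z.2 * t) * g (t - z.1)

/-- The lattice `M ℤ²` of a real 2×2 matrix `M`. -/
def lattice (M : Matrix (Fin 2) (Fin 2) ℝ) : Set (ℝ × ℝ) :=
  Set.range fun k : ℤ × ℤ => (M 0 0 * k.1 + M 0 1 * k.2, M 1 0 * k.1 + M 1 1 * k.2)

/-- `∑_{z ∈ Λ} |⟨f, π(z) g₀⟩|²`, with values in `[0, ∞]`. -/
noncomputable def frameSum (Λ : Set (ℝ × ℝ)) (f : Lp ℂ 2 (volume : Measure ℝ)) : ℝ≥0∞ :=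
  ∑' z : Λ, ENNReal.ofReal (‖∫ t, f t * (starRingEnd ℂ) (tfShift z gauss t)‖ ^ 2)

/-- All `A` with `A ‖f‖² ≤ ∑_{z ∈ Λ} |⟨f, π(z) g₀⟩|²` for all `f ∈ L²(ℝ)`. -/
def lowerSet (Λ : Set (ℝ × ℝ)) : Set ℝ :=
  {A | ∀ f : Lp ℂ 2 (volume : Measure ℝ), ENNReal.ofReal (A * ‖f‖ ^ 2) ≤ frameSum Λ f}

/-- All `B` with `∑_{z ∈ Λ} |⟨f, π(z) g₀⟩|² ≤ B ‖f‖²` for all `f ∈ L²(ℝ)`. -/
def upperSet (Λ : Set (ℝ × ℝ)) : Set ℝ :=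
  {B | ∀ f : Lp ℂ 2 (volume : Measure ℝ), frameSum Λ f ≤ ENNReal.ofReal (B * ‖f‖ ^ 2)}

/-- The lower frame bound `A_Λ`. -/
noncomputable def lowerBound (Λ : Set (ℝ × ℝ)) : ℝ := sSup (lowerSet Λ)

/-- The upper frame bound `B_Λ`. -/
noncomputable def upperBound (Λ : Set (ℝ × ℝ)) : ℝ := sInf (upperSet Λ)

/-- `Λ` is generated by two nonzero vectors `v, w` of equal length at angle `π/3`
(that is `⟨v, w⟩ = |v|²/2`). -/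
def IsHexagonal (Λ : Set (ℝ × ℝ)) : Prop :=
  ∃ v w : ℝ × ℝ, v ≠ 0 ∧ v.1 ^ 2 + v.2 ^ 2 = w.1 ^ 2 + w.2 ^ 2 ∧
    v.1 * w.1 + v.2 * w.2 = (v.1 ^ 2 + v.2 ^ 2) / 2 ∧
    Λ = Set.range fun k : ℤ × ℤ => (k.1 * v.1 + k.2 * w.1, k.1 * v.2 + k.2 * w.2)

end MP7e122f
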