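import Pool.Agent.Lib.MP_7e122f_an.Ops

open MeasureTheory Complex FourierTransform SchwartzMap
open scoped ComplexInnerProductSpace ENNReal ContDiff

namespace MP7e122f

lemma ae_zero_of_fourier (h : ℝ → ℂ) (hh : Integrable h) (h0 : ∀ w, 𝓕 h w = 0) :
    ∀ᵐ t, h t = 0 := by
  apply ae_eq_zero_of_integral_contDiff_smul_eq_zero hh.locallyIntegrable
  intro g hg hc
  have hg₁ : HasCompactSupport (Complex.ofRealCLM ∘ g) := hc.comp_left rfl
  have hg₂ : ContDiff ℝ ∞ (Complex.ofRealCLM ∘ g) := by fun_prop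
  set G : 𝓢(ℝ, ℂ) := hg₁.toSchwartzMap hg₂ with hG
  set ψ : 𝓢(ℝ, ℂ) := 𝓕⁻ G with hψ
  have h1 : ∫ ξ, (𝓕 ψ) ξ • h ξ = ∫ x, ψ x • 𝓕 h x := by
    simpa using! VectorFourier.integral_fourierIntegral_smul_eq_flip (L := innerₗ ℝ)
      Real.continuous_fourierChar continuous_inner ψ.integrable hh
  have h2 : 𝓕 ψ = G := FourierTransform.fourier_fourierInv_eq G
  rw [h2] at h1
  simp only [h0, smul_zero, integral_zero] at h1
  rw [← h1]
  congr 1

/-- the span of the time-frequency shifts of the standard Gaussian -/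
noncomputable def gspan : Submodule ℂ L2 := Submodule.span ℂ (Set.range (gv 1 0 one_pos))

lemma dense_gspan : Dense (gspan : Set L2) := by
  rw [Submodule.dense_iff_topologicalClosure_eq_top, Submodule.topologicalClosure_eq_top_iff,
    Submodule.eq_bot_iff]
  intro f hf
  rw [Submodule.mem_orthogonal] at hf
  have h0 : ∀ w : ℝ, ⟪gv 1 0 one_pos (0, w), f⟫ = 0 := fun w =>
    hf _ (Submodule.subset_span ⟨_, rfl⟩)
  -- the function
  set h : ℝ → ℂ := fun t => ((Real.exp (-Real.pi * t ^ 2) : ℝ) : ℂ) * f t with hh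
  have hint : Integrable h := by
    have h1 : MemLp (fun t : ℝ => ((Real.exp (-Real.pi * t ^ 2) : ℝ) : ℂ)) 2 volume := by
      rw [memLp_two_iff_integrable_sq_norm]
      · have := integrable_exp_neg_mul_sq (b := 2 * Real.pi) (by positivity)
        refine this.congr (Filter.Eventually.of_forall fun t => ?_)
        simp only
        rw [Complex.norm_real, Real.norm_eq_abs, abs_of_pos (Real.exp_pos _), ← Real.exp_nat_mul]
        congr 1; push_cast; ring
      · exact Continuous.aestronglyMeasurable (by fun_prop)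
    have h2 := Lp.memLp f
    have := h1.integrable_mul h2
    exact this
  have hF : ∀ w, 𝓕 h w = 0 := by
    intro w
    have h1 := h0 w
    rw [L2.inner_def] at h1
    have h2 : ∫ t, ⟪(gv 1 0 one_pos (0, w) : ℝ → ℂ) t, f t⟫ =
        (((2 * 1 : ℝ) ^ (1 / 4 : ℝ) : ℝ) : ℂ) * 𝓕 h w := by
      rw [Real.fourier_eq', ← integral_const_mul]
      apply integral_congr_ae
      filter_upwards [(memLp_phi 1 0 one_pos (0, w)).coeFn_toLp] with t a
      have a' : (gv 1 0 one_pos (0, w) : ℝ → ℂ) t = phi 1 0 (0, w) t := a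
      rw [a', RCLike.inner_apply, hh]
      unfold phi
      simp only [map_mul, ← Complex.exp_conj, Complex.conj_ofReal, smul_eq_mul]
      rw [Complex.ofReal_exp]
      rw [show ∀ a b c d : ℂ, a * (b * c * d) = b * (c * (d * a)) from fun a b c d => by ring]
      congr 1
      congr 1
      · congr 1
        simp [Complex.conj_ofReal, map_ofNat]
        ring
      · congr 1
        congr 1
        simp [Complex.conj_ofReal]
    rw [h2] at h1
    have h3 : (((2 * 1 : ℝ) ^ (1 / 4 : ℝ) : ℝ) : ℂ) ≠ 0 := by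
      exact_mod_cast (Real.rpow_pos_of_pos (by norm_num) _).ne'
    exact (mul_eq_zero.1 h1).resolve_left h3
  have := ae_zero_of_fourier h hint hF
  rw [Lp.eq_zero_iff_ae_eq_zero]
  filter_upwards [this] with t ht
  have h4 : ((Real.exp (-Real.pi * t ^ 2) : ℝ) : ℂ) ≠ 0 := by
    exact_mod_cast (Real.exp_pos _).ne'
  exact (mul_eq_zero.1 ht).resolve_left h4

end MP7e122f
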