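import Mathlib

open Complex

namespace MP7e122f

lemma summable_one (c u : ℝ) (hc : 0 < c) :
    Summable fun n : ℤ => Real.exp (-c * n ^ 2 + u * n) := by
  have h := (summable_jacobiTheta₂_term_iff (u / (2 * Real.pi * I)) (I * (c / Real.pi : ℝ))).2
    (by
      simp
      have := Real.pi_pos
      positivity)
  have h2 := h.norm
  refine h2.congr fun n => ?_
  unfold jacobiTheta₂_term
  rw [Complex.norm_exp]
  congr 1
  have hpi : (Real.pi : ℂ) ≠ 0 := by exact_mod_cast Real.pi_ne_zero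
  have : (2 * Real.pi * I * n * (u / (2 * Real.pi * I)) + Real.pi * I * n ^ 2 * (I * (c / Real.pi : ℝ)) : ℂ)
      = ((-c * n ^ 2 + u * n : ℝ) : ℂ) := by
    push_cast
    field_simp
    simp only [Complex.I_sq]
    ring
  rw [this, Complex.ofReal_re]

lemma quad_lower (A B C : ℝ) (hA : 0 < A) (hD : 0 < A * C - B ^ 2) :
    ∃ c : ℝ, 0 < c ∧ ∀ x y : ℝ, c * (x ^ 2 + y ^ 2) ≤ A * x ^ 2 + 2 * B * x * y + C * y ^ 2 := by
  have hC : 0 < C := by
    by_contra h
    push Not at h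
    nlinarith [sq_nonneg B]
  refine ⟨(A * C - B ^ 2) / (A + C), by positivity, fun x y => ?_⟩
  have hs : 0 < A + C := by positivity
  rw [div_mul_eq_mul_div, div_le_iff₀ hs]
  nlinarith [sq_nonneg (A * x + B * y), sq_nonneg (B * x + C * y)]

lemma summable_two (A B C u v : ℝ) (hA : 0 < A) (hD : 0 < A * C - B ^ 2) :
    Summable fun p : ℤ × ℤ => Real.exp (-(A * p.1 ^ 2 + 2 * B * p.1 * p.2 + C * p.2 ^ 2)
      + (u * p.1 + v * p.2)) := by
  obtain ⟨c, hc, h⟩ := quad_lower A B C hA hD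
  have h1 := summable_one c u hc
  have h2 := summable_one c v hc
  have h3 := h1.mul_of_nonneg h2 (fun n => (Real.exp_pos _).le) (fun n => (Real.exp_pos _).le)
  refine Summable.of_nonneg_of_le (fun p => (Real.exp_pos _).le) (fun p => ?_) h3
  rw [← Real.exp_add, Real.exp_le_exp]
  have := h p.1 p.2
  nlinarith

lemma norm_cexp_le_of_re (z : ℂ) : ‖cexp z‖ = Real.exp z.re := Complex.norm_exp z

lemma summable_theta_lhs (A B C : ℝ) (hA : 0 < A) (hD : 0 < A * C - B ^ 2) (u₁ u₂ : ℂ) :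
    Summable fun p : ℤ × ℤ => cexp (-Real.pi * (A * p.1 ^ 2 + 2 * B * p.1 * p.2 + C * p.2 ^ 2)
        + 2 * Real.pi * (u₁ * p.1 + u₂ * p.2)) := by
  have hpi := Real.pi_pos
  apply Summable.of_norm
  have := summable_two (Real.pi * A) (Real.pi * B) (Real.pi * C) (2 * Real.pi * u₁.re)
    (2 * Real.pi * u₂.re) (by positivity) (by
      have : Real.pi * A * (Real.pi * C) - (Real.pi * B) ^ 2 = Real.pi ^ 2 * (A * C - B ^ 2) := by
        ring
      rw [this]; positivity)
  refine this.congr fun p => ?_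
  rw [Complex.norm_exp]
  congr 1
  simp [pow_two]
  ring

theorem theta2 (A B C : ℝ) (hA : 0 < A) (hD : 0 < A * C - B ^ 2) (u₁ u₂ : ℂ) :
    ∑' p : ℤ × ℤ, cexp (-Real.pi * (A * p.1 ^ 2 + 2 * B * p.1 * p.2 + C * p.2 ^ 2)
        + 2 * Real.pi * (u₁ * p.1 + u₂ * p.2)) =
      (1 / Real.sqrt (A * C - B ^ 2) : ℝ) *
      ∑' p : ℤ × ℤ, cexp (-Real.pi / (A * C - B ^ 2 : ℝ) * (C * (p.1 + I * u₁) ^ 2
        - 2 * B * (p.1 + I * u₁) * (p.2 + I * u₂) + A * (p.2 + I * u₂) ^ 2)) := by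
  have hpi := Real.pi_pos
  have hAc : (A : ℂ) ≠ 0 := by exact_mod_cast hA.ne'
  set D : ℝ := A * C - B ^ 2 with hDdef
  have hDc : (D : ℂ) ≠ 0 := by exact_mod_cast hD.ne'
  have hpic : (Real.pi : ℂ) ≠ 0 := by exact_mod_cast Real.pi_ne_zero
  -- summability of the three families
  have s1 := summable_theta_lhs A B C hA hD u₁ u₂
  have s2 : Summable fun p : ℤ × ℤ => cexp (-Real.pi / A * (p.2 + I * (u₁ - B * p.1)) ^ 2
        + (-Real.pi * C * p.1 ^ 2 + 2 * Real.pi * u₂ * p.1)) := by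
    apply Summable.of_norm
    have := (summable_two (Real.pi * D / A) 0 (Real.pi / A)
      (2 * Real.pi * u₂.re - 2 * Real.pi / A * B * u₁.re)
      (2 * Real.pi / A * u₁.im) (by positivity) (by
        have : 0 < Real.pi * D / A * (Real.pi / A) := by positivity
        simpa using this)).mul_left (Real.exp (-Real.pi / A * (u₁.im ^ 2 - u₁.re ^ 2)))
    refine this.congr fun p => ?_
    rw [Complex.norm_exp, ← Real.exp_add]
    congr 1
    have : (-Real.pi / A : ℂ) = ((-Real.pi / A : ℝ) : ℂ) := by push_cast; ring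
    rw [this]
    have h2 : ((p.2 : ℂ) + I * (u₁ - B * p.1)) ^ 2 =
        ((((p.2 : ℝ) - u₁.im) ^ 2 - (u₁.re - B * p.1) ^ 2 : ℝ) : ℂ)
        + ((2 * ((p.2 : ℝ) - u₁.im) * (u₁.re - B * p.1) : ℝ) : ℂ) * I := by
      have hu : u₁ = (u₁.re : ℂ) + (u₁.im : ℂ) * I := (Complex.re_add_im u₁).symm
      conv_lhs => rw [hu]
      push_cast
      ring_nf
      simp only [Complex.I_sq, Complex.I_pow_four, show (I : ℂ) ^ 3 = -I from by
        rw [pow_succ, Complex.I_sq]; ring]
      ring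
    rw [h2]
    simp [pow_two]
    rw [hDdef]
    field_simp
    ring
  have s3 : Summable fun p : ℤ × ℤ => cexp (-Real.pi / (D : ℝ) * (C * (p.1 + I * u₁) ^ 2
        - 2 * B * (p.1 + I * u₁) * (p.2 + I * u₂) + A * (p.2 + I * u₂) ^ 2)) := by
    have hC : 0 < C := by
      by_contra h
      push Not at h
      nlinarith [sq_nonneg B]
    apply Summable.of_norm
    have := (summable_two (Real.pi / D * C) (-(Real.pi / D * B)) (Real.pi / D * A)
      (Real.pi / D * (2 * C * u₁.im - 2 * B * u₂.im))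
      (Real.pi / D * (2 * A * u₂.im - 2 * B * u₁.im)) (by positivity) (by
        have : Real.pi / D * C * (Real.pi / D * A) - (-(Real.pi / D * B)) ^ 2
            = (Real.pi / D) ^ 2 * D := by
          rw [hDdef]; ring
        rw [this]; positivity)).mul_left (Real.exp (-Real.pi / D * (C * (u₁.im ^ 2 - u₁.re ^ 2)
          - 2 * B * (u₁.im * u₂.im - u₁.re * u₂.re) + A * (u₂.im ^ 2 - u₂.re ^ 2))))
    refine this.congr fun p => ?_
    rw [Complex.norm_exp, ← Real.exp_add]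
    congr 1
    have : (-Real.pi / D : ℂ) = ((-Real.pi / D : ℝ) : ℂ) := by push_cast; ring
    rw [this, Complex.re_ofReal_mul]
    simp [pow_two]
    field_simp
    ring
  -- step 1
  have e1 : ∑' p : ℤ × ℤ, cexp (-Real.pi * (A * p.1 ^ 2 + 2 * B * p.1 * p.2 + C * p.2 ^ 2)
        + 2 * Real.pi * (u₁ * p.1 + u₂ * p.2))
      = ∑' n : ℤ, ∑' m : ℤ, cexp (-Real.pi * (A * m ^ 2 + 2 * B * m * n + C * n ^ 2)
        + 2 * Real.pi * (u₁ * m + u₂ * n)) := by
    rw [s1.tsum_prod, Summable.tsum_comm]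
    exact s1.prod_symm
  have e2 : ∀ n : ℤ, ∑' m : ℤ, cexp (-Real.pi * (A * m ^ 2 + 2 * B * m * n + C * n ^ 2)
        + 2 * Real.pi * (u₁ * m + u₂ * n))
      = 1 / (A : ℂ) ^ (1 / 2 : ℂ) * ∑' k : ℤ, cexp (-Real.pi / A * (k + I * (u₁ - B * n)) ^ 2
        + (-Real.pi * C * n ^ 2 + 2 * Real.pi * u₂ * n)) := by
    intro n
    have := Complex.tsum_exp_neg_quadratic (a := (A : ℂ)) (by simpa using hA) (u₁ - B * n)
    have h1 : ∀ m : ℤ, cexp (-Real.pi * (A * m ^ 2 + 2 * B * m * n + C * n ^ 2)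
        + 2 * Real.pi * (u₁ * m + u₂ * n))
        = cexp (-Real.pi * A * m ^ 2 + 2 * Real.pi * (u₁ - B * n) * m) *
          cexp (-Real.pi * C * n ^ 2 + 2 * Real.pi * u₂ * n) := by
      intro m
      rw [← Complex.exp_add]; congr 1; ring
    simp_rw [h1, Complex.exp_add _ (-Real.pi * C * n ^ 2 + 2 * Real.pi * u₂ * n : ℂ)]
    rw [tsum_mul_right, tsum_mul_right, this]
    ring
  have e3 : ∑' n : ℤ, ∑' k : ℤ, cexp (-Real.pi / A * (k + I * (u₁ - B * n)) ^ 2
        + (-Real.pi * C * n ^ 2 + 2 * Real.pi * u₂ * n))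
      = ∑' k : ℤ, ∑' n : ℤ, cexp (-Real.pi / A * (k + I * (u₁ - B * n)) ^ 2
        + (-Real.pi * C * n ^ 2 + 2 * Real.pi * u₂ * n)) := by
    rw [Summable.tsum_comm]
    exact s2.prod_symm
  have e4 : ∀ k : ℤ, ∑' n : ℤ, cexp (-Real.pi / A * (k + I * (u₁ - B * n)) ^ 2
        + (-Real.pi * C * n ^ 2 + 2 * Real.pi * u₂ * n))
      = 1 / ((D / A : ℝ) : ℂ) ^ (1 / 2 : ℂ) *
        ∑' l : ℤ, cexp (-Real.pi / (D : ℝ) * (C * (k + I * u₁) ^ 2
        - 2 * B * (k + I * u₁) * (l + I * u₂) + A * (l + I * u₂) ^ 2)) := by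
    intro k
    have := Complex.tsum_exp_neg_quadratic (a := ((D / A : ℝ) : ℂ))
      (by rw [Complex.ofReal_re]; positivity) (u₂ + I * B * (k + I * u₁) / A)
    have hDA : (C : ℂ) = D / A + B ^ 2 / A := by
      rw [hDdef]; push_cast; field_simp; ring
    have h1 : ∀ n : ℤ, cexp (-Real.pi / A * (k + I * (u₁ - B * n)) ^ 2
        + (-Real.pi * C * n ^ 2 + 2 * Real.pi * u₂ * n))
        = cexp (-Real.pi * ((D / A : ℝ) : ℂ) * n ^ 2 +
            2 * Real.pi * (u₂ + I * B * (k + I * u₁) / A) * n) *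
          cexp (-Real.pi / A * (k + I * u₁) ^ 2) := by
      intro n
      rw [← Complex.exp_add]; congr 1
      rw [hDA]
      push_cast
      field_simp
      ring_nf
      simp only [Complex.I_sq]
      ring
    have h2 : ∀ l : ℤ, cexp (-Real.pi / (D : ℝ) * (C * (k + I * u₁) ^ 2
        - 2 * B * (k + I * u₁) * (l + I * u₂) + A * (l + I * u₂) ^ 2))
        = cexp (-Real.pi / ((D / A : ℝ) : ℂ) * (l + I * (u₂ + I * B * (k + I * u₁) / A)) ^ 2) *
          cexp (-Real.pi / A * (k + I * u₁) ^ 2) := by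
      intro l
      rw [← Complex.exp_add]; congr 1
      have hI : I * (u₂ + I * B * (k + I * u₁) / A) = I * u₂ - B * (k + I * u₁) / A := by
        field_simp
        ring_nf
        simp only [Complex.I_sq, show (I : ℂ) ^ 3 = -I from by
          rw [pow_succ, Complex.I_sq]; ring]
        ring
      rw [hI]
      generalize (k : ℂ) + I * u₁ = X
      rw [show (l : ℂ) + (I * u₂ - B * X / A) = (l + I * u₂) - B * X / A by ring]
      generalize (l : ℂ) + I * u₂ = Y
      rw [hDA]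
      push_cast
      field_simp
      ring
    simp_rw [h1, h2]
    rw [tsum_mul_right, tsum_mul_right, this]
    ring
  rw [e1]
  simp_rw [e2]
  rw [tsum_mul_left, e3]
  simp_rw [e4]
  rw [tsum_mul_left, s3.tsum_prod, ← mul_assoc]
  congr 1
  rw [show (1 / 2 : ℂ) = ((1 / 2 : ℝ) : ℂ) by push_cast; rfl,
    ← Complex.ofReal_cpow (by positivity), ← Complex.ofReal_cpow (by positivity),
    Real.sqrt_eq_rpow, ← Complex.ofReal_one, ← Complex.ofReal_div, ← Complex.ofReal_div,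
    ← Complex.ofReal_mul]
  congr 1
  rw [div_mul_div_comm, one_mul, ← Real.mul_rpow hA.le (by positivity)]
  congr 2
  field_simp

end MP7e122f
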