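import Pool.Agent.Lib.MP_7e122f_an.Dense
import Pool.Agent.Lib.MP_7e122f_an.Theta2

open MeasureTheory Complex
open scoped ComplexInnerProductSpace ENNReal

namespace MP7e122f

abbrev Mat := Matrix (Fin 2) (Fin 2) ℝ

def act (M : Mat) (y : ℝ × ℝ) : ℝ × ℝ :=
  (M 0 0 * y.1 + M 0 1 * y.2, M 1 0 * y.1 + M 1 1 * y.2)

def cst (k : ℤ × ℤ) : ℝ × ℝ := ((k.1 : ℝ), (k.2 : ℝ))

noncomputable def lam (M : Mat) (k : ℤ × ℤ) : ℝ × ℝ := act M (cst k)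

noncomputable def zet (M : Mat) (k : ℤ × ℤ) : ℝ × ℝ :=
  ((lam M k).1 / M.det, (lam M k).2 / M.det)

noncomputable def Qf (M : Mat) (k : ℤ × ℤ) : ℝ := (zet M k).1 ^ 2 + (zet M k).2 ^ 2

noncomputable def wt (M : Mat) (k : ℤ × ℤ) : ℝ := Real.exp (-(Real.pi / 2) * Qf M k)

lemma Qf_eq (M : Mat) (k : ℤ × ℤ) : Qf M k =
    ((M 0 0) ^ 2 + (M 1 0) ^ 2) / M.det ^ 2 * k.1 ^ 2
    + 2 * ((M 0 0 * M 0 1 + M 1 0 * M 1 1) / M.det ^ 2) * k.1 * k.2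
    + ((M 0 1) ^ 2 + (M 1 1) ^ 2) / M.det ^ 2 * k.2 ^ 2 := by
  unfold Qf zet lam act cst
  ring

lemma disc_eq (M : Mat) : ((M 0 0) ^ 2 + (M 1 0) ^ 2) * ((M 0 1) ^ 2 + (M 1 1) ^ 2)
    - (M 0 0 * M 0 1 + M 1 0 * M 1 1) ^ 2 = M.det ^ 2 := by
  rw [Matrix.det_fin_two]; ring

lemma col_pos (M : Mat) (hM : M.det ≠ 0) : 0 < (M 0 0) ^ 2 + (M 1 0) ^ 2 := by
  by_contra h
  push Not at h
  have h1 : M 0 0 = 0 := by nlinarith [sq_nonneg (M 0 0), sq_nonneg (M 1 0)]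
  have h2 : M 1 0 = 0 := by nlinarith [sq_nonneg (M 0 0), sq_nonneg (M 1 0)]
  apply hM
  rw [Matrix.det_fin_two, h1, h2]; ring

lemma summable_wt (M : Mat) (hM : M.det ≠ 0) : Summable (wt M) := by
  have hd : 0 < M.det ^ 2 := by positivity
  have h := summable_two (Real.pi / 2 * (((M 0 0) ^ 2 + (M 1 0) ^ 2) / M.det ^ 2))
    (Real.pi / 2 * ((M 0 0 * M 0 1 + M 1 0 * M 1 1) / M.det ^ 2))
    (Real.pi / 2 * (((M 0 1) ^ 2 + (M 1 1) ^ 2) / M.det ^ 2)) 0 0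
    (by have := col_pos M hM; have := Real.pi_pos; positivity)
    (by
      have h1 := disc_eq M
      have h2 : Real.pi / 2 * (((M 0 0) ^ 2 + (M 1 0) ^ 2) / M.det ^ 2) *
          (Real.pi / 2 * (((M 0 1) ^ 2 + (M 1 1) ^ 2) / M.det ^ 2)) -
          (Real.pi / 2 * ((M 0 0 * M 0 1 + M 1 0 * M 1 1) / M.det ^ 2)) ^ 2 =
          (Real.pi / 2) ^ 2 * (M.det ^ 2) / (M.det ^ 2) ^ 2 := by
        rw [← h1]; field_simp
      rw [h2]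
      have := Real.pi_pos
      positivity)
  refine h.congr fun k => ?_
  unfold wt
  rw [Qf_eq]
  congr 1
  ring

lemma norm_rho_op (z : ℝ × ℝ) : ‖rho z‖ ≤ 1 :=
  ContinuousLinearMap.opNorm_le_bound _ zero_le_one fun f => by
    rw [one_mul]; exact norm_rho_le z f

lemma wt_pos (M : Mat) (k : ℤ × ℤ) : 0 < wt M k := Real.exp_pos _

noncomputable def Top (M : Mat) : L2 →L[ℂ] L2 := ∑' k, (wt M k : ℂ) • rho (zet M k)

lemma summable_Top (M : Mat) (hM : M.det ≠ 0) :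
    Summable fun k => (wt M k : ℂ) • rho (zet M k) := by
  refine Summable.of_norm_bounded (g := wt M) (summable_wt M hM) fun k => ?_
  rw [norm_smul, Complex.norm_real, Real.norm_eq_abs, abs_of_pos (wt_pos M k)]
  exact mul_le_of_le_one_right (wt_pos M k).le (norm_rho_op _)

lemma hasSum_inner_Top (M : Mat) (hM : M.det ≠ 0) (f h : L2) :
    HasSum (fun k => (wt M k : ℂ) * ⟪f, rho (zet M k) h⟫) ⟪f, Top M h⟫ := by
  have h1 := (summable_Top M hM).hasSum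
  have h2 := (ContinuousLinearMap.apply ℂ L2 h).hasSum h1
  have h3 := (innerSL ℂ f).hasSum h2
  have e : (fun k => (wt M k : ℂ) * ⟪f, rho (zet M k) h⟫) =
      fun k => (innerSL ℂ f) ((ContinuousLinearMap.apply ℂ L2 h) ((wt M k : ℂ) • rho (zet M k))) := by
    funext k
    simp
  rw [e]
  exact h3

lemma figa_term (M : Mat) (hM : 0 < M.det) (z w : ℝ × ℝ) (k : ℤ × ℤ) :
    (wt M (k.2, -k.1) : ℂ) * ⟪gv 1 0 one_pos z, rho (zet M (k.2, -k.1)) (gv 1 0 one_pos w)⟫ =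
    cexp (-(Real.pi / 2) * (z.1 ^ 2 + z.2 ^ 2 + w.1 ^ 2 + w.2 ^ 2)) *
    cexp (-Real.pi / (M.det ^ 2 : ℝ) * (((M 0 1) ^ 2 + (M 1 1) ^ 2 : ℝ) *
      (k.1 + I * (M 0 0 * (((z.1 + w.1) + I * (w.2 - z.2)) / 2)
        + M 1 0 * (((z.2 + w.2) + I * (z.1 - w.1)) / 2))) ^ 2
        - 2 * ((M 0 0 * M 0 1 + M 1 0 * M 1 1 : ℝ) : ℂ) *
        (k.1 + I * (M 0 0 * (((z.1 + w.1) + I * (w.2 - z.2)) / 2)
        + M 1 0 * (((z.2 + w.2) + I * (z.1 - w.1)) / 2))) *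
        (k.2 + I * (M 0 1 * (((z.1 + w.1) + I * (w.2 - z.2)) / 2)
        + M 1 1 * (((z.2 + w.2) + I * (z.1 - w.1)) / 2)))
        + ((M 0 0) ^ 2 + (M 1 0) ^ 2 : ℝ) *
        (k.2 + I * (M 0 1 * (((z.1 + w.1) + I * (w.2 - z.2)) / 2)
        + M 1 1 * (((z.2 + w.2) + I * (z.1 - w.1)) / 2))) ^ 2)) := by
  rw [rho_gv, inner_smul_right, inner_gv]
  unfold wt Qf zet lam act cst
  rw [Complex.ofReal_exp, ← Complex.exp_add, ← Complex.exp_add, ← Complex.exp_add,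
    ← Complex.exp_add]
  congr 1
  have hD : (M.det : ℂ) ≠ 0 := by exact_mod_cast hM.ne'
  have hdet : (M.det : ℂ) = M 0 0 * M 1 1 - M 0 1 * M 1 0 := by
    rw [Matrix.det_fin_two]; push_cast; ring
  generalize M.det = D at *
  generalize M 0 0 = a at *
  generalize M 0 1 = b at *
  generalize M 1 0 = c at *
  generalize M 1 1 = d at *
  simp only [Prod.fst_add, Prod.snd_add]
  push_cast
  have hz1 : ∃ ζ : ℂ, ζ = (a * k.2 + b * (-k.1)) / D := ⟨_, rfl⟩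
  have hz2 : ∃ ζ : ℂ, ζ = (c * k.2 + d * (-k.1)) / D := ⟨_, rfl⟩
  obtain ⟨ζ₁, hζ₁⟩ := hz1
  obtain ⟨ζ₂, hζ₂⟩ := hz2
  rw [← hζ₁, ← hζ₂]
  have hI3 : (I : ℂ) ^ 3 = -I := by rw [pow_succ, Complex.I_sq]; ring
  have hI4 : (I : ℂ) ^ 4 = 1 := Complex.I_pow_four
  obtain ⟨v₁, hv₁⟩ : ∃ v : ℂ, v = ((z.1 + w.1) + I * (w.2 - z.2)) / 2 := ⟨_, rfl⟩
  obtain ⟨v₂, hv₂⟩ : ∃ v : ℂ, v = ((z.2 + w.2) + I * (z.1 - w.1)) / 2 := ⟨_, rfl⟩
  rw [← hv₁, ← hv₂]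
  have e1 : (D : ℂ) * ζ₁ = a * k.2 - b * k.1 := by rw [hζ₁, mul_div_cancel₀ _ hD]; ring
  have e2 : (D : ℂ) * ζ₂ = c * k.2 - d * k.1 := by rw [hζ₂, mul_div_cancel₀ _ hD]; ring
  have hQ : ((b : ℂ) ^ 2 + d ^ 2) * (k.1 + I * (a * v₁ + c * v₂)) ^ 2 -
      2 * (a * b + c * d) * (k.1 + I * (a * v₁ + c * v₂)) * (k.2 + I * (b * v₁ + d * v₂)) +
      (a ^ 2 + c ^ 2) * (k.2 + I * (b * v₁ + d * v₂)) ^ 2
      = D ^ 2 * ((ζ₁ + I * v₂) ^ 2 + (ζ₂ - I * v₁) ^ 2) := by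
    have h1 : (b : ℂ) * (k.1 + I * (a * v₁ + c * v₂)) - a * (k.2 + I * (b * v₁ + d * v₂))
        = -(D * (ζ₁ + I * v₂)) := by
      linear_combination e1 + I * v₂ * hdet
    have h2 : (d : ℂ) * (k.1 + I * (a * v₁ + c * v₂)) - c * (k.2 + I * (b * v₁ + d * v₂))
        = -(D * (ζ₂ - I * v₁)) := by
      linear_combination e2 - I * v₁ * hdet
    calc _ = ((b : ℂ) * (k.1 + I * (a * v₁ + c * v₂)) - a * (k.2 + I * (b * v₁ + d * v₂))) ^ 2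
          + ((d : ℂ) * (k.1 + I * (a * v₁ + c * v₂)) - c * (k.2 + I * (b * v₁ + d * v₂))) ^ 2 := by
          ring
      _ = _ := by rw [h1, h2]; ring
  rw [hQ, ← mul_assoc, div_mul_cancel₀ _ (pow_ne_zero 2 hD), hv₁, hv₂]
  ring_nf
  simp only [Complex.I_sq, hI3, hI4]
  ring

lemma figa_lterm (M : Mat) (z w : ℝ × ℝ) (l : ℤ × ℤ) :
    ⟪gv 1 0 one_pos z, gv 1 0 one_pos (lam M l)⟫ * ⟪gv 1 0 one_pos (lam M l), gv 1 0 one_pos w⟫ =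
    cexp (-(Real.pi / 2) * (z.1 ^ 2 + z.2 ^ 2 + w.1 ^ 2 + w.2 ^ 2)) *
    cexp (-Real.pi * (((M 0 0) ^ 2 + (M 1 0) ^ 2 : ℝ) * l.1 ^ 2
        + 2 * ((M 0 0 * M 0 1 + M 1 0 * M 1 1 : ℝ) : ℂ) * l.1 * l.2
        + ((M 0 1) ^ 2 + (M 1 1) ^ 2 : ℝ) * l.2 ^ 2)
        + 2 * Real.pi * ((M 0 0 * (((z.1 + w.1) + I * (w.2 - z.2)) / 2)
        + M 1 0 * (((z.2 + w.2) + I * (z.1 - w.1)) / 2)) * l.1
        + (M 0 1 * (((z.1 + w.1) + I * (w.2 - z.2)) / 2)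
        + M 1 1 * (((z.2 + w.2) + I * (z.1 - w.1)) / 2)) * l.2)) := by
  rw [inner_gv, inner_gv]
  unfold lam act cst
  rw [← Complex.exp_add, ← Complex.exp_add, ← Complex.exp_add,
    ← Complex.exp_add]
  congr 1
  push_cast
  ring

/-- rotation of the index set -/
def rotE : ℤ × ℤ ≃ ℤ × ℤ where
  toFun k := (k.2, -k.1)
  invFun k := (-k.2, k.1)
  left_inv k := by ext <;> simp
  right_inv k := by ext <;> simp

theorem figa_pair (M : Mat) (hM : 0 < M.det) (z w : ℝ × ℝ) :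
    HasSum (fun l => ⟪gv 1 0 one_pos z, gv 1 0 one_pos (lam M l)⟫ *
      ⟪gv 1 0 one_pos (lam M l), gv 1 0 one_pos w⟫)
      ((1 / M.det : ℝ) * ⟪gv 1 0 one_pos z, Top M (gv 1 0 one_pos w)⟫) := by
  have hd : 0 < M.det ^ 2 := by positivity
  have hdisc := disc_eq M
  have hA := col_pos M hM.ne'
  have hD : 0 < ((M 0 0) ^ 2 + (M 1 0) ^ 2) * ((M 0 1) ^ 2 + (M 1 1) ^ 2)
    - (M 0 0 * M 0 1 + M 1 0 * M 1 1) ^ 2 := by rw [hdisc]; exact hd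
  have hs := summable_theta_lhs _ _ _ hA hD (M 0 0 * (((z.1 + w.1) + I * (w.2 - z.2)) / 2)
        + M 1 0 * (((z.2 + w.2) + I * (z.1 - w.1)) / 2))
        (M 0 1 * (((z.1 + w.1) + I * (w.2 - z.2)) / 2)
        + M 1 1 * (((z.2 + w.2) + I * (z.1 - w.1)) / 2))
  have ht := theta2 _ _ _ hA hD (M 0 0 * (((z.1 + w.1) + I * (w.2 - z.2)) / 2)
        + M 1 0 * (((z.2 + w.2) + I * (z.1 - w.1)) / 2))
        (M 0 1 * (((z.1 + w.1) + I * (w.2 - z.2)) / 2)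
        + M 1 1 * (((z.2 + w.2) + I * (z.1 - w.1)) / 2))
  have hsum : Summable (fun l => ⟪gv 1 0 one_pos z, gv 1 0 one_pos (lam M l)⟫ *
      ⟪gv 1 0 one_pos (lam M l), gv 1 0 one_pos w⟫) := by
    simp_rw [figa_lterm]
    exact hs.mul_left _
  have h1 := (hasSum_inner_Top M hM.ne' (gv 1 0 one_pos z) (gv 1 0 one_pos w)).tsum_eq
  rw [← rotE.tsum_eq] at h1
  have h2 : ∀ k : ℤ × ℤ, (wt M (rotE k) : ℂ) *
      ⟪gv 1 0 one_pos z, rho (zet M (rotE k)) (gv 1 0 one_pos w)⟫ = _ :=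
    fun k => figa_term M hM z w k
  simp_rw [h2] at h1
  rw [tsum_mul_left] at h1
  have h3 : ∑' l, ⟪gv 1 0 one_pos z, gv 1 0 one_pos (lam M l)⟫ *
      ⟪gv 1 0 one_pos (lam M l), gv 1 0 one_pos w⟫
      = (1 / M.det : ℝ) * ⟪gv 1 0 one_pos z, Top M (gv 1 0 one_pos w)⟫ := by
    simp_rw [figa_lterm]
    rw [tsum_mul_left, ht, ← h1, hdisc, Real.sqrt_sq hM.le]
    ring
  rw [← h3]
  exact hsum.hasSum

end MP7e122f
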