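import Pool.Agent.Lib.MP_7e122f_an.Figa

open MeasureTheory Complex
open scoped ComplexInnerProductSpace ENNReal

namespace MP7e122f

noncomputable abbrev g1 (z : ℝ × ℝ) : L2 := gv 1 0 one_pos z

theorem figa_span (M : Mat) (hM : 0 < M.det) {f h : L2} (hf : f ∈ gspan) (hh : h ∈ gspan) :
    HasSum (fun l => ⟪f, g1 (lam M l)⟫ * ⟪g1 (lam M l), h⟫)
      ((1 / M.det : ℝ) * ⟪f, Top M h⟫) := by
  induction hf using Submodule.span_induction with
  | mem x hx =>
    obtain ⟨z, rfl⟩ := hx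
    induction hh using Submodule.span_induction with
    | mem y hy =>
      obtain ⟨w, rfl⟩ := hy
      exact figa_pair M hM z w
    | zero => simp
    | add x y _ _ hx hy =>
      have := hx.add hy
      convert this using 1
      · funext l; rw [inner_add_right]; ring
      · rw [map_add, inner_add_right]; ring
    | smul a x _ hx =>
      have := hx.mul_left a
      rw [show (fun l => ⟪gv 1 0 one_pos z, g1 (lam M l)⟫ * ⟪g1 (lam M l), a • x⟫) =
        fun l => a * (⟪gv 1 0 one_pos z, g1 (lam M l)⟫ * ⟪g1 (lam M l), x⟫) from by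
          funext l; rw [inner_smul_right]; ring,
        show (1 / M.det : ℝ) * ⟪gv 1 0 one_pos z, Top M (a • x)⟫ =
          a * ((1 / M.det : ℝ) * ⟪gv 1 0 one_pos z, Top M x⟫) from by
          rw [map_smul, inner_smul_right]; ring]
      exact this
  | zero => simp
  | add x y _ _ hx hy =>
    have := hx.add hy
    convert this using 1
    · funext l; rw [inner_add_left]; ring
    · rw [inner_add_left]; ring
  | smul a x _ hx =>
    have := hx.mul_left ((starRingEnd ℂ) a)
    rw [show (fun l => ⟪a • x, g1 (lam M l)⟫ * ⟪g1 (lam M l), h⟫) =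
        fun l => (starRingEnd ℂ) a * (⟪x, g1 (lam M l)⟫ * ⟪g1 (lam M l), h⟫) from by
          funext l; rw [inner_smul_left]; ring,
        show (1 / M.det : ℝ) * ⟪a • x, Top M h⟫ =
          (starRingEnd ℂ) a * ((1 / M.det : ℝ) * ⟪x, Top M h⟫) from by
          rw [inner_smul_left]; ring]
    exact this

/-- the quadratic form on the adjoint side -/
noncomputable def TM (M : Mat) (f : L2) : ℝ := (1 / M.det) * (⟪f, Top M f⟫).re

lemma continuous_TM (M : Mat) : Continuous (TM M) := by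
  unfold TM
  fun_prop

lemma TM_le (M : Mat) (hM : 0 < M.det) (f : L2) :
    |TM M f| ≤ (1 / M.det) * ‖Top M‖ * ‖f‖ ^ 2 := by
  unfold TM
  rw [abs_mul, abs_of_pos (by positivity), mul_assoc]
  apply mul_le_mul_of_nonneg_left _ (by positivity)
  calc |(⟪f, Top M f⟫).re| ≤ ‖⟪f, Top M f⟫‖ := Complex.abs_re_le_norm _
    _ ≤ ‖f‖ * ‖Top M f‖ := norm_inner_le_norm _ _
    _ ≤ ‖f‖ * (‖Top M‖ * ‖f‖) := by
      apply mul_le_mul_of_nonneg_left (ContinuousLinearMap.le_opNorm _ _) (norm_nonneg _)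
    _ = _ := by ring

theorem figa_quad (M : Mat) (hM : 0 < M.det) {f : L2} (hf : f ∈ gspan) :
    HasSum (fun l => ‖⟪g1 (lam M l), f⟫‖ ^ 2) (TM M f) := by
  have h := Complex.hasSum_re (figa_span M hM hf hf)
  convert h using 1
  · funext l
    rw [← inner_conj_symm f, mul_comm, Complex.mul_conj, Complex.ofReal_re,
      Complex.normSq_eq_norm_sq]
  · unfold TM
    rw [Complex.re_ofReal_mul]

lemma sum_le_TM (M : Mat) (hM : 0 < M.det) (s : Finset (ℤ × ℤ)) (f : L2) :
    ∑ l ∈ s, ‖⟪g1 (lam M l), f⟫‖ ^ 2 ≤ TM M f := by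
  have hcl : IsClosed {f : L2 | ∑ l ∈ s, ‖⟪g1 (lam M l), f⟫‖ ^ 2 ≤ TM M f} := by
    apply isClosed_le
    · fun_prop
    · exact continuous_TM M
  have hsub : (gspan : Set L2) ⊆ {f : L2 | ∑ l ∈ s, ‖⟪g1 (lam M l), f⟫‖ ^ 2 ≤ TM M f} := by
    intro g hg
    exact sum_le_hasSum s (fun i _ => by positivity) (figa_quad M hM hg)
  have := closure_minimal hsub hcl (dense_gspan.closure_eq ▸ Set.mem_univ f)
  exact this

lemma summable_coef (M : Mat) (hM : 0 < M.det) (f : L2) :
    Summable (fun l => ‖⟪g1 (lam M l), f⟫‖ ^ 2) :=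
  summable_of_sum_le (fun i => by positivity) (fun s => sum_le_TM M hM s f)

lemma tsum_le_TM (M : Mat) (hM : 0 < M.det) (f : L2) :
    ∑' l, ‖⟪g1 (lam M l), f⟫‖ ^ 2 ≤ TM M f :=
  (summable_coef M hM f).tsum_le_of_sum_le fun s => sum_le_TM M hM s f

lemma TM_le_tsum (M : Mat) (hM : 0 < M.det) (f : L2) :
    TM M f ≤ ∑' l, ‖⟪g1 (lam M l), f⟫‖ ^ 2 := by
  set S : L2 → ℝ := fun f => ∑' l, ‖⟪g1 (lam M l), f⟫‖ ^ 2 with hS
  have hSnn : 0 ≤ S f := tsum_nonneg fun l => by positivity
  have key : ∀ t : ℝ, 0 < t → TM M f ≤ (1 + t) * S f := by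
    intro t ht
    set K := (1 / M.det) * ‖Top M‖ with hK
    have hcl : IsClosed {g : L2 | TM M g ≤ (1 + t) * S f + (1 + 1 / t) * (K * ‖g - f‖ ^ 2)} := by
      apply isClosed_le (continuous_TM M)
      fun_prop
    have hsub : (gspan : Set L2) ⊆
        {g : L2 | TM M g ≤ (1 + t) * S f + (1 + 1 / t) * (K * ‖g - f‖ ^ 2)} := by
      intro g hg
      have h1 : TM M g = S g := ((figa_quad M hM hg).tsum_eq).symm
      have h2 : S g ≤ (1 + t) * S f + (1 + 1 / t) * S (g - f) := by
        rw [hS]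
        simp only
        rw [← tsum_mul_left, ← tsum_mul_left, ← Summable.tsum_add
          ((summable_coef M hM f).mul_left _) ((summable_coef M hM (g - f)).mul_left _)]
        apply Summable.tsum_le_tsum _ (summable_coef M hM g)
          (((summable_coef M hM f).mul_left _).add ((summable_coef M hM (g - f)).mul_left _))
        intro l
        have e : ⟪g1 (lam M l), g⟫ = ⟪g1 (lam M l), f⟫ + ⟪g1 (lam M l), g - f⟫ := by
          rw [← inner_add_right]; congr 1; abel
        rw [e]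
        set a := ⟪g1 (lam M l), f⟫
        set b := ⟪g1 (lam M l), g - f⟫
        have hab : ‖a + b‖ ≤ ‖a‖ + ‖b‖ := norm_add_le a b
        have h3 : ‖a + b‖ ^ 2 ≤ (‖a‖ + ‖b‖) ^ 2 := by gcongr
        have h4 : (‖a‖ + ‖b‖) ^ 2 ≤ (1 + t) * ‖a‖ ^ 2 + (1 + 1 / t) * ‖b‖ ^ 2 := by
          have h5 : 0 ≤ (t * ‖a‖ - ‖b‖) ^ 2 / t := by positivity
          have h6 : (t * ‖a‖ - ‖b‖) ^ 2 / t = t * ‖a‖ ^ 2 - 2 * ‖a‖ * ‖b‖ + 1 / t * ‖b‖ ^ 2 := by
            field_simp
            ring
          rw [h6] at h5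
          nlinarith
        linarith
      have h3 : S (g - f) ≤ K * ‖g - f‖ ^ 2 :=
        (tsum_le_TM M hM (g - f)).trans ((le_abs_self _).trans (TM_le M hM (g - f)))
      change TM M g ≤ _
      rw [h1]
      have : (1 + 1 / t) * S (g - f) ≤ (1 + 1 / t) * (K * ‖g - f‖ ^ 2) := by
        apply mul_le_mul_of_nonneg_left h3 (by positivity)
      linarith
    have := closure_minimal hsub hcl (dense_gspan.closure_eq ▸ Set.mem_univ f)
    simpa using this
  by_contra hlt
  push Not at hlt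
  have hpos : 0 < TM M f - S f := by linarith
  have h1 := key ((TM M f - S f) / (2 * (S f + 1))) (by positivity)
  have h2 : (TM M f - S f) / (2 * (S f + 1)) * S f ≤ (TM M f - S f) / 2 := by
    rw [div_mul_eq_mul_div, div_le_div_iff₀ (by positivity) (by norm_num)]
    nlinarith
  nlinarith

/-- The fundamental identity for all `f`. -/
theorem figa_all (M : Mat) (hM : 0 < M.det) (f : L2) :
    HasSum (fun l => ‖⟪g1 (lam M l), f⟫‖ ^ 2) (TM M f) := by
  have := (summable_coef M hM f).hasSum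
  rwa [le_antisymm (tsum_le_TM M hM f) (TM_le_tsum M hM f)] at this

end MP7e122f
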