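import Pool.Agent.Lib.MP_7e122f_an.Selling

open Complex UpperHalfPlane ModularGroup
open scoped MatrixGroups

namespace MP7e122f

noncomputable def ga (M : Mat) : ℝ := (M 0 0) ^ 2 + (M 1 0) ^ 2
noncomputable def gb (M : Mat) : ℝ := M 0 0 * M 0 1 + M 1 0 * M 1 1
noncomputable def gc (M : Mat) : ℝ := (M 0 1) ^ 2 + (M 1 1) ^ 2

theorem exists_reduced (M : Mat) (hM : 0 < M.det) :
    ∃ R : Matrix (Fin 2) (Fin 2) ℤ, R.det = 1 ∧
      |2 * gb (mulZ M R)| ≤ ga (mulZ M R) ∧ ga (mulZ M R) ≤ gc (mulZ M R) := by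
  have hd : M.det = M 0 0 * M 1 1 - M 0 1 * M 1 0 := Matrix.det_fin_two M
  set w₁ : ℂ := ⟨M 0 0, M 1 0⟩ with hw₁
  set w₂ : ℂ := ⟨M 0 1, M 1 1⟩ with hw₂
  have hw₁0 : w₁ ≠ 0 := by
    intro h
    have h1 : M 0 0 = 0 := by have := congrArg Complex.re h; simpa [hw₁] using this
    have h2 : M 1 0 = 0 := by have := congrArg Complex.im h; simpa [hw₁] using this
    rw [hd, h1, h2] at hM; simp at hM
  have hn : 0 < Complex.normSq w₁ := Complex.normSq_pos.2 hw₁0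
  have him : 0 < (w₂ / w₁).im := by
    rw [Complex.div_im, ← sub_div]
    apply div_pos _ hn
    have : w₂.im * w₁.re - w₂.re * w₁.im = M.det := by rw [hd, hw₁, hw₂]; simp; ring
    rw [this]; exact hM
  set z : ℍ := ⟨w₂ / w₁, him⟩ with hz
  obtain ⟨g, hg⟩ := exists_smul_mem_fd z
  have hdetg : g 0 0 * g 1 1 - g 0 1 * g 1 0 = 1 := by
    have := g.det_coe
    rwa [Matrix.det_fin_two] at this
  set R : Matrix (Fin 2) (Fin 2) ℤ := !![g 1 1, g 0 1; g 1 0, g 0 0] with hR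
  have hRdet : R.det = 1 := by
    rw [Matrix.det_fin_two, hR]
    simp
    linear_combination hdetg
  refine ⟨R, hRdet, ?_⟩
  set w₁' : ℂ := (g 1 0 : ℝ) * w₂ + (g 1 1 : ℝ) * w₁ with hw₁'
  set w₂' : ℂ := (g 0 0 : ℝ) * w₂ + (g 0 1 : ℝ) * w₁ with hw₂'
  have hcoe : ((g • z : ℍ) : ℂ) = w₂' / w₁' := by
    rw [UpperHalfPlane.coe_specialLinearGroup_apply]
    have hzc : (z : ℂ) = w₂ / w₁ := rfl
    rw [hzc, hw₁', hw₂']
    simp only [algebraMap_int_eq, Int.coe_castRingHom]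
    have e1 : ((g 0 0 : ℝ) : ℂ) * (w₂ / w₁) + ((g 0 1 : ℝ) : ℂ)
        = (((g 0 0 : ℝ) : ℂ) * w₂ + ((g 0 1 : ℝ) : ℂ) * w₁) / w₁ := by field_simp
    have e2 : ((g 1 0 : ℝ) : ℂ) * (w₂ / w₁) + ((g 1 1 : ℝ) : ℂ)
        = (((g 1 0 : ℝ) : ℂ) * w₂ + ((g 1 1 : ℝ) : ℂ) * w₁) / w₁ := by field_simp
    rw [e1, e2, div_div_div_cancel_right₀ hw₁0]
  have q1 : w₁' = ⟨(mulZ M R) 0 0, (mulZ M R) 1 0⟩ := by
    apply Complex.ext
    · rw [hw₁', hw₁, hw₂]
      simp [mulZ, Matrix.mul_apply, Fin.sum_univ_two, hR]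
      ring
    · rw [hw₁', hw₁, hw₂]
      simp [mulZ, Matrix.mul_apply, Fin.sum_univ_two, hR]
      ring
  have q2 : w₂' = ⟨(mulZ M R) 0 1, (mulZ M R) 1 1⟩ := by
    apply Complex.ext
    · rw [hw₂', hw₁, hw₂]
      simp [mulZ, Matrix.mul_apply, Fin.sum_univ_two, hR]
      ring
    · rw [hw₂', hw₁, hw₂]
      simp [mulZ, Matrix.mul_apply, Fin.sum_univ_two, hR]
      ring
  have n1 : Complex.normSq w₁' = ga (mulZ M R) := by
    rw [q1, Complex.normSq_mk]; unfold ga; ring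
  have n2 : Complex.normSq w₂' = gc (mulZ M R) := by
    rw [q2, Complex.normSq_mk]; unfold gc; ring
  have hdet' : 0 < (mulZ M R).det := by rw [det_mulZ M R hRdet]; exact hM
  have hga : 0 < ga (mulZ M R) := col_pos _ hdet'.ne'
  have h1 := hg.1
  have h2 := hg.2
  have h1' : 1 ≤ Complex.normSq (w₂' / w₁') := by rw [← hcoe]; exact h1
  rw [map_div₀, n1, n2, le_div_iff₀ hga] at h1'
  have h2' : |(w₂' / w₁').re| ≤ 1 / 2 := by rw [← hcoe]; exact h2
  have h3 : (w₂' / w₁').re = gb (mulZ M R) / ga (mulZ M R) := by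
    rw [Complex.div_re, n1, ← add_div, q1, q2]
    unfold gb
    simp only
    ring
  rw [h3, abs_div, abs_of_pos hga, div_le_iff₀ hga] at h2'
  refine ⟨?_, by linarith⟩
  rw [abs_mul, abs_two]
  linarith

theorem exists_selling (M : Mat) (hM : 0 < M.det) :
    ∃ R : Matrix (Fin 2) (Fin 2) ℤ, R.det = 1 ∧
      0 ≤ gb (mulZ M R) ∧ gb (mulZ M R) ≤ ga (mulZ M R) ∧ gb (mulZ M R) ≤ gc (mulZ M R) := by
  obtain ⟨R, hR, h1, h2⟩ := exists_reduced M hM
  have h1' := abs_le.1 h1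
  have hga0 : 0 ≤ ga (mulZ M R) := by unfold ga; positivity
  by_cases hb : 0 ≤ gb (mulZ M R)
  · exact ⟨R, hR, hb, by linarith [h1'.2], by linarith [h1'.2]⟩
  · push Not at hb
    set J : Matrix (Fin 2) (Fin 2) ℤ := !![0, 1; -1, 0] with hJ
    have hJdet : J.det = 1 := by rw [hJ, Matrix.det_fin_two]; simp
    refine ⟨R * J, by rw [Matrix.det_mul, hR, hJdet, one_mul], ?_⟩
    have hmul : mulZ M (R * J) = mulZ (mulZ M R) J := by
      unfold mulZ
      rw [Matrix.map_mul_intCast, Matrix.mul_assoc]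
    have e1 : ga (mulZ (mulZ M R) J) = gc (mulZ M R) := by
      generalize mulZ M R = M'
      unfold ga gc mulZ
      simp [Matrix.mul_apply, Fin.sum_univ_two, hJ]
    have e2 : gb (mulZ (mulZ M R) J) = - gb (mulZ M R) := by
      generalize mulZ M R = M'
      unfold gb mulZ
      simp [Matrix.mul_apply, Fin.sum_univ_two, hJ]
      ring
    have e3 : gc (mulZ (mulZ M R) J) = ga (mulZ M R) := by
      generalize mulZ M R = M'
      unfold ga gc mulZ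
      simp [Matrix.mul_apply, Fin.sum_univ_two, hJ]
    rw [hmul, e1, e2, e3]
    refine ⟨by linarith, by linarith [h1'.1], by linarith [h1'.1]⟩

/-- weights in Selling form -/
lemma wt_selling (M : Mat) (k : ℤ × ℤ) : wt M k =
    cc (Real.pi / 2 * ((ga M - gb M) / M.det ^ 2)) (Real.pi / 2 * ((gc M - gb M) / M.det ^ 2))
      (Real.pi / 2 * (gb M / M.det ^ 2)) k := by
  unfold wt cc ga gb gc
  rw [Qf_eq]
  congr 1
  ring

lemma selling_det (M : Mat) (hM : 0 < M.det) :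
    (Real.pi / 2 * ((ga M - gb M) / M.det ^ 2)) * (Real.pi / 2 * ((gc M - gb M) / M.det ^ 2))
    + (Real.pi / 2 * ((gc M - gb M) / M.det ^ 2)) * (Real.pi / 2 * (gb M / M.det ^ 2))
    + (Real.pi / 2 * (gb M / M.det ^ 2)) * (Real.pi / 2 * ((ga M - gb M) / M.det ^ 2))
    = 3 * (Real.pi / (2 * Real.sqrt 3 * M.det)) ^ 2 := by
  have h := disc_eq M
  have h3 : Real.sqrt 3 ^ 2 = 3 := Real.sq_sqrt (by norm_num)
  have h4 : ga M * gc M - gb M ^ 2 = M.det ^ 2 := h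
  have hd : M.det ≠ 0 := hM.ne'
  have e1 : 3 * (Real.pi / (2 * Real.sqrt 3 * M.det)) ^ 2 = (Real.pi / 2) ^ 2 / M.det ^ 2 := by
    rw [div_pow, mul_pow, mul_pow, h3]
    field_simp
  rw [e1]
  have e2 : (Real.pi / 2 * ((ga M - gb M) / M.det ^ 2)) * (Real.pi / 2 * ((gc M - gb M) / M.det ^ 2))
    + (Real.pi / 2 * ((gc M - gb M) / M.det ^ 2)) * (Real.pi / 2 * (gb M / M.det ^ 2))
    + (Real.pi / 2 * (gb M / M.det ^ 2)) * (Real.pi / 2 * ((ga M - gb M) / M.det ^ 2))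
    = (Real.pi / 2) ^ 2 * (ga M * gc M - gb M ^ 2) / (M.det ^ 2) ^ 2 := by
    field_simp
    ring
  rw [e2, h4]
  field_simp

end MP7e122f
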