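import Pool.Agent.Lib.MP_7e122f_an.Defs
import Pool.Agent.Lib.MP_7e122f_an.Reduce

open MeasureTheory Complex
open scoped ComplexInnerProductSpace ENNReal

namespace MP7e122f

lemma norm_coef (z : ℝ × ℝ) (f : L2) :
    ‖∫ t, f t * (starRingEnd ℂ) (tfShift z gauss t)‖ = ‖⟪g1 z, f⟫‖ := by
  have h : ⟪g1 z, f⟫ = cexp (Real.pi * I * z.2 * z.1) *
      ∫ t, f t * (starRingEnd ℂ) (tfShift z gauss t) := by
    rw [L2.inner_def, ← integral_const_mul]
    apply integral_congr_ae
    filter_upwards [(memLp_phi 1 0 one_pos z).coeFn_toLp] with t a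
    have a' : (g1 z : ℝ → ℂ) t = phi 1 0 z t := a
    rw [a', RCLike.inner_apply]
    have e : phi 1 0 z t = cexp (-(Real.pi * I * z.2 * z.1)) * tfShift z gauss t := by
      unfold phi tfShift gauss
      rw [Complex.ofReal_mul, Complex.ofReal_exp]
      rw [show ∀ a b c d e : ℂ, a * (b * (c * d)) = c * (a * b * d) from
        fun a b c d e => by ring, ← Complex.exp_add, ← Complex.exp_add]
      · rw [mul_one, mul_assoc, ← Complex.exp_add]
        congr 2
        push_cast
        ring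
      · exact 0
    rw [e, map_mul, ← Complex.exp_conj]
    have e2 : (starRingEnd ℂ) (-(Real.pi * I * z.2 * z.1)) = Real.pi * I * z.2 * z.1 := by
      simp [Complex.conj_ofReal]
    rw [e2]
    ring
  have hn : ‖cexp (Real.pi * I * z.2 * z.1)‖ = 1 := by
    have : (Real.pi * I * z.2 * z.1 : ℂ) = ((Real.pi * z.2 * z.1 : ℝ) : ℂ) * I := by
      push_cast; ring
    rw [this, Complex.norm_exp_ofReal_mul_I]
  rw [h, norm_mul, hn, one_mul]

lemma lattice_eq (M : Mat) : lattice M = Set.range (lam M) := by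
  unfold lattice lam act cst
  rfl

lemma lam_injective (M : Mat) (hM : M.det ≠ 0) : Function.Injective (lam M) := by
  intro k l h
  rw [Matrix.det_fin_two] at hM
  unfold lam act cst at h
  simp only [Prod.mk.injEq] at h
  obtain ⟨h1, h2⟩ := h
  have e1 : (M 0 0 * M 1 1 - M 0 1 * M 1 0) * ((k.1 : ℝ) - l.1) = 0 := by
    linear_combination M 1 1 * h1 - M 0 1 * h2
  have e2 : (M 0 0 * M 1 1 - M 0 1 * M 1 0) * ((k.2 : ℝ) - l.2) = 0 := by
    linear_combination M 0 0 * h2 - M 1 0 * h1
  have f1 := (mul_eq_zero.1 e1).resolve_left hM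
  have f2 := (mul_eq_zero.1 e2).resolve_left hM
  ext
  · have : (k.1 : ℝ) = l.1 := by linarith
    exact_mod_cast this
  · have : (k.2 : ℝ) = l.2 := by linarith
    exact_mod_cast this

theorem frameSum_eq (M : Mat) (hM : 0 < M.det) (f : L2) :
    frameSum (lattice M) f = ENNReal.ofReal (TM M f) := by
  unfold frameSum
  have h := figa_all M hM f
  rw [lattice_eq]
  have e := (Equiv.ofInjective (lam M) (lam_injective M hM.ne')).tsum_eq
    (fun z : Set.range (lam M) =>
      ENNReal.ofReal (‖∫ t, f t * (starRingEnd ℂ) (tfShift z gauss t)‖ ^ 2))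
  rw [← e, ← h.tsum_eq, ENNReal.ofReal_tsum_of_nonneg (fun n => by positivity) h.summable]
  congr 1
  funext l
  rw [norm_coef]
  rfl

lemma TM_nonneg (M : Mat) (hM : 0 < M.det) (f : L2) : 0 ≤ TM M f :=
  (figa_all M hM f).nonneg fun l => by positivity

lemma TM_smul (M : Mat) (c : ℝ) (f : L2) : TM M ((c : ℂ) • f) = c ^ 2 * TM M f := by
  unfold TM
  rw [map_smul, inner_smul_left, inner_smul_right, Complex.conj_ofReal, ← mul_assoc,
    ← Complex.ofReal_mul, Complex.re_ofReal_mul]
  ring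

lemma TM_bounds (M : Mat) (hM : 0 < M.det) (f : L2) :
    (1 / M.det) * aval M * ‖f‖ ^ 2 ≤ TM M f ∧ TM M f ≤ (1 / M.det) * bval M * ‖f‖ ^ 2 := by
  by_cases hf : f = 0
  · subst hf
    have : TM M 0 = 0 := by unfold TM; simp
    rw [this]; simp
  have hn : 0 < ‖f‖ := norm_pos_iff.2 hf
  set g : L2 := ((‖f‖⁻¹ : ℝ) : ℂ) • f with hg
  have hg1 : ‖g‖ = 1 := by
    rw [hg, norm_smul, Complex.norm_real, Real.norm_eq_abs, abs_of_pos (by positivity),
      inv_mul_cancel₀ hn.ne']
  have h1 : TM M g = (‖f‖⁻¹) ^ 2 * TM M f := TM_smul M _ f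
  have h2 : TM M f = ‖f‖ ^ 2 * TM M g := by rw [h1]; field_simp
  rw [h2, TM_eq M hM]
  have h3 := aval_le M hM g hg1
  have h4 := le_bval M hM g hg1
  have h5 : 0 < 1 / M.det := by positivity
  have h6 : 0 < ‖f‖ ^ 2 := by positivity
  constructor
  · calc (1 / M.det) * aval M * ‖f‖ ^ 2 = ‖f‖ ^ 2 * (1 / M.det * aval M) := by ring
      _ ≤ _ := by gcongr
  · calc ‖f‖ ^ 2 * (1 / M.det * TS M g) ≤ ‖f‖ ^ 2 * (1 / M.det * bval M) := by gcongr
      _ = _ := by ring

lemma bval_pos (M : Mat) (hM : 0 < M.det) : 0 < bval M := by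
  have h1 := (line_test M hM 0).2
  have h2 : 0 < Real.pi / 2 * Qf M (1, 0) := by
    have hq : Qf M (1, 0) = ((M 0 0) ^ 2 + (M 1 0) ^ 2) / M.det ^ 2 := by rw [Qf_eq]; simp
    have := col_pos M hM.ne'
    have := Real.pi_pos
    rw [hq]; positivity
  have h3 := F1_zero_lower _ h2
  have h4 := Real.exp_pos (-(Real.pi / 2 * Qf M (1, 0)))
  linarith

theorem lowerSet_eq (M : Mat) (hM : 0 < M.det) :
    lowerSet (lattice M) = Set.Iic ((1 / M.det) * aval M) := by
  ext A
  have hd : 0 < 1 / M.det := by positivity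
  simp only [lowerSet, Set.mem_ofPred_eq, Set.mem_Iic]
  constructor
  · intro h
    by_contra hlt
    push Not at hlt
    obtain ⟨f, hf, hfn⟩ := exists_near_aval M (M.det * A - aval M) (by
      have : M.det * (1 / M.det * aval M) < M.det * A := by gcongr
      rw [← mul_assoc, mul_one_div_cancel hM.ne', one_mul] at this
      linarith)
    have h1 := h f
    rw [frameSum_eq M hM, ENNReal.ofReal_le_ofReal_iff (TM_nonneg M hM f), hf, TM_eq M hM] at h1
    have h2 : TS M f < M.det * A := by linarith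
    have h3 : 1 / M.det * TS M f < 1 / M.det * (M.det * A) := by gcongr
    rw [← mul_assoc, one_div_mul_cancel hM.ne', one_mul] at h3
    linarith
  · intro h f
    rw [frameSum_eq M hM]
    apply ENNReal.ofReal_le_ofReal
    refine le_trans ?_ (TM_bounds M hM f).1
    gcongr

theorem upperSet_eq (M : Mat) (hM : 0 < M.det) :
    upperSet (lattice M) = Set.Ici ((1 / M.det) * bval M) := by
  ext B
  have hd : 0 < 1 / M.det := by positivity
  simp only [upperSet, Set.mem_ofPred_eq, Set.mem_Ici]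
  constructor
  · intro h
    by_contra hlt
    push Not at hlt
    have hb := bval_pos M hM
    set B' := max B 0 with hB'
    have hB'lt : M.det * B' < bval M := by
      have h1 : B' < 1 / M.det * bval M := max_lt hlt (by positivity)
      have h2 : M.det * B' < M.det * (1 / M.det * bval M) := by gcongr
      rwa [← mul_assoc, mul_one_div_cancel hM.ne', one_mul] at h2
    obtain ⟨f, hf, hfn⟩ := exists_near_bval M (bval M - M.det * B') (by linarith)
    have h1 := h f
    rw [frameSum_eq M hM, hf] at h1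
    have h1' : ENNReal.ofReal (TM M f) ≤ ENNReal.ofReal B' := by
      refine h1.trans (ENNReal.ofReal_le_ofReal ?_)
      rw [one_pow, mul_one]; exact le_max_left _ _
    rw [ENNReal.ofReal_le_ofReal_iff (le_max_right _ _), TM_eq M hM] at h1'
    have h2 : M.det * B' < TS M f := by linarith
    have h3 : 1 / M.det * (M.det * B') < 1 / M.det * TS M f := by gcongr
    rw [← mul_assoc, one_div_mul_cancel hM.ne', one_mul] at h3
    linarith
  · intro h f
    rw [frameSum_eq M hM]
    apply ENNReal.ofReal_le_ofReal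
    refine le_trans (TM_bounds M hM f).2 ?_
    gcongr

lemma lowerBound_eq (M : Mat) (hM : 0 < M.det) :
    lowerBound (lattice M) = (1 / M.det) * aval M := by
  unfold lowerBound
  rw [lowerSet_eq M hM, csSup_Iic]

lemma upperBound_eq (M : Mat) (hM : 0 < M.det) :
    upperBound (lattice M) = (1 / M.det) * bval M := by
  unfold upperBound
  rw [upperSet_eq M hM, csInf_Ici]

/-- swapping the two basis vectors -/
def swapM (M : Mat) : Mat := !![M 0 1, M 0 0; M 1 1, M 1 0]

lemma det_swapM (M : Mat) : (swapM M).det = - M.det := by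
  rw [Matrix.det_fin_two, Matrix.det_fin_two]
  simp [swapM]

lemma lattice_swapM (M : Mat) : lattice (swapM M) = lattice M := by
  unfold lattice swapM
  ext z
  constructor
  · rintro ⟨k, rfl⟩
    exact ⟨(k.2, k.1), by ext <;> simp <;> ring⟩
  · rintro ⟨k, rfl⟩
    exact ⟨(k.2, k.1), by ext <;> simp <;> ring⟩

lemma lattice_mulZ (M : Mat) (R : Matrix (Fin 2) (Fin 2) ℤ) (hR : R.det = 1) :
    lattice (mulZ M R) = lattice M := by
  rw [lattice_eq, lattice_eq]
  ext z
  constructor
  · rintro ⟨k, rfl⟩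
    exact ⟨actZ R k, (lam_mulZ M R k).symm⟩
  · rintro ⟨k, rfl⟩
    refine ⟨(eR R hR).symm k, ?_⟩
    rw [lam_mulZ]
    congr 1
    exact (eR R hR).apply_symm_apply k

lemma exists_posdet (M : Mat) (hM : M.det ≠ 0) :
    ∃ M' : Mat, M'.det = |M.det| ∧ lattice M' = lattice M := by
  rcases lt_or_gt_of_ne hM with h | h
  · exact ⟨swapM M, by rw [det_swapM, abs_of_neg h], lattice_swapM M⟩
  · exact ⟨M, by rw [abs_of_pos h], rfl⟩

/-- equal lattices have equal covolume -/
lemma absdet_eq (M N : Mat) (h : lattice M = lattice N) (hM : M.det ≠ 0) :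
    |M.det| = |N.det| := by
  -- `M = N R` with `R` integral
  have key : ∀ M N : Mat, lattice M ⊆ lattice N → ∃ r : ℤ, M.det = N.det * r := by
    intro M N hsub
    obtain ⟨k, hk⟩ := hsub ⟨(1, 0), rfl⟩
    obtain ⟨l, hl⟩ := hsub ⟨(0, 1), rfl⟩
    simp only [Prod.mk.injEq, Int.cast_one, Int.cast_zero, mul_one, mul_zero, add_zero,
      zero_add] at hk hl
    refine ⟨k.1 * l.2 - k.2 * l.1, ?_⟩
    rw [Matrix.det_fin_two, Matrix.det_fin_two, ← hk.1, ← hk.2, ← hl.1, ← hl.2]
    push_cast
    ring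
  obtain ⟨r, hr⟩ := key M N h.le
  obtain ⟨s, hs⟩ := key N M h.ge
  have h1 : ((s * r : ℤ) : ℝ) = 1 := by
    have : M.det * (s * r : ℝ) = M.det * 1 := by
      rw [mul_one]; nth_rewrite 2 [hr]; rw [hs]; ring
    have := mul_left_cancel₀ hM this
    push_cast; exact this
  have h2 : s * r = 1 := by exact_mod_cast h1
  have h3 : r = 1 ∨ r = -1 := Int.isUnit_iff.1 (IsUnit.of_mul_eq_one s (by rw [mul_comm]; exact h2))
  rcases h3 with h3 | h3
  · rw [hr, h3]; simp
  · rw [hr, h3]; simp

/-- a hexagonal lattice has a positively oriented hexagonal basis -/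
lemma hex_basis (H : Mat) (hH : H.det ≠ 0) (hhex : IsHexagonal (lattice H)) :
    ∃ H' : Mat, H'.det = |H.det| ∧ lattice H' = lattice H ∧
      ga H' = 2 * gb H' ∧ gc H' = 2 * gb H' := by
  obtain ⟨v, w, hv, hvw, hin, hΛ⟩ := hhex
  set K : Mat := !![v.1, w.1; v.2, w.2] with hK
  have hKl : lattice K = lattice H := by
    rw [hΛ]
    unfold lattice
    congr 1
    funext k
    rw [hK]
    ext <;> simp <;> ring
  have hvpos : 0 < v.1 ^ 2 + v.2 ^ 2 := by
    by_contra h
    push Not at h
    apply hv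
    ext
    · simp; nlinarith [sq_nonneg v.1, sq_nonneg v.2]
    · simp; nlinarith [sq_nonneg v.1, sq_nonneg v.2]
  have hKa : ga K = v.1 ^ 2 + v.2 ^ 2 := by unfold ga; simp [hK]
  have hKb : gb K = v.1 * w.1 + v.2 * w.2 := by unfold gb; simp [hK]
  have hKc : gc K = w.1 ^ 2 + w.2 ^ 2 := by unfold gc; simp [hK]
  have hKdet : K.det ≠ 0 := by
    intro h0
    have h1 := disc_eq K
    have h2 : ga K * gc K - gb K ^ 2 = K.det ^ 2 := h1
    rw [hKa, hKb, hKc, ← hvw, hin, h0] at h2
    nlinarith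
  have habs := absdet_eq K H hKl hKdet
  rcases lt_or_gt_of_ne hKdet with h | h
  · refine ⟨swapM K, ?_, ?_, ?_, ?_⟩
    · rw [det_swapM, ← habs, abs_of_neg h]
    · rw [lattice_swapM, hKl]
    · have e1 : ga (swapM K) = gc K := by unfold ga gc swapM; simp
      have e2 : gb (swapM K) = gb K := by unfold gb swapM; simp; ring
      rw [e1, e2, hKb, hKc, hin, hvw]; ring
    · have e1 : gc (swapM K) = ga K := by unfold ga gc swapM; simp
      have e2 : gb (swapM K) = gb K := by unfold gb swapM; simp; ring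
      rw [e1, e2, hKb, hKa, hin]; ring
  · refine ⟨K, ?_, hKl, ?_, ?_⟩
    · rw [← habs, abs_of_pos h]
    · rw [hKa, hKb, hin]; ring
    · rw [hKc, hKb, hin, hvw]; ring

lemma hex_wt (H : Mat) (hH : 0 < H.det) (h1 : ga H = 2 * gb H) (h2 : gc H = 2 * gb H) (k : ℤ × ℤ) :
    wt H k = cc (Real.pi / (2 * Real.sqrt 3 * H.det)) (Real.pi / (2 * Real.sqrt 3 * H.det))
      (Real.pi / (2 * Real.sqrt 3 * H.det)) k := by
  have hs := selling_det H hH
  have hw := wt_selling H k
  have e1 : ga H - gb H = gb H := by linarith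
  have e2 : gc H - gb H = gb H := by linarith
  rw [e1, e2] at hs hw
  have hga : 0 < ga H := col_pos H hH.ne'
  have hgb : 0 < gb H := by linarith
  have hpi := Real.pi_pos
  have h3 : (0 : ℝ) < Real.sqrt 3 := Real.sqrt_pos.2 (by norm_num)
  have e3 : Real.pi / 2 * (gb H / H.det ^ 2) = Real.pi / (2 * Real.sqrt 3 * H.det) := by
    have hsq : (Real.pi / 2 * (gb H / H.det ^ 2)) ^ 2 = (Real.pi / (2 * Real.sqrt 3 * H.det)) ^ 2 := by
      linarith
    exact (pow_left_inj₀ (by positivity) (by positivity) two_ne_zero).1 hsq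
  rw [hw, e3]

lemma num_y (D : ℝ) (hD : 0 < D) (h : D ≤ 1 / 2) :
    1.8136 ≤ Real.pi / (2 * Real.sqrt 3 * D) := by
  have h3 : (0 : ℝ) < Real.sqrt 3 := Real.sqrt_pos.2 (by norm_num)
  have h4 : Real.sqrt 3 ≤ 1.73206 := by
    rw [Real.sqrt_le_left (by norm_num)]; norm_num
  have hpi := Real.pi_gt_d4
  rw [le_div_iff₀ (by positivity)]
  nlinarith [mul_pos h3 hD]

/-- strict comparison for positively oriented bases -/
theorem strict_pos (M H : Mat) (hM : 0 < M.det) (hH : H.det = M.det) (hd : M.det ≤ 1 / 2)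
    (h1 : ga H = 2 * gb H) (h2 : gc H = 2 * gb H) (hne : ¬ IsHexagonal (lattice M)) :
    aval M < aval H ∧ bval H < bval M := by
  obtain ⟨R, hR, hb0, hba, hbc⟩ := exists_selling M hM
  set N := mulZ M R with hN
  have hNdet : N.det = M.det := det_mulZ M R hR
  have hNl : lattice N = lattice M := lattice_mulZ M R hR
  have hH0 : 0 < H.det := hH ▸ hM
  have hwH := hex_wt H hH0 h1 h2
  have hwN := wt_selling N
  have hsN := selling_det N (by rw [hNdet]; exact hM)
  have hpi := Real.pi_pos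
  have hd2 : 0 < N.det ^ 2 := by rw [hNdet]; positivity
  rw [hH] at hwH
  have hy : N.det = M.det := hNdet
  have hsN' := hsN
  rw [hNdet] at hsN'
  rw [← aval_mulZ M R hR, ← bval_mulZ M R hR, ← hN]
  have hne' : ¬ (Real.pi / 2 * ((ga N - gb N) / M.det ^ 2) = Real.pi / 2 * ((gc N - gb N) / M.det ^ 2) ∧
      Real.pi / 2 * ((gc N - gb N) / M.det ^ 2) = Real.pi / 2 * (gb N / M.det ^ 2)) := by
    rintro ⟨q1, q2⟩
    apply hne
    have hpi2 : Real.pi / 2 ≠ 0 := by positivity
    have hMd : M.det ^ 2 ≠ 0 := by positivity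
    have q1' := mul_left_cancel₀ hpi2 q1
    have q2' := mul_left_cancel₀ hpi2 q2
    rw [div_left_inj' hMd] at q1' q2'
    have hga : 0 < ga N := col_pos N (by rw [hNdet]; exact hM.ne')
    refine ⟨(N 0 0, N 1 0), (N 0 1, N 1 1), ?_, ?_, ?_, ?_⟩
    · intro h0
      simp only [Prod.mk_eq_zero] at h0
      unfold ga at hga
      rw [h0.1, h0.2] at hga
      simp at hga
    · simp only
      have : ga N = gc N := by linarith
      exact this
    · simp only
      have : gb N = ga N / 2 := by linarith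
      exact this
    · rw [← hNl]
      unfold lattice
      congr 1
      funext k
      ext <;> simp <;> ring
  rw [hNdet] at hwN
  exact selling_compare (M := N) (H := H) (by rw [hNdet]; exact hM) (by rw [hH, hNdet]) hwN hwH
    (num_y M.det hM hd)
    (mul_nonneg (by positivity) (div_nonneg (by linarith) (by positivity)))
    (mul_nonneg (by positivity) (div_nonneg (by linarith) (by positivity)))
    (mul_nonneg (by positivity) (div_nonneg hb0 (by positivity)))
    hsN' hne'

theorem equal_pos (M H : Mat) (hM : 0 < M.det) (hH : H.det = M.det)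
    (h1 : ga H = 2 * gb H) (h2 : gc H = 2 * gb H)
    (h1' : ga M = 2 * gb M) (h2' : gc M = 2 * gb M) :
    aval M = aval H ∧ bval M = bval H := by
  have hH0 : 0 < H.det := hH ▸ hM
  have hw : ∀ k, wt M k = wt H k := by
    intro k
    rw [hex_wt H hH0 h1 h2, hex_wt M hM h1' h2', hH]
  have key : ∀ M H : Mat, 0 < M.det → H.det = M.det → (∀ k, wt M k = wt H k) →
      aval M ≤ aval H ∧ bval H ≤ bval M := by
    intro M H hM hH hw
    constructor
    · apply le_csInf (nonempty_TS H)
      rintro _ ⟨f, hf, rfl⟩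
      have := (transfer_val H M (hH ▸ hM) hH.symm f hf).1
      simp only [hw] at this
      exact this
    · apply csSup_le (nonempty_TS H)
      rintro _ ⟨f, hf, rfl⟩
      have := (transfer_val H M (hH ▸ hM) hH.symm f hf).2
      simp only [hw] at this
      exact this
  have k1 := key M H hM hH hw
  have k2 := key H M hH0 hH.symm (fun k => (hw k).symm)
  exact ⟨le_antisymm k1.1 k2.1, le_antisymm k2.2 k1.2⟩

theorem main (δ : ℝ) (hδ : 2 ≤ δ) (M H : Matrix (Fin 2) (Fin 2) ℝ)
    (hM : |M.det| = δ⁻¹) (hH : |H.det| = δ⁻¹) (hhex : IsHexagonal (lattice H)) :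
    (IsGreatest (lowerSet (lattice M)) (lowerBound (lattice M)) ∧
      IsLeast (upperSet (lattice M)) (upperBound (lattice M))) ∧
    (IsHexagonal (lattice M) →
      lowerBound (lattice M) = lowerBound (lattice H) ∧
      upperBound (lattice M) = upperBound (lattice H)) ∧
    (¬ IsHexagonal (lattice M) →
      lowerBound (lattice M) < lowerBound (lattice H) ∧
      upperBound (lattice H) < upperBound (lattice M)) := by
  have hδ0 : 0 < δ⁻¹ := by positivity
  have hδ1 : δ⁻¹ ≤ 1 / 2 := by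
    rw [inv_le_comm₀ (by linarith) (by norm_num)]; norm_num; exact hδ
  have hM0 : M.det ≠ 0 := by intro h; rw [h, abs_zero] at hM; linarith
  have hH0 : H.det ≠ 0 := by intro h; rw [h, abs_zero] at hH; linarith
  obtain ⟨M', hM'd, hM'l⟩ := exists_posdet M hM0
  obtain ⟨H', hH'd, hH'l, hg1, hg2⟩ := hex_basis H hH0 hhex
  rw [hM] at hM'd
  rw [hH] at hH'd
  have hM'0 : 0 < M'.det := by rw [hM'd]; exact hδ0
  have hH'0 : 0 < H'.det := by rw [hH'd]; exact hδ0
  have hdet : H'.det = M'.det := by rw [hM'd, hH'd]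
  refine ⟨?_, ?_, ?_⟩
  · rw [← hM'l, lowerBound_eq M' hM'0, upperBound_eq M' hM'0, lowerSet_eq M' hM'0,
      upperSet_eq M' hM'0]
    exact ⟨isGreatest_Iic, isLeast_Ici⟩
  · intro hh
    obtain ⟨M'', hM''d, hM''l, hg1', hg2'⟩ := hex_basis M hM0 hh
    rw [hM] at hM''d
    have hM''0 : 0 < M''.det := by rw [hM''d]; exact hδ0
    have hdet' : H'.det = M''.det := by rw [hM''d, hH'd]
    have := equal_pos M'' H' hM''0 hdet' hg1 hg2 hg1' hg2'
    rw [← hM''l, ← hH'l, lowerBound_eq M'' hM''0, upperBound_eq M'' hM''0,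
      lowerBound_eq H' hH'0, upperBound_eq H' hH'0, this.1, this.2, hdet']
    exact ⟨rfl, rfl⟩
  · intro hh
    have := strict_pos M' H' hM'0 hdet (by rw [hM'd]; exact hδ1) hg1 hg2 (by rw [hM'l]; exact hh)
    rw [← hM'l, ← hH'l, lowerBound_eq M' hM'0, upperBound_eq M' hM'0,
      lowerBound_eq H' hH'0, upperBound_eq H' hH'0, hdet]
    have hd : 0 < 1 / M'.det := by positivity
    exact ⟨mul_lt_mul_of_pos_left this.1 hd, mul_lt_mul_of_pos_left this.2 hd⟩

end MP7e122f
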