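import Mathlib

open MeasureTheory Complex
open scoped ComplexInnerProductSpace ENNReal

namespace MP7e122f

noncomputable abbrev L2 := Lp ℂ 2 (volume : Measure ℝ)

/-- translation as a linear isometry -/
noncomputable def transl (x : ℝ) : L2 →ₗᵢ[ℂ] L2 :=
  Lp.compMeasurePreservingₗᵢ ℂ (fun t : ℝ => t - x) (measurePreserving_sub_right volume x)

lemma transl_coe (x : ℝ) (f : L2) : (transl x f : ℝ → ℂ) =ᵐ[volume] fun t => f (t - x) := by
  have := Lp.coeFn_compMeasurePreserving f (measurePreserving_sub_right (volume : Measure ℝ) x)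
  exact this

/-- the modulation factor -/
noncomputable def ef (z : ℝ × ℝ) (t : ℝ) : ℂ :=
  cexp (2 * Real.pi * I * z.2 * (t - z.1 / 2))

lemma norm_ef (z : ℝ × ℝ) (t : ℝ) : ‖ef z t‖ = 1 := by
  unfold ef
  have : (2 * Real.pi * I * z.2 * (t - z.1 / 2) : ℂ)
      = ((2 * Real.pi * z.2 * (t - z.1 / 2) : ℝ) : ℂ) * I := by
    push_cast; ring
  rw [this, Complex.norm_exp_ofReal_mul_I]

lemma continuous_ef (z : ℝ × ℝ) : Continuous (ef z) := by
  unfold ef
  fun_prop

lemma memLp_ef (z : ℝ × ℝ) : MemLp (ef z) ∞ (volume : Measure ℝ) := by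
  refine memLp_top_of_bound (continuous_ef z).aestronglyMeasurable 1 ?_
  exact Filter.Eventually.of_forall fun t => (norm_ef z t).le

/-- symmetric time-frequency shift -/
noncomputable def rho (z : ℝ × ℝ) : L2 →L[ℂ] L2 :=
  (((ContinuousLinearMap.mul ℂ ℂ).holderL volume ∞ 2 2) ((memLp_ef z).toLp (ef z))).comp
    (transl z.1).toContinuousLinearMap

lemma rho_coe (z : ℝ × ℝ) (f : L2) :
    (rho z f : ℝ → ℂ) =ᵐ[volume] fun t => ef z t * f (t - z.1) := by
  have h1 := (ContinuousLinearMap.mul ℂ ℂ).coeFn_holder (r := 2) ((memLp_ef z).toLp (ef z))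
    (transl z.1 f)
  have h2 := (memLp_ef z).coeFn_toLp
  have h3 := transl_coe z.1 f
  have h4 : rho z f = (ContinuousLinearMap.mul ℂ ℂ).holder 2 ((memLp_ef z).toLp (ef z))
    (transl z.1 f) := rfl
  rw [h4]
  filter_upwards [h1, h2, h3] with t a b c
  rw [a, b, c]; rfl

lemma norm_rho_le (z : ℝ × ℝ) (f : L2) : ‖rho z f‖ ≤ ‖f‖ := by
  rw [← (transl z.1).norm_map f]
  apply Lp.norm_le_norm_of_ae_le
  filter_upwards [rho_coe z f, transl_coe z.1 f] with t a b
  rw [a, b, norm_mul, norm_ef, one_mul]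

/-- generalized Gaussian shifted by `z` -/
noncomputable def phi (α β : ℝ) (z : ℝ × ℝ) (t : ℝ) : ℂ :=
  ((2 * α) ^ (1 / 4 : ℝ) : ℝ) * cexp (2 * Real.pi * I * z.2 * (t - z.1 / 2)) *
    cexp (-Real.pi * (α + β * I) * (t - z.1) ^ 2)

lemma continuous_phi (α β : ℝ) (z : ℝ × ℝ) : Continuous (phi α β z) := by
  unfold phi
  fun_prop

lemma norm_phi (α β : ℝ) (hα : 0 < α) (z : ℝ × ℝ) (t : ℝ) :
    ‖phi α β z t‖ = (2 * α) ^ (1 / 4 : ℝ) * Real.exp (-(Real.pi * α) * (t - z.1) ^ 2) := by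
  unfold phi
  have e := norm_ef z t
  unfold ef at e
  rw [norm_mul, norm_mul, e, Complex.norm_exp, Complex.norm_real, Real.norm_eq_abs,
    abs_of_nonneg (by positivity), mul_one]
  congr 2
  have : (-Real.pi * (α + β * I) * (t - z.1) ^ 2 : ℂ)
      = ((-(Real.pi * α) * (t - z.1) ^ 2 : ℝ) : ℂ) + ((-(Real.pi * β) * (t - z.1) ^ 2 : ℝ) : ℂ) * I := by
    push_cast; ring
  rw [this]; simp [-neg_mul, -ofReal_pow, -ofReal_mul]

lemma memLp_phi (α β : ℝ) (hα : 0 < α) (z : ℝ × ℝ) :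
    MemLp (phi α β z) 2 (volume : Measure ℝ) := by
  rw [memLp_two_iff_integrable_sq_norm (continuous_phi α β z).aestronglyMeasurable]
  have h : Integrable (fun t : ℝ => ((2 * α) ^ (1 / 4 : ℝ)) ^ 2 *
      Real.exp (-(2 * Real.pi * α) * t ^ 2)) := by
    apply Integrable.const_mul
    exact integrable_exp_neg_mul_sq (by positivity)
  have h2 := h.comp_sub_right z.1
  refine h2.congr (Filter.Eventually.of_forall fun t => ?_)
  simp only
  rw [norm_phi α β hα, mul_pow, ← Real.exp_nat_mul]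
  congr 2
  push_cast; ring

noncomputable def gv (α β : ℝ) (hα : 0 < α) (z : ℝ × ℝ) : L2 :=
  (memLp_phi α β hα z).toLp _

lemma rho_gv (α β : ℝ) (hα : 0 < α) (z z' : ℝ × ℝ) :
    rho z (gv α β hα z') =
      cexp (Real.pi * I * (z.2 * z'.1 - z.1 * z'.2)) • gv α β hα (z + z') := by
  apply Lp.ext
  have h1 := rho_coe z (gv α β hα z')
  have h2 := Lp.coeFn_smul (cexp (Real.pi * I * (z.2 * z'.1 - z.1 * z'.2))) (gv α β hα (z + z'))
  have h3 := (memLp_phi α β hα (z + z')).coeFn_toLp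
  have h4 := (memLp_phi α β hα z').coeFn_toLp
  have h5 := (measurePreserving_sub_right (volume : Measure ℝ) z.1).quasiMeasurePreserving.ae_eq_comp h4
  filter_upwards [h1, h2, h3, h5] with t a b c d
  rw [a, b, Pi.smul_apply]
  have d' : (gv α β hα z' : ℝ → ℂ) (t - z.1) = phi α β z' (t - z.1) := d
  have c' : (gv α β hα (z + z') : ℝ → ℂ) t = phi α β (z + z') t := c
  rw [d', c', smul_eq_mul]
  unfold ef phi
  have hC : ∀ C a b c d e f : ℂ, a * c * d = b * e * f → a * (C * c * d) = b * (C * e * f) := by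
    intro C a b c d e f h
    linear_combination C * h
  apply hC
  rw [← Complex.exp_add, ← Complex.exp_add, ← Complex.exp_add, ← Complex.exp_add]
  congr 1
  simp only [Prod.fst_add, Prod.snd_add]
  push_cast
  ring

lemma inner_gv (α β : ℝ) (hα : 0 < α) (z z' : ℝ × ℝ) :
    ⟪gv α β hα z, gv α β hα z'⟫ =
      cexp (Real.pi * I * (z.1 * z'.2 - z.2 * z'.1)) *
      cexp (-(Real.pi / 2) * (α * (z.1 - z'.1) ^ 2 +
        ((z'.2 - z.2) + β * (z'.1 - z.1)) ^ 2 / α)) := by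
  rw [L2.inner_def]
  have h3 := (memLp_phi α β hα z).coeFn_toLp
  have h4 := (memLp_phi α β hα z').coeFn_toLp
  have hαc : (α : ℂ) ≠ 0 := by exact_mod_cast hα.ne'
  have hint : ∫ t, ⟪(gv α β hα z : ℝ → ℂ) t, (gv α β hα z' : ℝ → ℂ) t⟫ =
      ∫ t : ℝ, (((2 * α) ^ (1 / 2 : ℝ) : ℝ) : ℂ) * cexp ((-(2 * Real.pi * α) : ℂ) * t ^ 2
        + (2 * Real.pi * (α * (z.1 + z'.1) + I * ((z'.2 - z.2) + β * (z'.1 - z.1)))) * t
        + (Real.pi * I * z.2 * z.1 - Real.pi * (α - β * I) * z.1 ^ 2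
          - Real.pi * I * z'.2 * z'.1 - Real.pi * (α + β * I) * z'.1 ^ 2)) := by
    apply integral_congr_ae
    filter_upwards [h3, h4] with t a b
    have a' : (gv α β hα z : ℝ → ℂ) t = phi α β z t := a
    have b' : (gv α β hα z' : ℝ → ℂ) t = phi α β z' t := b
    rw [a', b', RCLike.inner_apply]
    unfold phi
    rw [map_mul, map_mul, Complex.conj_ofReal, ← Complex.exp_conj, ← Complex.exp_conj]
    have e1 : (((2 * α) ^ (1 / 2 : ℝ) : ℝ) : ℂ)
        = (((2 * α) ^ (1 / 4 : ℝ) : ℝ) : ℂ) * (((2 * α) ^ (1 / 4 : ℝ) : ℝ) : ℂ) := by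
      rw [← Complex.ofReal_mul, ← Real.rpow_add (by positivity)]
      norm_num
    rw [e1, show ∀ c a b a' b' : ℂ, (c * a * b) * (c * a' * b') = c * c * (a * b * (a' * b')) from
      fun c a b a' b' => by ring, ← Complex.exp_add, ← Complex.exp_add, ← Complex.exp_add]
    congr 2
    simp only [map_mul, map_neg, map_sub, map_add, map_pow, Complex.conj_ofReal, Complex.conj_I,
      map_ofNat, map_div₀]
    ring
  rw [hint, integral_const_mul, integral_cexp_quadratic]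
  · have e2 : (Real.pi / -(-(2 * Real.pi * α)) : ℂ) ^ (1 / 2 : ℂ)
        = (((2 * α) ^ (1 / 2 : ℝ) : ℝ) : ℂ)⁻¹ := by
      have : (Real.pi / -(-(2 * Real.pi * α)) : ℂ) = (((2 * α)⁻¹ : ℝ) : ℂ) := by
        push_cast
        have : (Real.pi : ℂ) ≠ 0 := by exact_mod_cast Real.pi_ne_zero
        field_simp
      rw [this, show (1 / 2 : ℂ) = ((1 / 2 : ℝ) : ℂ) by push_cast; rfl,
        ← Complex.ofReal_cpow (by positivity), ← Complex.ofReal_inv,
        Real.inv_rpow (by positivity)]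
    have e3 : (((2 * α) ^ (1 / 2 : ℝ) : ℝ) : ℂ) ≠ 0 := by
      exact_mod_cast (Real.rpow_pos_of_pos (by positivity) _).ne'
    rw [e2, ← mul_assoc, mul_inv_cancel₀ e3, one_mul, ← Complex.exp_add]
    congr 1
    have : (Real.pi : ℂ) ≠ 0 := by exact_mod_cast Real.pi_ne_zero
    field_simp
    ring_nf
    simp only [Complex.I_sq]
    ring
  · have : (-(2 * Real.pi * α) : ℂ) = ((-(2 * Real.pi * α) : ℝ) : ℂ) := by push_cast; ring
    rw [this, Complex.ofReal_re]
    have := Real.pi_pos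
    nlinarith [mul_pos this hα]

end MP7e122f
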