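import Pool.Agent.Lib.MP_7e122f_an.Tail

open MeasureTheory Complex

namespace MP7e122f

/-- inverse integer matrix -/
def adjZ (R : Matrix (Fin 2) (Fin 2) ℤ) : Matrix (Fin 2) (Fin 2) ℤ :=
  !![R 1 1, -R 0 1; -R 1 0, R 0 0]

def eR (R : Matrix (Fin 2) (Fin 2) ℤ) (hR : R.det = 1) : ℤ × ℤ ≃ ℤ × ℤ where
  toFun := actZ R
  invFun := actZ (adjZ R)
  left_inv k := by
    rw [Matrix.det_fin_two] at hR
    unfold actZ adjZ
    ext
    · simp; linear_combination k.1 * hR
    · simp; linear_combination k.2 * hR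
  right_inv k := by
    rw [Matrix.det_fin_two] at hR
    unfold actZ adjZ
    ext
    · simp; linear_combination k.1 * hR
    · simp; linear_combination k.2 * hR

lemma TS_mulZ (M : Mat) (R : Matrix (Fin 2) (Fin 2) ℤ) (hR : R.det = 1) (f : L2) :
    TS (mulZ M R) f = TS M f := by
  unfold TS
  rw [← (eR R hR).tsum_eq (fun k => wt M k * st M f k)]
  congr 1
  funext k
  rw [wt_mulZ M R hR, st_mulZ M R hR]
  rfl

lemma aval_mulZ (M : Mat) (R : Matrix (Fin 2) (Fin 2) ℤ) (hR : R.det = 1) :
    aval (mulZ M R) = aval M := by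
  unfold aval
  congr 1
  exact Set.image_congr fun f _ => TS_mulZ M R hR f

lemma bval_mulZ (M : Mat) (R : Matrix (Fin 2) (Fin 2) ℤ) (hR : R.det = 1) :
    bval (mulZ M R) = bval M := by
  unfold bval
  congr 1
  exact Set.image_congr fun f _ => TS_mulZ M R hR f

variable {M H : Mat} {A B C y : ℝ}

lemma D1_swap (A B C y : ℝ) : D1 A B C y = D1 B A C y := by
  unfold D1
  rw [add_comm B A, add_comm B C, add_comm A C]; ring
lemma D1_rot (A B C y : ℝ) : D1 A B C y = D1 B C A y := by
  unfold D1
  rw [add_comm B A, add_comm A C]; ring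
lemma D3_swap (A B C y : ℝ) : D3 A B C y = D3 B A C y := by
  unfold D3
  rw [show A + B + 4 * C = B + A + 4 * C by ring, show B + C + 4 * A = C + B + 4 * A by ring,
    show C + A + 4 * B = A + C + 4 * B by ring]; ring
lemma D3_rot (A B C y : ℝ) : D3 A B C y = D3 B C A y := by
  unfold D3
  ring
lemma D4_swap (A B C y : ℝ) : D4 A B C y = D4 B A C y := by
  unfold D4
  rw [add_comm B A, add_comm B C, add_comm A C]; ring
lemma D4_rot (A B C y : ℝ) : D4 A B C y = D4 B C A y := by
  unfold D4
  rw [add_comm B A, add_comm A C]; ring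

/-- the core inequality in terms of the sorted parameters -/
def CoreIneq (A B C y : ℝ) : Prop :=
  (A + B + C - 3 * y ≤ 0.55 * y ∧
    6 * |D3 A B C y| + 6 * |D4 A B C y| + 3 * Real.exp (-(7 * (1.1 * y))) * 229.4
      < 1.994 * D1 A B C y) ∨
  (A + B + C - 3 * y ≤ 0.25 * y ∧
    6 * |D3 A B C y| + 6 * |D4 A B C y| +
      (49 * Real.exp (-2) * ((A + B + C - 3 * y) * (A + B + C - 3 * y + 2 * y))) *
      Real.exp (-(7 * (4 / 3 * y - 2 / 7))) * 229.4 < 1.994 * D1 A B C y)

lemma CoreIneq_swap (h : CoreIneq B A C y) : CoreIneq A B C y := by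
  unfold CoreIneq at *
  rw [D1_swap, D3_swap, D4_swap, show A + B + C = B + A + C by ring]
  exact h

lemma CoreIneq_rot (h : CoreIneq B C A y) : CoreIneq A B C y := by
  unfold CoreIneq at *
  rw [D1_rot, D3_rot, D4_rot, show A + B + C = B + C + A by ring]
  exact h

lemma scale_abs (h x : ℝ) (h0 : 0 < h) : |h * x| = h * |x| := by
  rw [abs_mul, abs_of_pos h0]

theorem core_sorted (hy : 1.8136 ≤ y) (hC : 0 ≤ C) (hCB : C ≤ B) (hBA : B ≤ A)
    (hABC : A * B + B * C + C * A = 3 * y ^ 2) (hne : C ≠ A)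
    (hnear : Real.exp (-(B + C)) ≤ 3.02 * Real.exp (-(2 * y))) : CoreIneq A B C y := by
  set a := A - y with ha
  set b := B - y with hb
  set c := C - y with hc
  have hcfg : Cfg y a b c := by
    refine ⟨hy, ?_, by linarith, by linarith, by linarith, ?_⟩
    · rw [ha, hb, hc]; linear_combination hABC
    · have e : Real.exp (-(b + c)) = Real.exp (-(B + C)) * Real.exp (2 * y) := by
        rw [← Real.exp_add, hb, hc]; congr 1; ring
      have e2 : Real.exp (-(2 * y)) * Real.exp (2 * y) = 1 := by rw [← Real.exp_add]; simp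
      rw [e]
      have := mul_le_mul_of_nonneg_right hnear (Real.exp_pos (2 * y)).le
      rw [mul_assoc, e2] at this
      linarith
  obtain ⟨h, hh⟩ : ∃ h, h = Real.exp (-(2 * y)) := ⟨_, rfl⟩
  have h0 : 0 < h := hh ▸ Real.exp_pos _
  have e1 : D1 A B C y = h * Cfg.G a b c := by
    unfold D1 Cfg.G
    rw [hh, mul_sub, mul_add, mul_add, ← Real.exp_add, ← Real.exp_add, ← Real.exp_add, ha, hb, hc]
    rw [show -(2 * y) + -(B - y + (C - y)) = -(C + B) by ring,
      show -(2 * y) + -(A - y + (C - y)) = -(A + C) by ring,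
      show -(2 * y) + -(A - y + (B - y)) = -(B + A) by ring]
    ring
  have e3 : D3 A B C y = h ^ 3 * Cfg.P3 a b c := by
    unfold D3 Cfg.P3
    rw [hh, ← Real.exp_nat_mul, mul_sub, mul_add, mul_add, ← Real.exp_add, ← Real.exp_add,
      ← Real.exp_add, ha, hb, hc]
    rw [show ((3 : ℕ) : ℝ) * -(2 * y) + -(A - y + (B - y) + (C - y) + 3 * (A - y))
        = -(B + C + 4 * A) by push_cast; ring,
      show ((3 : ℕ) : ℝ) * -(2 * y) + -(A - y + (B - y) + (C - y) + 3 * (B - y))
        = -(C + A + 4 * B) by push_cast; ring,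
      show ((3 : ℕ) : ℝ) * -(2 * y) + -(A - y + (B - y) + (C - y) + 3 * (C - y))
        = -(A + B + 4 * C) by push_cast; ring,
      show ((3 : ℕ) : ℝ) * -(2 * y) = -(6 * y) by push_cast; ring]
    ring
  have e4 : D4 A B C y = h ^ 4 * Cfg.P4 a b c := by
    have hh4 : h ^ 4 = Real.exp (-(8 * y)) := by
      rw [hh, ← Real.exp_nat_mul]; congr 1; push_cast; ring
    have p1 : Real.exp (-(8 * y)) * Real.exp (-(4 * (b + c))) = Real.exp (-(4 * (C + B))) := by
      rw [← Real.exp_add, hb, hc]; congr 1; ring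
    have p2 : Real.exp (-(8 * y)) * Real.exp (-(4 * (a + c))) = Real.exp (-(4 * (A + C))) := by
      rw [← Real.exp_add, ha, hc]; congr 1; ring
    have p3 : Real.exp (-(8 * y)) * Real.exp (-(4 * (a + b))) = Real.exp (-(4 * (B + A))) := by
      rw [← Real.exp_add, ha, hb]; congr 1; ring
    unfold D4 Cfg.P4
    rw [hh4, ← p1, ← p2, ← p3]
    ring
  have eS : A + B + C - 3 * y = a + b + c := by rw [ha, hb, hc]; ring
  have a3 : |D3 A B C y| = h ^ 3 * |Cfg.P3 a b c| := by rw [e3, scale_abs _ _ (by positivity)]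
  have a4 : |D4 A B C y| = h ^ 4 * |Cfg.P4 a b c| := by rw [e4, scale_abs _ _ (by positivity)]
  by_cases hu : a + b ≤ 1
  · right
    have hD := hcfg.D_le
    have hu0 := hcfg.u_nonneg
    have hab := hcfg.hab
    have hidS := hcfg.idS
    have hne2 : 0 < 3 * (a + b) ^ 2 + (a - b) ^ 2 := by
      by_contra hcon
      push Not at hcon
      have h1 : a - b = 0 := by nlinarith [sq_nonneg (a + b), sq_nonneg (a - b)]
      have h2 : a + b = 0 := by nlinarith [sq_nonneg (a + b), sq_nonneg (a - b)]
      have h3 : a = 0 := by linarith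
      have h4 : b = 0 := by linarith
      have h5 := hcfg.hc
      rw [h3, h4] at h5
      have h6 : c = 0 := by
        have : 2 * y * c = 0 := by linarith
        rcases mul_eq_zero.1 this with h | h
        · linarith
        · exact h
      apply hne; linarith
    refine ⟨?_, ?_⟩
    · rw [eS]
      have hD2 : (a - b) ^ 2 ≤ 4.1209 := by nlinarith
      have hs : 0 < 2 * y + (a + b) := by linarith
      have h1 : 3 * (a + b) ^ 2 + (a - b) ^ 2 ≤ 4 * (2 * y + (a + b)) * (0.25 * y) := by nlinarith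
      rw [← hidS] at h1
      have h2 : 0 < 4 * (2 * y + (a + b)) := by linarith
      exact le_of_mul_le_mul_left h1 h2
    · have hcore := hcfg.core_I hu hne2
      rw [← hh] at hcore
      rw [a3, a4, e1, eS]
      have hexp : Real.exp (-2) * Real.exp (-(7 * (4 / 3 * y - 2 / 7))) =
          h * Real.exp (-(22 / 3 * y)) := by
        rw [hh, ← Real.exp_add, ← Real.exp_add]; congr 1; ring
      have h1 := mul_lt_mul_of_pos_left hcore h0
      have h2 : 49 * Real.exp (-2) * ((a + b + c) * (a + b + c + 2 * y)) *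
          Real.exp (-(7 * (4 / 3 * y - 2 / 7))) * 229.4 =
          h * (11240.6 * ((a + b + c) * (a + b + c + 2 * y)) * Real.exp (-(22 / 3 * y))) := by
        calc _ = 49 * (Real.exp (-2) * Real.exp (-(7 * (4 / 3 * y - 2 / 7)))) *
              ((a + b + c) * (a + b + c + 2 * y)) * 229.4 := by ring
          _ = _ := by rw [hexp]; ring
      rw [h2]
      calc _ = h * (6 * h ^ 2 * |Cfg.P3 a b c| + 6 * h ^ 3 * |Cfg.P4 a b c| +
            11240.6 * ((a + b + c) * (a + b + c + 2 * y)) * Real.exp (-(22 / 3 * y))) := by ring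
        _ < _ := h1
        _ = _ := by ring
  · left
    push Not at hu
    refine ⟨?_, ?_⟩
    · rw [eS]
      -- S (2y - t) = t² - bc
      obtain ⟨t, ht⟩ : ∃ t, t = -(b + c) := ⟨_, rfl⟩
      have ht1 := hcfg.t_le
      have ht0 : 0 ≤ -(b + c) := by linarith [hcfg.bc_nonpos]
      rw [← ht] at ht1 ht0
      have hcy := hcfg.hcy
      have hbc := hcfg.hbc
      have h1 : (a + b + c) * (2 * y - t) = t ^ 2 - b * c := by
        rw [ht]; linear_combination hcfg.hc
      have h2 : -(b * c) ≤ y ^ 2 - t * y := by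
        have hb' : b = -t - c := by linarith
        rw [hb']
        have h3 : (c + y) * (c - y + t) ≤ 0 := by
          apply mul_nonpos_of_nonneg_of_nonpos
          · linarith
          · linarith
        nlinarith
      have h3 : t ^ 2 + (y ^ 2 - t * y) ≤ 0.55 * y * (2 * y - t) := by nlinarith
      have h4 : 0 < 2 * y - t := by linarith
      have h5 : (a + b + c) * (2 * y - t) ≤ 0.55 * y * (2 * y - t) := by linarith
      exact le_of_mul_le_mul_right h5 h4
    · have hcore := hcfg.core_II hu.le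
      rw [← hh] at hcore
      rw [a3, a4, e1]
      have hexp : Real.exp (-(7 * (1.1 * y))) = h * Real.exp (-(5.7 * y)) := by
        rw [hh, ← Real.exp_add]; congr 1; ring
      have h1 := mul_lt_mul_of_pos_left hcore h0
      rw [hexp]
      calc _ = h * (6 * h ^ 2 * |Cfg.P3 a b c| + 6 * h ^ 3 * |Cfg.P4 a b c| +
            688.2 * Real.exp (-(5.7 * y))) := by ring
        _ < _ := h1
        _ = _ := by ring

theorem core_any (hy : 1.8136 ≤ y) (hA : 0 ≤ A) (hB : 0 ≤ B) (hC : 0 ≤ C)
    (hABC : A * B + B * C + C * A = 3 * y ^ 2) (hne : ¬ (A = B ∧ B = C))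
    (h1 : Real.exp (-(B + C)) ≤ 3.02 * Real.exp (-(2 * y)))
    (h2 : Real.exp (-(A + C)) ≤ 3.02 * Real.exp (-(2 * y)))
    (h3 : Real.exp (-(A + B)) ≤ 3.02 * Real.exp (-(2 * y))) : CoreIneq A B C y := by
  have hcase : ∀ A B C : ℝ, 0 ≤ C → C ≤ B → B ≤ A → A * B + B * C + C * A = 3 * y ^ 2 →
      ¬ (A = B ∧ B = C) → Real.exp (-(B + C)) ≤ 3.02 * Real.exp (-(2 * y)) →
      CoreIneq A B C y := by
    intro A B C hC hCB hBA hABC hne hn
    refine core_sorted hy hC hCB hBA hABC ?_ hn
    intro h
    exact hne ⟨le_antisymm (by linarith) hBA, le_antisymm (by linarith) hCB⟩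
  rcases le_total A B with hab | hab <;> rcases le_total B C with hbc | hbc <;>
    rcases le_total A C with hac | hac
  · -- A ≤ B ≤ C : sorted (C, B, A)
    have := hcase C B A hA hab hbc (by linarith) (fun h => hne ⟨by rw [h.2], by rw [h.1]⟩)
      (by rw [add_comm B A]; exact h3)
    exact CoreIneq_rot (CoreIneq_swap this)
  · have hAB : A = B := by linarith
    have hBC : B = C := by linarith
    exact absurd ⟨hAB, hBC⟩ hne
  · -- A ≤ C ≤ B : sorted (B, C, A)
    have := hcase B C A hA hac hbc (by linarith) (fun h => hne ⟨by rw [← h.2, ← h.1], h.1⟩)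
      (by rw [add_comm C A]; exact h2)
    exact CoreIneq_rot this
  · -- C ≤ A ≤ B : sorted (B, A, C)
    have := hcase B A C hC hac hab (by linarith) (fun h => hne ⟨h.1.symm, by rw [h.1, h.2]⟩)
      h2
    exact CoreIneq_swap this
  · -- B ≤ A, B ≤ C, A ≤ C : sorted (C, A, B)
    have := hcase C A B hB hab hac (by linarith) (fun h => hne ⟨h.2, by rw [← h.2, ← h.1]⟩)
      (by exact h3)
    exact CoreIneq_rot (CoreIneq_rot this)
  · -- B ≤ C ≤ A : sorted (A, C, B)
    have := hcase A C B hB hbc hac (by linarith) (fun h => hne ⟨by rw [h.1, h.2], h.2.symm⟩)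
      (by rw [add_comm C B]; exact h1)
    exact CoreIneq_rot (CoreIneq_rot (CoreIneq_swap this))
  · have hAB : A = B := by linarith
    have hBC : B = C := by linarith
    exact absurd ⟨hAB, hBC⟩ hne
  · exact hcase A B C hC hbc hab hABC hne h1

/-- comparison with the hexagonal lattice for Selling parameters -/
theorem selling_compare (hM : 0 < M.det) (hH : H.det = M.det)
    (hwM : ∀ k, wt M k = cc A B C k) (hwH : ∀ k, wt H k = cc y y y k) (hy : 1.8136 ≤ y)
    (hA : 0 ≤ A) (hB : 0 ≤ B) (hC : 0 ≤ C)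
    (hABC : A * B + B * C + C * A = 3 * y ^ 2) (hne : ¬ (A = B ∧ B = C)) :
    aval M < aval H ∧ bval H < bval M := by
  have hy2 : 0 < y ^ 2 := by positivity
  have hposAC : 0 < A + C := by
    by_contra h
    push Not at h
    have h1 : A = 0 := by linarith
    have h2 : C = 0 := by linarith
    rw [h1, h2] at hABC; nlinarith
  have hposBA : 0 < B + A := by
    by_contra h
    push Not at h
    have h1 : A = 0 := by linarith
    have h2 : B = 0 := by linarith
    rw [h1, h2] at hABC; nlinarith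
  have hposCB : 0 < C + B := by
    by_contra h
    push Not at h
    have h1 : C = 0 := by linarith
    have h2 : B = 0 := by linarith
    rw [h1, h2] at hABC; nlinarith
  by_cases f1 : 3.02 * Real.exp (-(2 * y)) ≤ Real.exp (-(A + C))
  · exact far_compare hM hH hwM hwH hy hposAC f1
  by_cases f2 : 3.02 * Real.exp (-(2 * y)) ≤ Real.exp (-(B + A))
  · have hw' : ∀ k, wt (mulZ M R3) k = cc B C A k := by
      intro k
      rw [wt_mulZ M R3 det_R3, actZ_R3, hwM, cc_e3]
    have := far_compare (M := mulZ M R3) (H := H) (by rw [det_mulZ M R3 det_R3]; exact hM)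
      (by rw [det_mulZ M R3 det_R3]; exact hH) hw' hwH hy hposBA f2
    rwa [aval_mulZ M R3 det_R3, bval_mulZ M R3 det_R3] at this
  by_cases f3 : 3.02 * Real.exp (-(2 * y)) ≤ Real.exp (-(C + B))
  · have hw' : ∀ k, wt (mulZ M R32) k = cc C A B k := by
      intro k
      rw [wt_mulZ M R32 det_R32, actZ_R32, hwM, cc_e3_symm]
    have := far_compare (M := mulZ M R32) (H := H) (by rw [det_mulZ M R32 det_R32]; exact hM)
      (by rw [det_mulZ M R32 det_R32]; exact hH) hw' hwH hy hposCB f3
    rwa [aval_mulZ M R32 det_R32, bval_mulZ M R32 det_R32] at this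
  push Not at f1 f2 f3
  have hcore := core_any hy hA hB hC hABC hne (by rw [add_comm B C]; exact f3.le) f1.le
    (by rw [add_comm A B]; exact f2.le)
  have hsum : 3 * y ≤ A + B + C := by
    by_contra h
    push Not at h
    nlinarith [sq_nonneg (A - B), sq_nonneg (B - C), sq_nonneg (C - A)]
  rcases hcore with ⟨hS, hc⟩ | ⟨hS, hc⟩
  · exact near_compare hM hH hwM hwH hy 3 (1.1 * y) (by norm_num) (by linarith)
      (fun k _ => tail_II A B C y (by linarith) hABC hsum hS k) hc
  · have hS0 : 0 ≤ (A + B + C - 3 * y) * (A + B + C - 3 * y + 2 * y) := by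
      apply mul_nonneg <;> linarith
    exact near_compare hM hH hwM hwH hy _ (4 / 3 * y - 2 / 7) (by positivity) (by linarith)
      (fun k hk => tail_I A B C y (by linarith) hABC hsum hS k hk) hc

end MP7e122f
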