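import Pool.Agent.Lib.MP_7e122f_an.Theta1

open MeasureTheory Complex

namespace MP7e122f

def Nf (k : ℤ × ℤ) : ℤ := k.1 ^ 2 + k.1 * k.2 + k.2 ^ 2

def S1 : Finset (ℤ × ℤ) := {(1, 0), (-1, 0), (0, 1), (0, -1), (1, -1), (-1, 1)}
def S3 : Finset (ℤ × ℤ) := {(1, 1), (-1, -1), (1, -2), (-1, 2), (2, -1), (-2, 1)}
def S4 : Finset (ℤ × ℤ) := {(2, 0), (-2, 0), (0, 2), (0, -2), (2, -2), (-2, 2)}
def F19 : Finset (ℤ × ℤ) := {(0, 0)} ∪ S1 ∪ S3 ∪ S4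

lemma Nf_ge_seven {k : ℤ × ℤ} (hk : k ∉ F19) : 7 ≤ Nf k := by
  by_contra h
  push Not at h
  obtain ⟨m, n⟩ := k
  unfold Nf at h
  simp only at h
  have h1 : m ≤ 2 := by nlinarith [sq_nonneg (m + 2 * n)]
  have h2 : -2 ≤ m := by nlinarith [sq_nonneg (m + 2 * n)]
  have h3 : n ≤ 2 := by nlinarith [sq_nonneg (2 * m + n)]
  have h4 : -2 ≤ n := by nlinarith [sq_nonneg (2 * m + n)]
  apply hk
  interval_cases m <;> interval_cases n <;> first | decide | (exfalso; revert h; decide)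

lemma sum_F19 (g : ℤ × ℤ → ℝ) : ∑ k ∈ F19, g k =
    g (0, 0) + ∑ k ∈ S1, g k + ∑ k ∈ S3, g k + ∑ k ∈ S4, g k := by
  unfold F19
  rw [Finset.sum_union (by decide), Finset.sum_union (by decide), Finset.sum_union (by decide),
    Finset.sum_singleton]

lemma num_tail : Real.exp (11 / 6) * ((1 + Real.exp (-(1 / 3))) / (1 - Real.exp (-(1 / 3)))) ^ 2
    ≤ 229.4 := by
  set E := Real.exp (1 / 6) with hE
  have hE0 : 0 < E := Real.exp_pos _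
  have h6 : E ^ 6 = Real.exp 1 := by rw [hE, ← Real.exp_nat_mul]; norm_num
  have hlo : 1.18136 < E := by
    by_contra h
    push Not at h
    have : E ^ 6 ≤ 1.18136 ^ 6 := by gcongr
    have h2 := Real.exp_one_gt_d9
    norm_num at this
    linarith
  have hhi : E < 1.18137 := by
    by_contra h
    push Not at h
    have : (1.18137 : ℝ) ^ 6 ≤ E ^ 6 := by gcongr
    have h2 := Real.exp_one_lt_d9
    norm_num at this
    linarith
  have e1 : Real.exp (11 / 6) = E ^ 11 := by rw [hE, ← Real.exp_nat_mul]; congr 1; norm_num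
  have e2 : Real.exp (-(1 / 3)) = (E ^ 2)⁻¹ := by
    rw [hE, ← Real.exp_nat_mul, ← Real.exp_neg]; congr 1; norm_num
  rw [e1, e2]
  have hE2 : 1.395611 ≤ E ^ 2 := by nlinarith
  have e3 : (1 + (E ^ 2)⁻¹) / (1 - (E ^ 2)⁻¹) = 1 + 2 / (E ^ 2 - 1) := by
    have : E ^ 2 - 1 ≠ 0 := by nlinarith
    field_simp
    ring
  rw [e3]
  have h7 : 2 / (E ^ 2 - 1) ≤ 2 / 0.395611 := by
    apply div_le_div_of_nonneg_left (by norm_num) (by norm_num) (by linarith)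
  have h8 : 0 < 2 / (E ^ 2 - 1) := by
    apply div_pos (by norm_num); linarith
  calc E ^ 11 * (1 + 2 / (E ^ 2 - 1)) ^ 2 ≤ 1.18137 ^ 11 * (1 + 2 / 0.395611) ^ 2 := by
        gcongr
    _ ≤ 229.4 := by norm_num

lemma hasSum_prod_geom (r : ℝ) (h0 : 0 ≤ r) (h1 : r < 1) :
    HasSum (fun k : ℤ × ℤ => r ^ k.1.natAbs * r ^ k.2.natAbs) (((1 + r) / (1 - r)) ^ 2) := by
  have h := hasSum_geom_int r h0 h1
  have hs : Summable fun k : ℤ × ℤ => r ^ k.1.natAbs * r ^ k.2.natAbs :=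
    h.summable.mul_of_nonneg h.summable (fun n => by positivity) (fun n => by positivity)
  have := h.mul h hs
  rw [pow_two]
  exact this

/-- tail estimate outside the first shells -/
lemma tail_bound (g : ℤ × ℤ → ℝ) (hg : Summable g) (K ρ : ℝ) (hK0 : 0 ≤ K) (hρ : 1 / 6 ≤ ρ)
    (hK : ∀ k ∉ F19, |g k| ≤ K * Real.exp (-ρ * Nf k)) :
    |∑' k, g k - ∑ k ∈ F19, g k| ≤ K * Real.exp (-(7 * ρ)) * 229.4 := by
  set r := Real.exp (-(1 / 3)) with hr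
  have hr0 : 0 < r := Real.exp_pos _
  have hr1 : r < 1 := Real.exp_lt_one_iff.2 (by norm_num)
  have hG := hasSum_prod_geom r hr0.le hr1
  set C := K * Real.exp (-(7 * ρ)) * Real.exp (11 / 6) with hC
  have hC0 : 0 ≤ C := by positivity
  have hpt : ∀ k ∉ F19, |g k| ≤ C * (r ^ k.1.natAbs * r ^ k.2.natAbs) := by
    intro k hk
    refine (hK k hk).trans ?_
    rw [hC, mul_assoc, mul_assoc K]
    apply mul_le_mul_of_nonneg_left _ hK0
    rw [hr, ← Real.exp_nat_mul, ← Real.exp_nat_mul, ← Real.exp_add, ← Real.exp_add,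
      ← Real.exp_add, Real.exp_le_exp]
    have h7 : (7 : ℝ) ≤ Nf k := by exact_mod_cast Nf_ge_seven hk
    have h8 : ((k.1 : ℝ) ^ 2 + (k.2 : ℝ) ^ 2) / 2 ≤ Nf k := by
      unfold Nf; push_cast
      nlinarith [sq_nonneg ((k.1 : ℝ) + k.2)]
    have h9 : ((k.1.natAbs : ℝ) - 2) ^ 2 ≥ 0 := sq_nonneg _
    have h10 : ((k.2.natAbs : ℝ) - 2) ^ 2 ≥ 0 := sq_nonneg _
    have e1 : ((k.1.natAbs : ℝ)) ^ 2 = (k.1 : ℝ) ^ 2 := by
      rw [Nat.cast_natAbs, Int.cast_abs, sq_abs]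
    have e2 : ((k.2.natAbs : ℝ)) ^ 2 = (k.2 : ℝ) ^ 2 := by
      rw [Nat.cast_natAbs, Int.cast_abs, sq_abs]
    nlinarith [mul_nonneg (sub_nonneg.2 hρ) (sub_nonneg.2 h7)]
  -- remove the finite part
  have hsplit := hg.sum_add_tsum_subtype_compl F19
  have hb : Summable fun k : ℤ × ℤ => C * (r ^ k.1.natAbs * r ^ k.2.natAbs) :=
    hG.summable.mul_left C
  have hb' : Summable fun k : {k : ℤ × ℤ // k ∉ F19} =>
      C * (r ^ (k : ℤ × ℤ).1.natAbs * r ^ (k : ℤ × ℤ).2.natAbs) := hb.subtype _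
  have hg' : Summable fun k : {k : ℤ × ℤ // k ∉ F19} => ‖g k‖ := hg.norm.subtype _
  have h1 : |∑' k, g k - ∑ k ∈ F19, g k| ≤ ∑' k : {k : ℤ × ℤ // k ∉ F19}, ‖g k‖ := by
    rw [← hsplit, add_sub_cancel_left, ← Real.norm_eq_abs]
    exact norm_tsum_le_tsum_norm hg'
  have h2 : ∑' k : {k : ℤ × ℤ // k ∉ F19}, ‖g k‖ ≤
      ∑' k : {k : ℤ × ℤ // k ∉ F19}, C * (r ^ (k : ℤ × ℤ).1.natAbs * r ^ (k : ℤ × ℤ).2.natAbs) :=
    Summable.tsum_le_tsum (fun k => hpt k k.2) hg' hb'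
  have h3 : ∑' k : {k : ℤ × ℤ // k ∉ F19}, C * (r ^ (k : ℤ × ℤ).1.natAbs * r ^ (k : ℤ × ℤ).2.natAbs)
      ≤ ∑' k : ℤ × ℤ, C * (r ^ k.1.natAbs * r ^ k.2.natAbs) :=
    hb.tsum_subtype_le (fun k : ℤ × ℤ => C * (r ^ k.1.natAbs * r ^ k.2.natAbs)) {k | k ∉ F19}
      (fun k => by positivity)
  have h4 : ∑' k : ℤ × ℤ, C * (r ^ k.1.natAbs * r ^ k.2.natAbs)
      = K * Real.exp (-(7 * ρ)) * (Real.exp (11 / 6) * ((1 + r) / (1 - r)) ^ 2) := by
    rw [tsum_mul_left, hG.tsum_eq, hC]; ring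
  have h5 := num_tail
  rw [← hr] at h5
  have h6 : 0 ≤ K * Real.exp (-(7 * ρ)) := by positivity
  calc |∑' k, g k - ∑ k ∈ F19, g k|
      ≤ K * Real.exp (-(7 * ρ)) * (Real.exp (11 / 6) * ((1 + r) / (1 - r)) ^ 2) := by
        linarith
    _ ≤ _ := by gcongr

end MP7e122f
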