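import Pool.Agent.Lib.MP_7e122f_an.Frame

open MeasureTheory Complex
open scoped ComplexInnerProductSpace ENNReal

namespace MP7e122f

noncomputable def zr (M : Mat) (y : ℝ × ℝ) : ℝ × ℝ :=
  ((act M y).1 / M.det, (act M y).2 / M.det)

lemma zet_eq_zr (M : Mat) (k : ℤ × ℤ) : zet M k = zr M (cst k) := rfl

/-- real binary quadratic form -/
def qf (P : ℝ × ℝ × ℝ) (y : ℝ × ℝ) : ℝ :=
  P.1 * y.1 ^ 2 + 2 * P.2.1 * y.1 * y.2 + P.2.2 * y.2 ^ 2

/-- the exponent form of the generalized Gaussian -/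
noncomputable def Ef (α β : ℝ) (z : ℝ × ℝ) : ℝ := α * z.1 ^ 2 + (z.2 + β * z.1) ^ 2 / α

lemma exists_gauss (M : Mat) (hM : 0 < M.det) (P : ℝ × ℝ × ℝ) (hP : 0 < P.1)
    (hdet : P.1 * P.2.2 - P.2.1 ^ 2 = (1 / M.det) ^ 2) :
    ∃ α β : ℝ, 0 < α ∧ ∀ y, Ef α β (zr M y) = qf P y := by
  obtain ⟨p, q, r⟩ := P
  simp only at hP hdet
  have hd : M.det = M 0 0 * M 1 1 - M 0 1 * M 1 0 := Matrix.det_fin_two M
  unfold Ef zr act qf
  generalize M.det = D at *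
  generalize M 0 0 = a at *
  generalize M 0 1 = b at *
  generalize M 1 0 = c at *
  generalize M 1 1 = d at *
  have hdet2 : (p * r - q ^ 2) * D ^ 2 = 1 := by
    rw [hdet]; field_simp
  have hR : 0 < p * b ^ 2 - 2 * q * a * b + r * a ^ 2 := by
    have h1 : 0 < p * (p * b ^ 2 - 2 * q * a * b + r * a ^ 2) := by
      have e : p * (p * b ^ 2 - 2 * q * a * b + r * a ^ 2)
          = (p * b - q * a) ^ 2 + (p * r - q ^ 2) * a ^ 2 := by ring
      rw [e, hdet]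
      by_cases ha : a = 0
      · have hb : b ≠ 0 := by
          rintro rfl
          rw [ha] at hd; simp at hd; linarith
        rw [ha]
        have : 0 < (p * b) ^ 2 := by positivity
        simpa using this
      · positivity
    exact (mul_pos_iff_of_pos_left hP).1 h1
  set R := p * b ^ 2 - 2 * q * a * b + r * a ^ 2 with hRdef
  set S := -(p * b * d) + q * (a * d + b * c) - r * a * c with hSdef
  refine ⟨1 / R, S / R, by positivity, fun y => ?_⟩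
  have key : R * (p * d ^ 2 - 2 * q * c * d + r * c ^ 2) - S ^ 2 = 1 := by
    rw [← hdet2, hd, hRdef, hSdef]; ring
  simp only
  have hDne : D ≠ 0 := hM.ne'
  obtain ⟨x, hx⟩ : ∃ x, x = (a * y.1 + b * y.2) / D := ⟨_, rfl⟩
  obtain ⟨w, hw⟩ : ∃ w, w = (c * y.1 + d * y.2) / D := ⟨_, rfl⟩
  rw [← hx, ← hw]
  have e1 : y.1 = d * x - b * w := by
    rw [hx, hw]; field_simp; rw [hd]; ring
  have e2 : y.2 = -c * x + a * w := by
    rw [hx, hw]; field_simp; rw [hd]; ring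
  have e3 : 1 / R * x ^ 2 + (w + S / R * x) ^ 2 / (1 / R) = ((1 + S ^ 2) / R) * x ^ 2
      + 2 * S * x * w + R * w ^ 2 := by
    field_simp
    ring
  have e4 : (1 + S ^ 2) / R = p * d ^ 2 - 2 * q * c * d + r * c ^ 2 := by
    rw [div_eq_iff hR.ne']; linarith
  rw [e3, e4, e1, e2, hRdef, hSdef]
  ring

/-- the kernel, depending only on `δ = 1 / det M` and `P` -/
noncomputable def Kern (δ : ℝ) (P : ℝ × ℝ × ℝ) (y : ℝ × ℝ) (k : ℤ × ℤ) (y' : ℝ × ℝ) : ℂ :=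
  cexp (Real.pi * I * δ * ((k.2 * y'.1 - k.1 * y'.2)
    + (y.1 * (k.2 + y'.2) - y.2 * (k.1 + y'.1)))) *
  cexp (-(Real.pi / 2) * qf P (y.1 - k.1 - y'.1, y.2 - k.2 - y'.2))

lemma kern_eq (M : Mat) (hM : 0 < M.det) (P : ℝ × ℝ × ℝ) (α β : ℝ) (hα : 0 < α)
    (hE : ∀ y, Ef α β (zr M y) = qf P y) (y : ℝ × ℝ) (k : ℤ × ℤ) (y' : ℝ × ℝ) :
    ⟪gv α β hα (zr M y), rho (zet M k) (gv α β hα (zr M y'))⟫ = Kern (1 / M.det) P y k y' := by
  rw [rho_gv, inner_smul_right, inner_gv]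
  unfold Kern
  rw [← hE, ← mul_assoc, ← Complex.exp_add]
  have hD : (M.det : ℂ) ≠ 0 := by exact_mod_cast hM.ne'
  have hd : (M.det : ℂ) = M 0 0 * M 1 1 - M 0 1 * M 1 0 := by
    rw [Matrix.det_fin_two]; push_cast; ring
  congr 2
  · unfold zet lam zr act cst
    simp only [Prod.fst_add, Prod.snd_add]
    push_cast
    generalize (M.det : ℂ) = D at *
    have hD2 : D ^ 2 = D * (M 0 0 * M 1 1 - M 0 1 * M 1 0) := by rw [← hd]; ring
    field_simp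
    rw [hd]
    ring
  · unfold Ef zet lam zr act cst
    simp only [Prod.fst_add, Prod.snd_add]
    push_cast
    congr 1
    ring

lemma zr_surj (M : Mat) (hM : 0 < M.det) (z : ℝ × ℝ) : ∃ y, zr M y = z := by
  refine ⟨(M 1 1 * z.1 - M 0 1 * z.2, -M 1 0 * z.1 + M 0 0 * z.2), ?_⟩
  have hd : M.det = M 0 0 * M 1 1 - M 0 1 * M 1 0 := Matrix.det_fin_two M
  unfold zr act
  ext
  · simp only
    rw [div_eq_iff hM.ne', hd]; ring
  · simp only
    rw [div_eq_iff hM.ne', hd]; ring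

noncomputable def VV (M : Mat) (α β : ℝ) (hα : 0 < α) (c : (ℝ × ℝ) →₀ ℂ) : L2 :=
  c.sum fun y a => a • gv α β hα (zr M y)

lemma inner_VV (M : Mat) (hM : 0 < M.det) (P : ℝ × ℝ × ℝ) (α β : ℝ) (hα : 0 < α)
    (hE : ∀ y, Ef α β (zr M y) = qf P y) (c : (ℝ × ℝ) →₀ ℂ) (k : ℤ × ℤ) :
    ⟪VV M α β hα c, rho (zet M k) (VV M α β hα c)⟫ =
      ∑ y ∈ c.support, ∑ y' ∈ c.support,
        (starRingEnd ℂ) (c y) * (c y' * Kern (1 / M.det) P y k y') := by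
  unfold VV Finsupp.sum
  rw [sum_inner]
  refine Finset.sum_congr rfl fun y _ => ?_
  rw [map_sum, inner_sum]
  refine Finset.sum_congr rfl fun y' _ => ?_
  rw [map_smul, inner_smul_left, inner_smul_right, kern_eq M hM P α β hα hE]

lemma rho_zero (f : L2) : rho (0, 0) f = f := by
  apply Lp.ext
  filter_upwards [rho_coe (0, 0) f] with t a
  rw [a]
  unfold ef
  simp

lemma zet_zero (M : Mat) : zet M (0, 0) = (0, 0) := by
  unfold zet lam act cst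
  simp

lemma inner_self_zet (M : Mat) (f : L2) : ⟪f, rho (zet M (0, 0)) f⟫ = ((‖f‖ ^ 2 : ℝ) : ℂ) := by
  rw [zet_zero, rho_zero, inner_self_eq_norm_sq_to_K]
  push_cast
  rfl

lemma norm_eq_of_state {M M' : Mat} {f f' : L2}
    (h : ⟪f', rho (zet M' (0, 0)) f'⟫ = ⟪f, rho (zet M (0, 0)) f⟫) : ‖f'‖ = ‖f‖ := by
  rw [inner_self_zet, inner_self_zet] at h
  have : ‖f'‖ ^ 2 = ‖f‖ ^ 2 := by exact_mod_cast h
  exact (pow_left_inj₀ (norm_nonneg _) (norm_nonneg _) two_ne_zero).1 this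

theorem transfer_exact (M M' : Mat) (hM : 0 < M.det) (hM' : M'.det = M.det) {f : L2}
    (hf : f ∈ gspan) :
    ∃ f' : L2, ∀ k, ⟪f', rho (zet M' k) f'⟫ = ⟪f, rho (zet M k) f⟫ := by
  have hspan : gspan = Submodule.span ℂ (Set.range fun y => gv 1 0 one_pos (zr M y)) := by
    unfold gspan
    congr 1
    ext v
    constructor
    · rintro ⟨z, rfl⟩
      obtain ⟨y, rfl⟩ := zr_surj M hM z
      exact ⟨y, rfl⟩
    · rintro ⟨y, rfl⟩
      exact ⟨_, rfl⟩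
  rw [hspan, Finsupp.mem_span_range_iff_exists_finsupp] at hf
  obtain ⟨c, rfl⟩ := hf
  set P : ℝ × ℝ × ℝ := (((M 0 0) ^ 2 + (M 1 0) ^ 2) / M.det ^ 2,
    (M 0 0 * M 0 1 + M 1 0 * M 1 1) / M.det ^ 2, ((M 0 1) ^ 2 + (M 1 1) ^ 2) / M.det ^ 2) with hP
  have hE : ∀ y, Ef 1 0 (zr M y) = qf P y := by
    intro y
    unfold Ef zr act qf
    rw [hP]
    simp only
    ring
  have hP1 : 0 < P.1 := by
    have := col_pos M hM.ne'
    rw [hP]; positivity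
  have hP2 : P.1 * P.2.2 - P.2.1 ^ 2 = (1 / M'.det) ^ 2 := by
    have h1 := disc_eq M
    rw [hM', hP]
    simp only
    field_simp
    linarith
  obtain ⟨α, β, hα, hE'⟩ := exists_gauss M' (hM' ▸ hM) P hP1 hP2
  refine ⟨VV M' α β hα c, fun k => ?_⟩
  have h1 := inner_VV M' (hM' ▸ hM) P α β hα hE' c k
  have h2 := inner_VV M hM P 1 0 one_pos hE c k
  rw [hM'] at h1
  rw [h1]
  exact h2.symm

/-- real part of the state attached to `f` -/
noncomputable def st (M : Mat) (f : L2) (k : ℤ × ℤ) : ℝ := (⟪f, rho (zet M k) f⟫).re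

lemma st_zero (M : Mat) (f : L2) (hf : ‖f‖ = 1) : st M f (0, 0) = 1 := by
  unfold st
  rw [inner_self_zet, hf]; simp

lemma abs_st_le (M : Mat) (f : L2) (hf : ‖f‖ = 1) (k : ℤ × ℤ) : |st M f k| ≤ 1 := by
  unfold st
  calc |(⟪f, rho (zet M k) f⟫).re| ≤ ‖⟪f, rho (zet M k) f⟫‖ := Complex.abs_re_le_norm _
    _ ≤ ‖f‖ * ‖rho (zet M k) f‖ := norm_inner_le_norm _ _
    _ ≤ ‖f‖ * ‖f‖ := mul_le_mul_of_nonneg_left (norm_rho_le _ _) (norm_nonneg _)
    _ = 1 := by rw [hf]; norm_num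

theorem transfer (M M' : Mat) (hM : 0 < M.det) (hM' : M'.det = M.det) (f : L2)
    (hf : ‖f‖ = 1) (ε : ℝ) (hε : 0 < ε) :
    ∃ f' : L2, ‖f'‖ = 1 ∧ ∀ k, |st M' f' k - st M f k| ≤ ε := by
  set η := min (1 / 2) (ε / 8) with hη
  have hηpos : 0 < η := by positivity
  obtain ⟨g, hg, hgf⟩ := Metric.dense_iff.1 dense_gspan f η hηpos
  have hgf' : ‖g - f‖ < η := by
    rw [Metric.mem_ball, dist_eq_norm] at hg; exact hg
  have hgn : |‖g‖ - 1| < η := by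
    rw [← hf]; exact (abs_norm_sub_norm_le g f).trans_lt hgf'
  have hg0 : 0 < ‖g‖ := by
    have : η ≤ 1 / 2 := min_le_left _ _
    rw [abs_lt] at hgn; linarith
  set g₁ : L2 := ((‖g‖⁻¹ : ℝ) : ℂ) • g with hg₁
  have hg₁s : g₁ ∈ gspan := Submodule.smul_mem _ _ hgf
  have hn : ‖g₁‖ = 1 := by
    rw [hg₁, norm_smul, Complex.norm_real, Real.norm_eq_abs, abs_of_pos (by positivity),
      inv_mul_cancel₀ hg0.ne']
  have hd1 : ‖g₁ - g‖ ≤ η := by
    have : g₁ - g = (((‖g‖⁻¹ - 1 : ℝ)) : ℂ) • g := by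
      rw [hg₁]; push_cast; rw [sub_smul, one_smul]
    rw [this, norm_smul, Complex.norm_real, Real.norm_eq_abs]
    have : |‖g‖⁻¹ - 1| * ‖g‖ = |‖g‖ - 1| := by
      nth_rewrite 2 [← abs_of_pos hg0]
      rw [← abs_mul, sub_mul, inv_mul_cancel₀ hg0.ne', one_mul, abs_sub_comm]
    rw [this]; exact hgn.le
  have hd2 : ‖g₁ - f‖ ≤ 2 * η := by
    calc ‖g₁ - f‖ = ‖(g₁ - g) + (g - f)‖ := by congr 1; abel
      _ ≤ ‖g₁ - g‖ + ‖g - f‖ := norm_add_le _ _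
      _ ≤ 2 * η := by linarith
  obtain ⟨f', hf'⟩ := transfer_exact M M' hM hM' hg₁s
  refine ⟨f', ?_, fun k => ?_⟩
  · rw [norm_eq_of_state (hf' (0, 0)), hn]
  · unfold st
    rw [hf' k, ← Complex.sub_re]
    calc |(⟪g₁, rho (zet M k) g₁⟫ - ⟪f, rho (zet M k) f⟫).re|
        ≤ ‖⟪g₁, rho (zet M k) g₁⟫ - ⟪f, rho (zet M k) f⟫‖ := Complex.abs_re_le_norm _
      _ = ‖⟪g₁ - f, rho (zet M k) g₁⟫ + ⟪f, rho (zet M k) (g₁ - f)⟫‖ := by
          congr 1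
          rw [inner_sub_left, map_sub, inner_sub_right]; ring
      _ ≤ ‖⟪g₁ - f, rho (zet M k) g₁⟫‖ + ‖⟪f, rho (zet M k) (g₁ - f)⟫‖ := norm_add_le _ _
      _ ≤ ‖g₁ - f‖ * ‖rho (zet M k) g₁‖ + ‖f‖ * ‖rho (zet M k) (g₁ - f)‖ := by
          gcongr <;> exact norm_inner_le_norm _ _
      _ ≤ ‖g₁ - f‖ * ‖g₁‖ + ‖f‖ * ‖g₁ - f‖ := by
          gcongr <;> exact norm_rho_le _ _
      _ = 2 * ‖g₁ - f‖ := by rw [hn, hf]; ring
      _ ≤ 2 * (2 * η) := by gcongr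
      _ ≤ ε := by
          have : η ≤ ε / 8 := min_le_right _ _
          linarith

/-- Gaussian test states -/
theorem gauss_state (M : Mat) (hM : 0 < M.det) (P : ℝ × ℝ × ℝ) (hP : 0 < P.1)
    (hdet : P.1 * P.2.2 - P.2.1 ^ 2 = (1 / M.det) ^ 2) (θ : ℝ × ℝ) :
    ∃ f : L2, ‖f‖ = 1 ∧ ∀ k : ℤ × ℤ, st M f k =
      Real.cos (2 * Real.pi * (θ.1 * k.1 + θ.2 * k.2)) * Real.exp (-(Real.pi / 2) * qf P (cst k)) := by
  obtain ⟨α, β, hα, hE⟩ := exists_gauss M hM P hP hdet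
  set y : ℝ × ℝ := (M.det * θ.2, -(M.det * θ.1)) with hy
  have key : ∀ k : ℤ × ℤ, ⟪gv α β hα (zr M y), rho (zet M k) (gv α β hα (zr M y))⟫ =
      cexp ((2 * Real.pi * (θ.1 * k.1 + θ.2 * k.2) : ℝ) * I) *
      ((Real.exp (-(Real.pi / 2) * qf P (cst k)) : ℝ) : ℂ) := by
    intro k
    rw [kern_eq M hM P α β hα hE]
    unfold Kern
    rw [Complex.ofReal_exp]
    congr 2
    · have hD : (M.det : ℂ) ≠ 0 := by exact_mod_cast hM.ne'
      rw [hy]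
      push_cast
      field_simp
      ring
    · unfold qf cst
      push_cast
      ring
  refine ⟨gv α β hα (zr M y), ?_, fun k => ?_⟩
  · have h := key (0, 0)
    rw [inner_self_zet] at h
    have h2 : ‖gv α β hα (zr M y)‖ ^ 2 = 1 := by
      have : ((‖gv α β hα (zr M y)‖ ^ 2 : ℝ) : ℂ) = ((1 : ℝ) : ℂ) := by
        rw [h]; simp [qf, cst]
      exact_mod_cast this
    nlinarith [norm_nonneg (gv α β hα (zr M y))]
  · unfold st
    rw [key k, Complex.re_mul_ofReal, Complex.exp_ofReal_mul_I_re]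

end MP7e122f
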