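import Pool.Agent.Lib.MP_7e122f_an.Compare2
import Pool.Agent.Lib.MP_7e122f_an.Core4

open MeasureTheory Complex

namespace MP7e122f

/-- lower bound of a form with Selling parameters by the hexagonal form -/
lemma form_lower (A B C y τ : ℝ) (hy : 0 < y) (_hτ0 : 0 < τ) (hτ1 : τ < 1)
    (hABC : A * B + B * C + C * A = 3 * y ^ 2) (hsum : 3 * y ≤ A + B + C)
    (hS : 2 * τ * (A + B + C - 3 * y) ≤ 3 * (1 - τ) ^ 2 * y) (m n : ℝ) :
    2 * (τ * y) * (m ^ 2 + m * n + n ^ 2) ≤ A * m ^ 2 + B * n ^ 2 + C * (m + n) ^ 2 := by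
  set p := A - τ * y with hp
  set q := B - τ * y with hq
  set r := C - τ * y with hr
  have hT : 0 < p + q + r := by
    have : p + q + r = A + B + C - 3 * (τ * y) := by rw [hp, hq, hr]; ring
    rw [this]; nlinarith
  have he : 0 ≤ p * q + q * r + r * p := by
    have : p * q + q * r + r * p = 3 * y ^ 2 - 2 * (τ * y) * (A + B + C) + 3 * (τ * y) ^ 2 := by
      rw [hp, hq, hr]; linear_combination hABC
    rw [this]
    nlinarith
  have hid : (p + q + r) * (p * m ^ 2 + q * n ^ 2 + r * (m + n) ^ 2) =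
      ((p + r) * m + r * n) ^ 2 - ((p + r) * m + r * n) * (r * m + (q + r) * n)
      + (r * m + (q + r) * n) ^ 2 + (p * q + q * r + r * p) * (m ^ 2 + m * n + n ^ 2) := by ring
  have hN : 0 ≤ m ^ 2 + m * n + n ^ 2 := by nlinarith [sq_nonneg (m + n), sq_nonneg m, sq_nonneg n]
  have hpos : 0 ≤ (p + q + r) * (p * m ^ 2 + q * n ^ 2 + r * (m + n) ^ 2) := by
    rw [hid]
    have h1 : 0 ≤ ((p + r) * m + r * n) ^ 2 - ((p + r) * m + r * n) * (r * m + (q + r) * n)
      + (r * m + (q + r) * n) ^ 2 := by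
      nlinarith [sq_nonneg (((p + r) * m + r * n) - (r * m + (q + r) * n)),
        sq_nonneg ((p + r) * m + r * n), sq_nonneg (r * m + (q + r) * n)]
    have h2 := mul_nonneg he hN
    linarith
  have h3 : 0 ≤ p * m ^ 2 + q * n ^ 2 + r * (m + n) ^ 2 := nonneg_of_mul_nonneg_right hpos hT
  have h4 : p * m ^ 2 + q * n ^ 2 + r * (m + n) ^ 2 = A * m ^ 2 + B * n ^ 2 + C * (m + n) ^ 2
      - 2 * (τ * y) * (m ^ 2 + m * n + n ^ 2) := by rw [hp, hq, hr]; ring
  linarith

lemma cc_le (A B C y τ : ℝ) (hy : 0 < y) (hτ0 : 0 < τ) (hτ1 : τ < 1)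
    (hABC : A * B + B * C + C * A = 3 * y ^ 2) (hsum : 3 * y ≤ A + B + C)
    (hS : 2 * τ * (A + B + C - 3 * y) ≤ 3 * (1 - τ) ^ 2 * y) (k : ℤ × ℤ) :
    cc A B C k ≤ Real.exp (-(2 * (τ * y)) * Nf k) := by
  unfold cc Nf
  rw [Real.exp_le_exp]
  have := form_lower A B C y τ hy hτ0 hτ1 hABC hsum hS k.1 k.2
  push_cast
  linarith

lemma cc_hex_le (y τ : ℝ) (hy : 0 < y) (hτ1 : τ < 1) (k : ℤ × ℤ) :
    cc y y y k ≤ Real.exp (-(2 * (τ * y)) * Nf k) := by
  rw [cc_hex, Real.exp_le_exp]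
  have hN : (0 : ℝ) ≤ Nf k := by
    unfold Nf; push_cast
    nlinarith [sq_nonneg ((k.1 : ℝ) + k.2), sq_nonneg (k.1 : ℝ), sq_nonneg (k.2 : ℝ)]
  have : τ * y ≤ y := by nlinarith
  nlinarith

lemma cc_pos (A B C : ℝ) (k : ℤ × ℤ) : 0 < cc A B C k := Real.exp_pos _

lemma tail_II (A B C y : ℝ) (hy : 0 < y)
    (hABC : A * B + B * C + C * A = 3 * y ^ 2) (hsum : 3 * y ≤ A + B + C)
    (hS : A + B + C - 3 * y ≤ 0.55 * y) (k : ℤ × ℤ) :
    |Dk A B C y k| ≤ 3 * Real.exp (-(1.1 * y) * Nf k) := by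
  have e : (1.1 * y) = 2 * (0.55 * y) := by ring
  rw [e]
  have h1 := cc_le A B C y 0.55 hy (by norm_num) (by norm_num) hABC hsum (by nlinarith) k
  have h2 := cc_le B C A y 0.55 hy (by norm_num) (by norm_num) (by linarith) (by linarith)
    (by nlinarith) k
  have h3 := cc_le C A B y 0.55 hy (by norm_num) (by norm_num) (by linarith) (by linarith)
    (by nlinarith) k
  have h4 := cc_hex_le y 0.55 hy (by norm_num) k
  have p1 := cc_pos A B C k
  have p2 := cc_pos B C A k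
  have p3 := cc_pos C A B k
  have p4 := cc_pos y y y k
  unfold Dk
  rw [abs_le]
  constructor <;> linarith

/-- second order estimate -/
lemma tail_I_raw (A B C y : ℝ) (hy : 1 ≤ y)
    (hABC : A * B + B * C + C * A = 3 * y ^ 2) (hsum : 3 * y ≤ A + B + C)
    (hS : A + B + C - 3 * y ≤ 0.25 * y) (k : ℤ × ℤ) (hk : k ∉ F19) :
    |Dk A B C y k| ≤ (Nf k : ℝ) ^ 2 * ((A + B + C - 3 * y) * (A + B + C - 3 * y + 2 * y)) *
      Real.exp (-(4 / 3 * y) * Nf k) := by
  have e : (4 / 3 * y) = 2 * (2 / 3 * y) := by ring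
  have hy0 : 0 < y := by linarith
  have h1 := cc_le A B C y (2 / 3) hy0 (by norm_num) (by norm_num) hABC hsum (by nlinarith) k
  have h2 := cc_le B C A y (2 / 3) hy0 (by norm_num) (by norm_num) (by linarith) (by linarith)
    (by nlinarith) k
  have h3 := cc_le C A B y (2 / 3) hy0 (by norm_num) (by norm_num) (by linarith) (by linarith)
    (by nlinarith) k
  have h4 := cc_hex_le y (2 / 3) hy0 (by norm_num) k
  rw [← e] at h1 h2 h3 h4
  set m := Real.exp (-(4 / 3 * y) * Nf k) with hm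
  have hm0 : 0 < m := Real.exp_pos _
  set S := A + B + C - 3 * y with hSdef
  have hS0 : 0 ≤ S := by linarith
  have hN7 : (7 : ℝ) ≤ Nf k := by exact_mod_cast Nf_ge_seven hk
  have hNeq : (Nf k : ℝ) = (k.1 : ℝ) ^ 2 + k.1 * k.2 + (k.2 : ℝ) ^ 2 := by
    unfold Nf; push_cast; ring
  set X := (k.1 : ℝ) ^ 2 with hX
  set Y := (k.2 : ℝ) ^ 2 with hY
  set W := ((k.1 : ℝ) + k.2) ^ 2 with hW
  set N := (Nf k : ℝ) with hN
  -- the three linear forms
  set a := A - y with ha
  set b := B - y with hb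
  set c := C - y with hc
  have hcon : 2 * y * (a + b + c) + (a * b + b * c + c * a) = 0 := by
    rw [ha, hb, hc]; linear_combination hABC
  have hXYW : X + Y + W = 2 * N := by rw [hNeq, hX, hY, hW]; ring
  have hsqXYW : X * Y + Y * W + W * X = N ^ 2 := by rw [hNeq, hX, hY, hW]; ring
  have r1 : cc A B C k = cc y y y k * Real.exp (-(a * X + b * Y + c * W)) := by
    unfold cc; rw [← Real.exp_add, ha, hb, hc]; congr 1; ring
  have r2 : cc B C A k = cc y y y k * Real.exp (-(b * X + c * Y + a * W)) := by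
    unfold cc; rw [← Real.exp_add, ha, hb, hc]; congr 1; ring
  have r3 : cc C A B k = cc y y y k * Real.exp (-(c * X + a * Y + b * W)) := by
    unfold cc; rw [← Real.exp_add, ha, hb, hc]; congr 1; ring
  have hp := cc_pos y y y k
  set g := cc y y y k with hg
  -- key estimate: g (e^{-L} - 1 + L) ≤ L²/2 · m
  have key : ∀ L : ℝ, g * Real.exp (-L) ≤ m → g * (Real.exp (-L) - 1 + L) ≤ L ^ 2 / 2 * m := by
    intro L hL
    rcases le_or_gt L 0 with h | h
    · -- -L ≥ 0
      have h5 : Real.exp (-L) - 1 - (-L) ≤ (-L) ^ 2 / 2 * Real.exp (-L) := by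
        have hq := exp_quad_pos (-L) (by linarith)
        have h6 : (1 : ℝ) ≤ Real.exp (-L) := Real.one_le_exp (by linarith)
        nlinarith [sq_nonneg L]
      calc g * (Real.exp (-L) - 1 + L) ≤ g * ((-L) ^ 2 / 2 * Real.exp (-L)) := by
            gcongr; linarith
        _ = L ^ 2 / 2 * (g * Real.exp (-L)) := by ring
        _ ≤ L ^ 2 / 2 * m := by gcongr
    · have hq := exp_quad (-L) 1 le_rfl (Real.exp_le_one_iff.2 (by linarith))
      calc g * (Real.exp (-L) - 1 + L) ≤ g * (L ^ 2 / 2) := by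
            gcongr; nlinarith
        _ = L ^ 2 / 2 * g := by ring
        _ ≤ L ^ 2 / 2 * m := by gcongr
  have k1 := key (a * X + b * Y + c * W) (by rw [← r1]; exact h1)
  have k2 := key (b * X + c * Y + a * W) (by rw [← r2]; exact h2)
  have k3 := key (c * X + a * Y + b * W) (by rw [← r3]; exact h3)
  have l1 := Real.add_one_le_exp (-(a * X + b * Y + c * W))
  have l2 := Real.add_one_le_exp (-(b * X + c * Y + a * W))
  have l3 := Real.add_one_le_exp (-(c * X + a * Y + b * W))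
  have hSabc : a + b + c = S := by rw [ha, hb, hc, hSdef]; ring
  have hsumL : (a * X + b * Y + c * W) + (b * X + c * Y + a * W) + (c * X + a * Y + b * W)
      = 2 * N * S := by
    rw [← hSabc]; linear_combination (a + b + c) * hXYW
  have hsumsq : (a * X + b * Y + c * W) ^ 2 + (b * X + c * Y + a * W) ^ 2
      + (c * X + a * Y + b * W) ^ 2 = 2 * N ^ 2 * (S * (S + 2 * y)) := by
    have e1 : (a * X + b * Y + c * W) ^ 2 + (b * X + c * Y + a * W) ^ 2
      + (c * X + a * Y + b * W) ^ 2 = ((a + b + c) ^ 2 - 2 * (a * b + b * c + c * a)) *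
        ((X + Y + W) ^ 2 - 2 * (X * Y + Y * W + W * X)) +
        2 * (a * b + b * c + c * a) * (X * Y + Y * W + W * X) := by ring
    have e2 : a * b + b * c + c * a = -(2 * y * S) := by rw [← hSabc]; linarith
    rw [e1, hXYW, hsqXYW, hSabc, e2]; ring
  have hup : Dk A B C y k ≤ N ^ 2 * (S * (S + 2 * y)) * m := by
    unfold Dk
    rw [r1, r2, r3]
    have : g * Real.exp (-(a * X + b * Y + c * W)) + g * Real.exp (-(b * X + c * Y + a * W))
        + g * Real.exp (-(c * X + a * Y + b * W)) - 3 * g ≤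
        ((a * X + b * Y + c * W) ^ 2 + (b * X + c * Y + a * W) ^ 2
      + (c * X + a * Y + b * W) ^ 2) / 2 * m - g * (2 * N * S) := by
      rw [← hsumL]; linarith
    rw [hsumsq] at this
    have h7 : 0 ≤ g * (2 * N * S) := by positivity
    linarith
  have hlow : -(g * (2 * N * S)) ≤ Dk A B C y k := by
    unfold Dk
    rw [r1, r2, r3, ← hsumL]
    have m1 := mul_le_mul_of_nonneg_left l1 hp.le
    have m2 := mul_le_mul_of_nonneg_left l2 hp.le
    have m3 := mul_le_mul_of_nonneg_left l3 hp.le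
    linarith
  have hgm : g * (2 * N * S) ≤ N ^ 2 * (S * (S + 2 * y)) * m := by
    have : 2 * N * S ≤ N ^ 2 * (S * (S + 2 * y)) := by
      have h8 : 2 ≤ N * (S + 2 * y) := by
        have h8a : 2 ≤ S + 2 * y := by linarith
        have h8b : 1 ≤ N := by linarith
        calc (2 : ℝ) = 1 * 2 := by norm_num
          _ ≤ N * (S + 2 * y) := mul_le_mul h8b h8a (by norm_num) (by linarith)
      have h9 : 0 ≤ N * S := mul_nonneg (by linarith) hS0
      have h9a : N * S * 2 ≤ N * S * (N * (S + 2 * y)) := mul_le_mul_of_nonneg_left h8 h9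
      have h9b : N * S * (N * (S + 2 * y)) = N ^ 2 * (S * (S + 2 * y)) := by ring
      linarith
    have hNS : 0 ≤ 2 * N * S := by positivity
    have h10 : g * (2 * N * S) ≤ m * (2 * N * S) := mul_le_mul_of_nonneg_right h4 hNS
    have h11 : m * (2 * N * S) ≤ m * (N ^ 2 * (S * (S + 2 * y))) :=
      mul_le_mul_of_nonneg_left this hm0.le
    linarith
  rw [abs_le]
  constructor <;> linarith

lemma tail_I (A B C y : ℝ) (hy : 1 ≤ y)
    (hABC : A * B + B * C + C * A = 3 * y ^ 2) (hsum : 3 * y ≤ A + B + C)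
    (hS : A + B + C - 3 * y ≤ 0.25 * y) (k : ℤ × ℤ) (hk : k ∉ F19) :
    |Dk A B C y k| ≤ (49 * Real.exp (-2) * ((A + B + C - 3 * y) * (A + B + C - 3 * y + 2 * y))) *
      Real.exp (-(4 / 3 * y - 2 / 7) * Nf k) := by
  refine (tail_I_raw A B C y hy hABC hsum hS k hk).trans ?_
  have hN7 : (7 : ℝ) ≤ Nf k := by exact_mod_cast Nf_ge_seven hk
  have hS0 : 0 ≤ (A + B + C - 3 * y) * (A + B + C - 3 * y + 2 * y) := by
    apply mul_nonneg <;> linarith
  have h1 : (Nf k : ℝ) ^ 2 ≤ 49 * Real.exp (-2) * Real.exp (2 / 7 * Nf k) := by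
    have h2 : (Nf k : ℝ) / 7 ≤ Real.exp ((Nf k : ℝ) / 7 - 1) := by
      have := Real.add_one_le_exp ((Nf k : ℝ) / 7 - 1)
      linarith
    have h3 : ((Nf k : ℝ) / 7) ^ 2 ≤ Real.exp ((Nf k : ℝ) / 7 - 1) ^ 2 := by gcongr
    have h4 : Real.exp ((Nf k : ℝ) / 7 - 1) ^ 2 = Real.exp (-2) * Real.exp (2 / 7 * Nf k) := by
      rw [← Real.exp_nat_mul, ← Real.exp_add]; congr 1; push_cast; ring
    rw [h4] at h3
    nlinarith
  have h5 : Real.exp (-(4 / 3 * y - 2 / 7) * Nf k) =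
      Real.exp (2 / 7 * Nf k) * Real.exp (-(4 / 3 * y) * Nf k) := by
    rw [← Real.exp_add]; congr 1; ring
  rw [h5]
  have h6 := Real.exp_pos (-(4 / 3 * y) * (Nf k : ℝ))
  calc (Nf k : ℝ) ^ 2 * ((A + B + C - 3 * y) * (A + B + C - 3 * y + 2 * y)) *
      Real.exp (-(4 / 3 * y) * Nf k)
      ≤ (49 * Real.exp (-2) * Real.exp (2 / 7 * Nf k)) *
        ((A + B + C - 3 * y) * (A + B + C - 3 * y + 2 * y)) * Real.exp (-(4 / 3 * y) * Nf k) := by
        gcongr
    _ = _ := by ring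

end MP7e122f
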