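import Pool.Agent.Lib.MP_7e122f_an.Val

open MeasureTheory Complex

namespace MP7e122f

lemma hasSum_geom_aux (f : ℤ → ℝ) (r : ℝ) (h0 : 0 ≤ r) (h1 : r < 1)
    (hf1 : ∀ n : ℕ, f n = r ^ n) (hf2 : ∀ n : ℕ, f (-(n + 1)) = r * r ^ n) :
    HasSum f ((1 + r) / (1 - r)) := by
  have hg := hasSum_geometric_of_lt_one h0 h1
  have h2 : HasSum (fun n : ℕ => f n) (1 - r)⁻¹ := by
    simpa only [hf1] using hg
  have h3 : HasSum (fun n : ℕ => f (-(n + 1))) (r * (1 - r)⁻¹) := by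
    simpa only [hf2] using hg.mul_left r
  have h4 := HasSum.of_nat_of_neg_add_one h2 h3
  have e : (1 - r)⁻¹ + r * (1 - r)⁻¹ = (1 + r) / (1 - r) := by
    rw [div_eq_mul_inv]; ring
  rw [← e]
  exact h4

lemma hasSum_geom_int (r : ℝ) (h0 : 0 ≤ r) (h1 : r < 1) :
    HasSum (fun m : ℤ => r ^ m.natAbs) ((1 + r) / (1 - r)) := by
  apply hasSum_geom_aux _ r h0 h1
  · intro n
    rw [Int.natAbs_natCast]
  · intro n
    have : (-((n : ℤ) + 1)).natAbs = n + 1 := by omega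
    rw [this, pow_succ, mul_comm]

lemma tsum_le_of_finset {ι : Type*} [DecidableEq ι] (f g : ι → ℝ) (hf : Summable f)
    (hg : Summable g) (s : Finset ι) (h : ∀ i ∉ s, f i ≤ g i) :
    ∑' i, f i ≤ ∑' i, g i + ∑ i ∈ s, (f i - g i) := by
  have h1 := hg.sub hf
  have h2 : ∑ i ∈ s, (g i - f i) ≤ ∑' i, (g i - f i) :=
    h1.sum_le_tsum s fun i hi => sub_nonneg.2 (h i hi)
  rw [hg.tsum_sub hf] at h2
  have h3 : ∑ i ∈ s, (f i - g i) = - ∑ i ∈ s, (g i - f i) := by
    rw [← Finset.sum_neg_distrib]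
    exact Finset.sum_congr rfl fun i _ => by ring
  linarith

lemma F1_dup (a θ : ℝ) (ha : 0 < a) :
    F1 a (θ / 2) + F1 a (θ / 2 + Real.pi) = 2 * F1 (4 * a) θ := by
  unfold F1
  rw [← (summable_F1 a (θ / 2) ha).tsum_add (summable_F1 a (θ / 2 + Real.pi) ha),
    ← tsum_mul_left]
  have hinj : Function.Injective (fun m : ℤ => 2 * m) := fun a b h => by
    simpa using h
  rw [← hinj.tsum_eq]
  · congr 1
    funext m
    push_cast
    have e1 : (θ / 2 + Real.pi) * (2 * (m : ℝ)) = θ * m + m * (2 * Real.pi) := by ring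
    have e2 : θ / 2 * (2 * (m : ℝ)) = θ * m := by ring
    rw [e1, e2, Real.cos_add_int_mul_two_pi]
    have e3 : -a * (2 * (m : ℝ)) ^ 2 = -(4 * a) * (m : ℝ) ^ 2 := by ring
    rw [e3]; ring
  · intro m hm
    by_contra hodd
    apply hm
    have : Odd m := by
      rw [← Int.not_even_iff_odd]
      rintro ⟨r, hr⟩
      exact hodd ⟨r, by simp only; omega⟩
    obtain ⟨r, hr⟩ := this
    have e : Real.cos ((θ / 2 + Real.pi) * m) = - Real.cos (θ / 2 * m) := by
      have : (θ / 2 + Real.pi) * (m : ℝ) = (θ / 2 * m + Real.pi) + r * (2 * Real.pi) := by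
        rw [hr]; push_cast; ring
      rw [this, Real.cos_add_int_mul_two_pi, Real.cos_add_pi]
    simp only [e]
    ring

lemma exists_dup (a θ : ℝ) (ha : 0 < a) : ∃ θ', F1 a θ' ≤ F1 (4 * a) θ := by
  have h := F1_dup a θ ha
  by_contra hc
  push Not at hc
  have h1 := hc (θ / 2)
  have h2 := hc (θ / 2 + Real.pi)
  linarith

lemma exists_dup_pow (n : ℕ) : ∀ (a : ℝ), 0 < a → ∀ θ, ∃ θ', F1 a θ' ≤ F1 (4 ^ n * a) θ := by
  induction n with
  | zero => intro a _ θ; exact ⟨θ, by simp⟩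
  | succ n ih =>
    intro a ha θ
    obtain ⟨θ₁, h1⟩ := ih (4 * a) (by positivity) θ
    obtain ⟨θ₂, h2⟩ := exists_dup a θ₁ ha
    refine ⟨θ₂, h2.trans (h1.trans (le_of_eq ?_))⟩
    congr 1
    ring

lemma F1_pi_upper (a : ℝ) (ha : 0 < a) (X : ℝ) (hX : X = Real.exp (-a)) :
    F1 a Real.pi ≤ 1 - 2 * X + 2 * X ^ 4 / (1 - X) := by
  have hX0 : 0 < X := hX ▸ Real.exp_pos _
  have hX1 : X < 1 := by rw [hX]; exact Real.exp_lt_one_iff.2 (by linarith)
  have hg := hasSum_geom_int X hX0.le hX1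
  have hterm : ∀ m : ℤ, Real.exp (-a * (m : ℝ) ^ 2) = X ^ (m.natAbs ^ 2) := by
    intro m
    rw [hX, ← Real.exp_nat_mul]
    congr 1
    push_cast
    rw [← Nat.cast_pow, ]
    have : ((m.natAbs : ℝ)) ^ 2 = (m : ℝ) ^ 2 := by
      rw [Nat.cast_natAbs, Int.cast_abs, sq_abs]
    rw [Nat.cast_pow, this]; ring
  have h := tsum_le_of_finset (fun m : ℤ => Real.exp (-a * m ^ 2) * Real.cos (Real.pi * m))
    (fun m : ℤ => X ^ 2 * X ^ m.natAbs) (summable_F1 a Real.pi ha) (hg.summable.mul_left _)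
    {-1, 0, 1} (by
      intro m hm
      have h2 : 2 ≤ m.natAbs := by
        simp only [Finset.mem_insert, Finset.mem_singleton, not_or] at hm
        omega
      calc Real.exp (-a * m ^ 2) * Real.cos (Real.pi * m) ≤ Real.exp (-a * m ^ 2) * 1 := by
            gcongr; exact Real.cos_le_one _
        _ = X ^ (m.natAbs ^ 2) := by rw [mul_one, hterm]
        _ ≤ X ^ (2 + m.natAbs) := pow_le_pow_of_le_one hX0.le hX1.le (by nlinarith)
        _ = X ^ 2 * X ^ m.natAbs := by rw [pow_add])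
  unfold F1
  refine h.trans (le_of_eq ?_)
  rw [tsum_mul_left, hg.tsum_eq]
  rw [Finset.sum_insert (by decide), Finset.sum_insert (by decide), Finset.sum_singleton]
  have c1 : Real.cos (Real.pi * ((-1 : ℤ) : ℝ)) = -1 := by simp
  have c2 : Real.cos (Real.pi * ((1 : ℤ) : ℝ)) = -1 := by simp
  have c3 : Real.cos (Real.pi * ((0 : ℤ) : ℝ)) = 1 := by simp
  rw [c1, c2, c3, hterm, hterm, hterm]
  have : 1 - X ≠ 0 := by linarith
  simp only [Int.natAbs_neg, Int.natAbs_one, Int.natAbs_zero]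
  field_simp
  ring

lemma F1_zero_lower (a : ℝ) (ha : 0 < a) : 1 + 2 * Real.exp (-a) ≤ F1 a 0 := by
  have h := (summable_F1 a 0 ha).sum_le_tsum {-1, 0, 1} (fun m _ => by
    simp only [zero_mul, Real.cos_zero, mul_one]; positivity)
  unfold F1
  refine le_trans (le_of_eq ?_) h
  rw [Finset.sum_insert (by decide), Finset.sum_insert (by decide), Finset.sum_singleton]
  simp
  ring

end MP7e122f
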