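import Pool.Agent.Lib.MP_7e122f_an.States

open MeasureTheory Complex
open scoped ComplexInnerProductSpace ENNReal

namespace MP7e122f

/-- the normalised adjoint-side functional -/
noncomputable def TS (M : Mat) (f : L2) : ℝ := ∑' k, wt M k * st M f k

lemma TM_eq (M : Mat) (hM : 0 < M.det) (f : L2) : TM M f = (1 / M.det) * TS M f := by
  unfold TM TS
  congr 1
  have h := Complex.hasSum_re (hasSum_inner_Top M hM.ne' f f)
  rw [← h.tsum_eq]
  congr 1
  funext k
  rw [Complex.re_ofReal_mul]; rfl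

lemma summable_wt_mul (M : Mat) (hM : 0 < M.det) (w : ℤ × ℤ → ℝ) (hw : ∀ k, |w k| ≤ 1) :
    Summable fun k => wt M k * w k := by
  refine Summable.of_norm_bounded (g := wt M) (summable_wt M hM.ne') fun k => ?_
  rw [norm_mul, Real.norm_eq_abs, Real.norm_eq_abs, abs_of_pos (wt_pos M k)]
  exact mul_le_of_le_one_right (wt_pos M k).le (hw k)

lemma abs_TS_le (M : Mat) (hM : 0 < M.det) (f : L2) (hf : ‖f‖ = 1) :
    |TS M f| ≤ ∑' k, wt M k := by
  unfold TS
  have hs := summable_wt_mul M hM (st M f) (abs_st_le M f hf)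
  calc |∑' k, wt M k * st M f k| ≤ ∑' k, ‖wt M k * st M f k‖ := by
        rw [← Real.norm_eq_abs]; exact norm_tsum_le_tsum_norm hs.norm
    _ ≤ ∑' k, wt M k := by
        apply Summable.tsum_le_tsum _ hs.norm (summable_wt M hM.ne')
        intro k
        rw [norm_mul, Real.norm_eq_abs, Real.norm_eq_abs, abs_of_pos (wt_pos M k)]
        exact mul_le_of_le_one_right (wt_pos M k).le (abs_st_le M f hf k)

/-- the optimal normalised constants -/
noncomputable def aval (M : Mat) : ℝ := sInf (TS M '' {f | ‖f‖ = 1})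
noncomputable def bval (M : Mat) : ℝ := sSup (TS M '' {f | ‖f‖ = 1})

lemma unit_exists : ∃ f : L2, ‖f‖ = 1 := by
  obtain ⟨f, hf, _⟩ := gauss_state (1 : Mat) (by simp) (1, 0, 1) (by norm_num) (by simp) (0, 0)
  exact ⟨f, hf⟩

lemma nonempty_TS (M : Mat) : (TS M '' {f | ‖f‖ = 1}).Nonempty := by
  obtain ⟨f, hf⟩ := unit_exists
  exact ⟨_, f, hf, rfl⟩

lemma bddBelow_TS (M : Mat) (hM : 0 < M.det) : BddBelow (TS M '' {f | ‖f‖ = 1}) := by
  refine ⟨-∑' k, wt M k, ?_⟩
  rintro _ ⟨f, hf, rfl⟩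
  exact (abs_le.1 (abs_TS_le M hM f hf)).1

lemma bddAbove_TS (M : Mat) (hM : 0 < M.det) : BddAbove (TS M '' {f | ‖f‖ = 1}) := by
  refine ⟨∑' k, wt M k, ?_⟩
  rintro _ ⟨f, hf, rfl⟩
  exact (abs_le.1 (abs_TS_le M hM f hf)).2

lemma aval_le (M : Mat) (hM : 0 < M.det) (f : L2) (hf : ‖f‖ = 1) : aval M ≤ TS M f :=
  csInf_le (bddBelow_TS M hM) ⟨f, hf, rfl⟩

lemma le_bval (M : Mat) (hM : 0 < M.det) (f : L2) (hf : ‖f‖ = 1) : TS M f ≤ bval M :=
  le_csSup (bddAbove_TS M hM) ⟨f, hf, rfl⟩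

lemma exists_near_aval (M : Mat) (ε : ℝ) (hε : 0 < ε) :
    ∃ f : L2, ‖f‖ = 1 ∧ TS M f < aval M + ε := by
  obtain ⟨_, ⟨f, hf, rfl⟩, h⟩ := exists_lt_of_csInf_lt (nonempty_TS M)
    (lt_add_of_pos_right (aval M) hε)
  exact ⟨f, hf, h⟩

lemma exists_near_bval (M : Mat) (ε : ℝ) (hε : 0 < ε) :
    ∃ f : L2, ‖f‖ = 1 ∧ bval M - ε < TS M f := by
  obtain ⟨_, ⟨f, hf, rfl⟩, h⟩ := exists_lt_of_lt_csSup (nonempty_TS M)
    (sub_lt_self (bval M) hε)
  exact ⟨f, hf, h⟩

/-- transfer of states between lattices -/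
theorem transfer_val (M M' : Mat) (hM : 0 < M.det) (hM' : M'.det = M.det) (f : L2)
    (hf : ‖f‖ = 1) :
    aval M' ≤ ∑' k, wt M' k * st M f k ∧ ∑' k, wt M' k * st M f k ≤ bval M' := by
  have hM'0 : 0 < M'.det := hM' ▸ hM
  set W := ∑' k, wt M' k with hW
  have hWnn : 0 ≤ W := tsum_nonneg fun k => (wt_pos M' k).le
  have hs1 := summable_wt_mul M' hM'0 (st M f) (abs_st_le M f hf)
  have key : ∀ ε : ℝ, 0 < ε → ∃ f' : L2, ‖f'‖ = 1 ∧
      |TS M' f' - ∑' k, wt M' k * st M f k| ≤ ε * W := by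
    intro ε hε
    obtain ⟨f', hf', h⟩ := transfer M M' hM hM' f hf ε hε
    refine ⟨f', hf', ?_⟩
    have hs2 := summable_wt_mul M' hM'0 (st M' f') (abs_st_le M' f' hf')
    unfold TS
    rw [← hs2.tsum_sub hs1]
    have hs3 := hs2.sub hs1
    calc |∑' k, (wt M' k * st M' f' k - wt M' k * st M f k)|
        ≤ ∑' k, ‖wt M' k * st M' f' k - wt M' k * st M f k‖ := by
          rw [← Real.norm_eq_abs]; exact norm_tsum_le_tsum_norm hs3.norm
      _ ≤ ∑' k, ε * wt M' k := by
          apply Summable.tsum_le_tsum _ hs3.norm ((summable_wt M' hM'0.ne').mul_left ε)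
          intro k
          rw [← mul_sub, norm_mul, Real.norm_eq_abs, Real.norm_eq_abs, abs_of_pos (wt_pos M' k),
            mul_comm]
          exact mul_le_mul_of_nonneg_right (h k) (wt_pos M' k).le
      _ = ε * W := by rw [tsum_mul_left]
  constructor
  · by_contra hlt
    push Not at hlt
    set d := aval M' - ∑' k, wt M' k * st M f k with hd
    have hdpos : 0 < d := by linarith
    obtain ⟨f', hf', h⟩ := key (d / (2 * (W + 1))) (by positivity)
    have h1 := aval_le M' hM'0 f' hf'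
    have h2 : d / (2 * (W + 1)) * W ≤ d / 2 := by
      rw [div_mul_eq_mul_div, div_le_div_iff₀ (by positivity) (by norm_num)]
      nlinarith
    have h3 := (abs_le.1 h).2
    linarith
  · by_contra hlt
    push Not at hlt
    set d := ∑' k, wt M' k * st M f k - bval M' with hd
    have hdpos : 0 < d := by linarith
    obtain ⟨f', hf', h⟩ := key (d / (2 * (W + 1))) (by positivity)
    have h1 := le_bval M' hM'0 f' hf'
    have h2 : d / (2 * (W + 1)) * W ≤ d / 2 := by
      rw [div_mul_eq_mul_div, div_le_div_iff₀ (by positivity) (by norm_num)]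
      nlinarith
    have h3 := (abs_le.1 h).1
    linarith

/-- integer change of basis -/
noncomputable def mulZ (M : Mat) (R : Matrix (Fin 2) (Fin 2) ℤ) : Mat := M * R.map (Int.cast : ℤ → ℝ)

def actZ (R : Matrix (Fin 2) (Fin 2) ℤ) (k : ℤ × ℤ) : ℤ × ℤ :=
  (R 0 0 * k.1 + R 0 1 * k.2, R 1 0 * k.1 + R 1 1 * k.2)

lemma det_mulZ (M : Mat) (R : Matrix (Fin 2) (Fin 2) ℤ) (hR : R.det = 1) :
    (mulZ M R).det = M.det := by
  unfold mulZ
  rw [Matrix.det_mul]
  have : (R.map (Int.cast : ℤ → ℝ)).det = 1 := by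
    rw [Matrix.det_fin_two] at hR ⊢
    simp only [Matrix.map_apply]
    exact_mod_cast hR
  rw [this, mul_one]

lemma lam_mulZ (M : Mat) (R : Matrix (Fin 2) (Fin 2) ℤ) (k : ℤ × ℤ) :
    lam (mulZ M R) k = lam M (actZ R k) := by
  unfold lam mulZ act cst actZ
  simp only [Matrix.mul_apply, Fin.sum_univ_two, Matrix.map_apply]
  push_cast
  ext
  · simp only; ring
  · simp only; ring

lemma zet_mulZ (M : Mat) (R : Matrix (Fin 2) (Fin 2) ℤ) (hR : R.det = 1) (k : ℤ × ℤ) :
    zet (mulZ M R) k = zet M (actZ R k) := by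
  unfold zet
  rw [lam_mulZ, det_mulZ M R hR]

lemma st_mulZ (M : Mat) (R : Matrix (Fin 2) (Fin 2) ℤ) (hR : R.det = 1) (f : L2) (k : ℤ × ℤ) :
    st (mulZ M R) f k = st M f (actZ R k) := by
  unfold st
  rw [zet_mulZ M R hR]

lemma Qf_mulZ (M : Mat) (R : Matrix (Fin 2) (Fin 2) ℤ) (hR : R.det = 1) (k : ℤ × ℤ) :
    Qf (mulZ M R) k = Qf M (actZ R k) := by
  unfold Qf
  rw [zet_mulZ M R hR]

lemma wt_mulZ (M : Mat) (R : Matrix (Fin 2) (Fin 2) ℤ) (hR : R.det = 1) (k : ℤ × ℤ) :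
    wt (mulZ M R) k = wt M (actZ R k) := by
  unfold wt
  rw [Qf_mulZ M R hR]

theorem transfer_rot (M M' : Mat) (hM : 0 < M.det) (hM' : M'.det = M.det)
    (R : Matrix (Fin 2) (Fin 2) ℤ) (hR : R.det = 1) (f : L2) (hf : ‖f‖ = 1) :
    aval M' ≤ ∑' k, wt M' k * st M f (actZ R k) ∧
      ∑' k, wt M' k * st M f (actZ R k) ≤ bval M' := by
  have h := transfer_val (mulZ M R) M' (by rw [det_mulZ M R hR]; exact hM)
    (by rw [det_mulZ M R hR]; exact hM') f hf
  simpa only [st_mulZ M R hR] using h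

/-- Gaussian tests -/
theorem gauss_test (M : Mat) (hM : 0 < M.det) (P : ℝ × ℝ × ℝ) (hP : 0 < P.1)
    (hdet : P.1 * P.2.2 - P.2.1 ^ 2 = (1 / M.det) ^ 2) (θ : ℝ × ℝ) :
    aval M ≤ ∑' k : ℤ × ℤ, wt M k * (Real.cos (2 * Real.pi * (θ.1 * k.1 + θ.2 * k.2)) *
      Real.exp (-(Real.pi / 2) * qf P (cst k))) ∧
    ∑' k : ℤ × ℤ, wt M k * (Real.cos (2 * Real.pi * (θ.1 * k.1 + θ.2 * k.2)) *
      Real.exp (-(Real.pi / 2) * qf P (cst k))) ≤ bval M := by
  obtain ⟨f, hf, h⟩ := gauss_state M hM P hP hdet θ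
  have h1 := aval_le M hM f hf
  have h2 := le_bval M hM f hf
  unfold TS at h1 h2
  simp only [h] at h1 h2
  exact ⟨h1, h2⟩

/-- one-dimensional theta sum -/
noncomputable def F1 (a θ : ℝ) : ℝ := ∑' m : ℤ, Real.exp (-a * m ^ 2) * Real.cos (θ * m)

lemma summable_F1 (a θ : ℝ) (ha : 0 < a) :
    Summable fun m : ℤ => Real.exp (-a * m ^ 2) * Real.cos (θ * m) := by
  have h := summable_one a 0 ha
  refine Summable.of_norm_bounded h fun m => ?_
  rw [norm_mul, Real.norm_eq_abs, Real.norm_eq_abs, abs_of_pos (Real.exp_pos _)]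
  have := Real.abs_cos_le_one (θ * m)
  have h2 := Real.exp_pos (-a * (m : ℝ) ^ 2)
  calc Real.exp (-a * m ^ 2) * |Real.cos (θ * m)| ≤ Real.exp (-a * m ^ 2) * 1 := by gcongr
    _ = Real.exp (-a * m ^ 2 + 0 * m) := by rw [mul_one]; congr 1; ring

theorem line_test (M : Mat) (hM : 0 < M.det) (θ : ℝ) :
    aval M ≤ F1 (Real.pi / 2 * Qf M (1, 0)) θ ∧ F1 (Real.pi / 2 * Qf M (1, 0)) θ ≤ bval M := by
  -- family of degenerating forms
  set δ := 1 / M.det with hδ
  have hδ0 : 0 < δ := by positivity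
  set φ : ℝ → ℤ × ℤ → ℝ := fun ε k => wt M k * (Real.cos (2 * Real.pi *
    (θ / (2 * Real.pi) * k.1 + 0 * k.2)) *
    Real.exp (-(Real.pi / 2) * qf (ε, 0, δ ^ 2 / ε) (cst k))) with hφ
  set ψ : ℤ × ℤ → ℝ := fun k => if k.2 = 0 then wt M k * Real.cos (θ * k.1) else 0 with hψ
  have hlim : Filter.Tendsto (fun ε => ∑' k, φ ε k) (nhdsWithin 0 (Set.Ioi 0))
      (nhds (∑' k, ψ k)) := by
    apply tendsto_tsum_of_dominated_convergence (summable_wt M hM.ne')
    · intro k
      rw [hψ, hφ]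
      simp only
      have hcos : 2 * Real.pi * (θ / (2 * Real.pi) * (k.1 : ℝ) + 0 * (k.2 : ℝ)) = θ * k.1 := by
        have := Real.pi_pos
        field_simp
        ring
      rw [hcos]
      by_cases hk : k.2 = 0
      · rw [if_pos hk]
        have : Filter.Tendsto (fun ε : ℝ => wt M k * (Real.cos (θ * k.1) *
            Real.exp (-(Real.pi / 2) * (ε * (k.1 : ℝ) ^ 2)))) (nhdsWithin 0 (Set.Ioi 0))
            (nhds (wt M k * (Real.cos (θ * k.1) * Real.exp (-(Real.pi / 2) * (0 * (k.1 : ℝ) ^ 2))))) := by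
          apply Filter.Tendsto.mono_left _ nhdsWithin_le_nhds
          apply Continuous.tendsto
          fun_prop
        simp only [zero_mul, mul_zero, Real.exp_zero, mul_one] at this
        refine this.congr fun ε => ?_
        unfold qf cst
        simp [hk]
      · rw [if_neg hk]
        have hk2 : (0 : ℝ) < (k.2 : ℝ) ^ 2 := by
          have : (k.2 : ℝ) ≠ 0 := by exact_mod_cast hk
          positivity
        have h1 : Filter.Tendsto (fun ε : ℝ => Real.exp (-(Real.pi / 2 * δ ^ 2 * (k.2 : ℝ) ^ 2) * ε⁻¹))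
            (nhdsWithin 0 (Set.Ioi 0)) (nhds 0) := by
          have h2 : Filter.Tendsto (fun ε : ℝ => (Real.pi / 2 * δ ^ 2 * (k.2 : ℝ) ^ 2) * ε⁻¹)
              (nhdsWithin 0 (Set.Ioi 0)) Filter.atTop := by
            apply Filter.Tendsto.const_mul_atTop _ tendsto_inv_nhdsGT_zero
            have := Real.pi_pos
            positivity
          have h3 := Real.tendsto_exp_neg_atTop_nhds_zero.comp h2
          refine h3.congr fun ε => ?_
          simp only [Function.comp]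
          congr 1; ring
        have h4 : Filter.Tendsto (fun ε : ℝ => wt M k *
            Real.exp (-(Real.pi / 2 * δ ^ 2 * (k.2 : ℝ) ^ 2) * ε⁻¹))
            (nhdsWithin 0 (Set.Ioi 0)) (nhds 0) := by
          simpa using h1.const_mul (wt M k)
        apply squeeze_zero_norm' _ h4
        filter_upwards [self_mem_nhdsWithin] with ε hε
        have hε' : (0 : ℝ) < ε := hε
        rw [norm_mul, norm_mul, Real.norm_eq_abs, Real.norm_eq_abs, Real.norm_eq_abs,
          abs_of_pos (wt_pos M k), abs_of_pos (Real.exp_pos _)]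
        have hc := Real.abs_cos_le_one (θ * k.1)
        have he : Real.exp (-(Real.pi / 2) * qf (ε, 0, δ ^ 2 / ε) (cst k)) ≤
            Real.exp (-(Real.pi / 2 * δ ^ 2 * (k.2 : ℝ) ^ 2) * ε⁻¹) := by
          rw [Real.exp_le_exp]
          unfold qf cst
          simp only
          have h5 : 0 ≤ Real.pi / 2 * (ε * (k.1 : ℝ) ^ 2) := by
            have := Real.pi_pos
            positivity
          have h6 : -(Real.pi / 2) * (ε * (k.1 : ℝ) ^ 2 + 2 * 0 * (k.1 : ℝ) * k.2 + δ ^ 2 / ε * (k.2 : ℝ) ^ 2)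
              = -(Real.pi / 2 * δ ^ 2 * (k.2 : ℝ) ^ 2) * ε⁻¹ - Real.pi / 2 * (ε * (k.1 : ℝ) ^ 2) := by
            field_simp
            ring
          linarith
        have := wt_pos M k
        calc wt M k * (|Real.cos (θ * k.1)| * Real.exp (-(Real.pi / 2) * qf (ε, 0, δ ^ 2 / ε) (cst k)))
            ≤ wt M k * (1 * Real.exp (-(Real.pi / 2 * δ ^ 2 * (k.2 : ℝ) ^ 2) * ε⁻¹)) := by gcongr
          _ = _ := by ring
    · filter_upwards [self_mem_nhdsWithin] with ε hε k
      have hε' : (0 : ℝ) < ε := hε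
      rw [hφ]
      simp only
      rw [norm_mul, norm_mul, Real.norm_eq_abs, Real.norm_eq_abs, Real.norm_eq_abs,
          abs_of_pos (wt_pos M k), abs_of_pos (Real.exp_pos _)]
      have he : Real.exp (-(Real.pi / 2) * qf (ε, 0, δ ^ 2 / ε) (cst k)) ≤ 1 := by
        rw [Real.exp_le_one_iff]
        unfold qf cst
        simp only
        have := Real.pi_pos
        have h5 : 0 ≤ ε * (k.1 : ℝ) ^ 2 + 2 * 0 * (k.1 : ℝ) * k.2 + δ ^ 2 / ε * (k.2 : ℝ) ^ 2 := by
          have : 0 ≤ ε * (k.1 : ℝ) ^ 2 + δ ^ 2 / ε * (k.2 : ℝ) ^ 2 := by positivity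
          linarith
        nlinarith
      apply mul_le_of_le_one_right (wt_pos M k).le
      calc _ ≤ 1 * 1 := mul_le_mul (Real.abs_cos_le_one _) he (Real.exp_pos _).le zero_le_one
        _ = 1 := by norm_num
  have hsum : ∑' k, ψ k = F1 (Real.pi / 2 * Qf M (1, 0)) θ := by
    unfold F1
    have hinj : Function.Injective (fun m : ℤ => ((m, 0) : ℤ × ℤ)) := fun a b h => by
      simpa using h
    rw [← hinj.tsum_eq]
    · congr 1
      funext m
      rw [hψ]
      simp only [if_pos]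
      congr 1
      unfold wt
      congr 1
      rw [Qf_eq, Qf_eq]
      push_cast
      ring
    · intro k hk
      rw [Function.mem_support, hψ] at hk
      simp only [ne_eq, ite_eq_right_iff, Classical.not_imp] at hk
      exact ⟨k.1, by ext <;> simp [hk.1]⟩
  rw [← hsum]
  constructor
  · apply ge_of_tendsto hlim
    filter_upwards [self_mem_nhdsWithin] with ε hε
    have hε' : (0 : ℝ) < ε := hε
    exact (gauss_test M hM (ε, 0, δ ^ 2 / ε) hε' (by
      simp only; rw [hδ]; field_simp; ring) (θ / (2 * Real.pi), 0)).1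
  · apply le_of_tendsto hlim
    filter_upwards [self_mem_nhdsWithin] with ε hε
    have hε' : (0 : ℝ) < ε := hε
    exact (gauss_test M hM (ε, 0, δ ^ 2 / ε) hε' (by
      simp only; rw [hδ]; field_simp; ring) (θ / (2 * Real.pi), 0)).2

end MP7e122f
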